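import Pool.Agent.LibBrS.Defs

/-!
The monomials u^i v^j (i, j < l) are a basis of the algebra generated by u and v.
-/

set_option autoImplicit false

open scoped TensorProduct
open Module Pool.Agent.LibK2Tower

namespace Pool.Agent.LibBrS

variable {K : Type} [Field K] {l : ℕ} {ζ a b : K} {A : Type} [Ring A] [Algebra K A] {u v : A}

theorem comm_pow_left (huv : u * v = ζ • (v * u)) (i : ℕ) :
    u ^ i * v = ζ ^ i • (v * u ^ i) := by
  induction i with
  | zero => simp
  | succ i ih =>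
    rw [pow_succ', mul_assoc, ih, mul_smul_comm, ← mul_assoc, huv, smul_mul_assoc, smul_smul,
      mul_assoc, ← pow_succ]

theorem comm_pow (huv : u * v = ζ • (v * u)) (i j : ℕ) :
    u ^ i * v ^ j = ζ ^ (i * j) • (v ^ j * u ^ i) := by
  induction j with
  | zero => simp
  | succ j ih =>
    rw [pow_succ, ← mul_assoc, ih, smul_mul_assoc, mul_assoc, comm_pow_left huv, mul_smul_comm,
      smul_smul, ← mul_assoc, ← pow_add, mul_add, mul_one]

/-- An element with a nonzero scalar power is a unit. -/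
theorem isUnit_of_pow (hl : 0 < l) (ha : a ≠ 0) (hu : u ^ l = algebraMap K A a) : IsUnit u := by
  have h1 : IsUnit (u ^ l) := by
    rw [hu]
    exact (IsUnit.mk0 a ha).map (algebraMap K A)
  exact (isUnit_pow_iff hl.ne').1 h1

theorem eig_zero {ι : Type} [Fintype ι] (f : Module.End K A) (μ : ι → K)
    (hμ : Function.Injective μ) (w : ι → A) (hw : ∀ i, f (w i) = μ i • w i)
    (hs : ∑ i, w i = 0) (i : ι) : w i = 0 := by
  classical
  by_contra hi
  have h1 : LinearIndependent K (fun j : {j : ι // w j ≠ 0} => w j) := by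
    apply Module.End.eigenvectors_linearIndependent' f (fun j : {j : ι // w j ≠ 0} => μ j)
      (fun j k h => Subtype.ext (hμ h))
    intro j
    exact Module.End.hasEigenvector_iff.2 ⟨Module.End.mem_eigenspace_iff.2 (hw j), j.2⟩
  have h2 : ∑ j : {j : ι // w j ≠ 0}, (1 : K) • w j = 0 := by
    simp only [one_smul]
    rw [← Finset.sum_subtype (Finset.univ.filter (fun j => w j ≠ 0)) (by simp) w,
      Finset.sum_filter_ne_zero, hs]
  exact one_ne_zero (Fintype.linearIndependent_iff.1 h1 (fun _ => 1) h2 ⟨i, hi⟩)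

theorem mono_li [Nontrivial A] (hζ : IsPrimitiveRoot ζ l) (hl : 0 < l) (ha : a ≠ 0) (hb : b ≠ 0)
    (hu : u ^ l = algebraMap K A a) (hv : v ^ l = algebraMap K A b)
    (huv : u * v = ζ • (v * u)) :
    LinearIndependent K (fun ij : Fin l × Fin l => u ^ (ij.1 : ℕ) * v ^ (ij.2 : ℕ)) := by
  have hU := isUnit_of_pow hl ha hu
  have hV := isUnit_of_pow hl hb hv
  have hinj : Function.Injective (fun i : Fin l => ζ ^ (i : ℕ)) := by
    intro i j h
    exact Fin.ext (hζ.pow_inj i.2 j.2 h)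
  obtain ⟨U, hU'⟩ := hU
  obtain ⟨V, hV'⟩ := hV
  rw [Fintype.linearIndependent_iff]
  intro c hc
  let f : Module.End K A := (LinearMap.mulRight K (U⁻¹ : Aˣ).val) ∘ₗ (LinearMap.mulLeft K U.val)
  let g : Module.End K A := (LinearMap.mulRight K V.val) ∘ₗ (LinearMap.mulLeft K (V⁻¹ : Aˣ).val)
  have hf : ∀ i j : ℕ, f (u ^ i * v ^ j) = ζ ^ j • (u ^ i * v ^ j) := by
    intro i j
    show U.val * (u ^ i * v ^ j) * (U⁻¹ : Aˣ).val = _
    rw [Units.mul_inv_eq_iff_eq_mul, hU', smul_mul_assoc, ← mul_assoc, ← pow_succ', pow_succ,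
      mul_assoc, mul_assoc]
    have := comm_pow huv 1 j
    rw [pow_one, one_mul] at this
    rw [this, mul_smul_comm]
  have hg : ∀ i j : ℕ, g (u ^ i * v ^ j) = ζ ^ i • (u ^ i * v ^ j) := by
    intro i j
    show (V⁻¹ : Aˣ).val * (u ^ i * v ^ j) * V.val = _
    rw [mul_assoc, Units.inv_mul_eq_iff_eq_mul, hV', mul_assoc, ← pow_succ, pow_succ', ← mul_assoc,
      comm_pow_left huv, mul_smul_comm, smul_mul_assoc, mul_assoc]
  have h1 : ∀ j : Fin l, ∑ i : Fin l, c (i, j) • (u ^ (i : ℕ) * v ^ (j : ℕ)) = 0 := by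
    apply eig_zero f (fun j : Fin l => ζ ^ (j : ℕ)) hinj
    · intro j
      rw [map_sum, Finset.smul_sum]
      refine Finset.sum_congr rfl fun i _ => ?_
      rw [map_smul, hf, smul_comm]
    · rw [← hc, Fintype.sum_prod_type_right]
  rintro ⟨i, j⟩
  have h2 := eig_zero g (fun i : Fin l => ζ ^ (i : ℕ)) hinj
    (fun i : Fin l => c (i, j) • (u ^ (i : ℕ) * v ^ (j : ℕ)))
    (by
      intro i
      rw [map_smul, hg, smul_comm]) (h1 j) i
  rcases smul_eq_zero.1 h2 with h3 | h3
  · exact h3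
  · exfalso
    have h4 : IsUnit (u ^ (i : ℕ) * v ^ (j : ℕ)) := by
      rw [← hU', ← hV']
      exact ((U ^ (i : ℕ)) * (V ^ (j : ℕ))).isUnit
    exact h4.ne_zero h3

theorem mono_reduce (hu : u ^ l = algebraMap K A a) (hv : v ^ l = algebraMap K A b) (i j : ℕ) :
    u ^ i * v ^ j = (a ^ (i / l) * b ^ (j / l)) • (u ^ (i % l) * v ^ (j % l)) := by
  conv_lhs => rw [← Nat.div_add_mod i l, ← Nat.div_add_mod j l]
  rw [pow_add, pow_add, pow_mul, pow_mul, hu, hv, ← map_pow, ← map_pow, mul_assoc,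
    ← mul_assoc (u ^ (i % l)), ← Algebra.commutes, mul_assoc, ← Algebra.smul_def,
    ← Algebra.smul_def, smul_smul]

theorem mono_span (hζ : IsPrimitiveRoot ζ l) (hl : 0 < l)
    (hu : u ^ l = algebraMap K A a) (hv : v ^ l = algebraMap K A b)
    (huv : u * v = ζ • (v * u)) :
    Submodule.span K (Set.range (fun ij : Fin l × Fin l => u ^ (ij.1 : ℕ) * v ^ (ij.2 : ℕ))) =
      Subalgebra.toSubmodule (Algebra.adjoin K {u, v}) := by
  have hζ0 : ζ ≠ 0 := hζ.ne_zero hl.ne'
  apply le_antisymm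
  · rw [Submodule.span_le]
    rintro _ ⟨ij, rfl⟩
    have h1 : u ∈ Algebra.adjoin K {u, v} := Algebra.subset_adjoin (by simp)
    have h2 : v ∈ Algebra.adjoin K {u, v} := Algebra.subset_adjoin (by simp)
    show u ^ (ij.1 : ℕ) * v ^ (ij.2 : ℕ) ∈ Algebra.adjoin K {u, v}
    exact mul_mem (pow_mem h1 _) (pow_mem h2 _)
  · rw [Algebra.adjoin_eq_span, Submodule.span_le]
    have h3 : ∀ x ∈ Submonoid.closure ({u, v} : Set A), ∃ (c : K) (i j : ℕ),
        x = c • (u ^ i * v ^ j) := by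
      intro x hx
      induction hx using Submonoid.closure_induction with
      | mem x hx =>
        rcases hx with rfl | hx
        · exact ⟨1, 1, 0, by simp⟩
        · rw [Set.mem_singleton_iff] at hx
          subst hx
          exact ⟨1, 0, 1, by simp⟩
      | one => exact ⟨1, 0, 0, by simp⟩
      | mul x y _ _ hx hy =>
        obtain ⟨c, i, j, rfl⟩ := hx
        obtain ⟨c', i', j', rfl⟩ := hy
        refine ⟨c * c' * (ζ ^ (i' * j))⁻¹, i + i', j + j', ?_⟩
        have h4 : v ^ j * u ^ i' = (ζ ^ (i' * j))⁻¹ • (u ^ i' * v ^ j) := by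
          rw [comm_pow huv, smul_smul, inv_mul_cancel₀ (pow_ne_zero _ hζ0), one_smul]
        rw [smul_mul_smul_comm, mul_assoc (u ^ i), ← mul_assoc (v ^ j), h4, smul_mul_assoc,
          mul_smul_comm, smul_smul, pow_add, pow_add]
        simp only [mul_assoc]
    intro x hx
    obtain ⟨c, i, j, rfl⟩ := h3 x hx
    rw [mono_reduce hu hv i j, smul_smul]
    apply Submodule.smul_mem
    apply Submodule.subset_span
    exact ⟨(⟨i % l, Nat.mod_lt _ hl⟩, ⟨j % l, Nat.mod_lt _ hl⟩), rfl⟩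

theorem finrank_adjoin [Nontrivial A] (hζ : IsPrimitiveRoot ζ l) (hl : 0 < l) (ha : a ≠ 0)
    (hb : b ≠ 0) (hu : u ^ l = algebraMap K A a) (hv : v ^ l = algebraMap K A b)
    (huv : u * v = ζ • (v * u)) :
    FiniteDimensional K (Algebra.adjoin K {u, v}) ∧
      finrank K (Algebra.adjoin K {u, v}) = l ^ 2 := by
  have h1 := finrank_span_eq_card (mono_li hζ hl ha hb hu hv huv)
  rw [mono_span hζ hl hu hv huv] at h1
  have h2 : finrank K (Algebra.adjoin K {u, v}) = l ^ 2 := by
    refine Eq.trans h1 ?_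
    rw [Fintype.card_prod, Fintype.card_fin, sq]
  exact ⟨FiniteDimensional.of_finrank_pos (by rw [h2]; positivity), h2⟩

/-- A symbol algebra has dimension `l ^ 2`. -/
theorem IsSymb.finrank (hζ : IsPrimitiveRoot ζ l) (hl : 0 < l) (ha : a ≠ 0) (hb : b ≠ 0)
    (hA : IsSymb K l ζ a b A) : FiniteDimensional K A ∧ Module.finrank K A = l ^ 2 := by
  obtain ⟨h0, u, v, hu, hv, huv, hgen⟩ := hA
  obtain ⟨h1, h2⟩ := finrank_adjoin hζ hl ha hb hu hv huv
  rw [hgen] at h1 h2
  have h3 : Module.finrank K A = l ^ 2 := by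
    rw [← h2]
    exact (Subalgebra.topEquiv (R := K) (A := A)).toLinearEquiv.finrank_eq.symm
  exact ⟨FiniteDimensional.of_finrank_pos (by rw [h3]; positivity), h3⟩

/-- In an algebra of dimension `l ^ 2`, any two elements with the relations are generators. -/
theorem IsSymb.of_finrank (hζ : IsPrimitiveRoot ζ l) (hl : 0 < l) (ha : a ≠ 0) (hb : b ≠ 0)
    (hA : FiniteDimensional K A) (hA2 : Module.finrank K A = l ^ 2)
    (hu : u ^ l = algebraMap K A a) (hv : v ^ l = algebraMap K A b)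
    (huv : u * v = ζ • (v * u)) : IsSymb K l ζ a b A := by
  have h0 : Nontrivial A := by
    apply Module.nontrivial_of_finrank_pos (R := K)
    rw [hA2]; positivity
  obtain ⟨h1, h2⟩ := finrank_adjoin hζ hl ha hb hu hv huv
  refine ⟨h0, u, v, hu, hv, huv, ?_⟩
  rw [← Algebra.toSubmodule_eq_top]
  apply Submodule.eq_top_of_finrank_eq
  rw [hA2]
  exact h2

end Pool.Agent.LibBrS
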