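import Pool.Agent.LibBrS.BrEq
import Pool.Agent.LibBrS.Mono

/-!
[BrS N1] Base change K/E. tensor: K ⊗ (A ⊗ B) = (K ⊗ A) ⊗_K (K ⊗ B) as K-algebras
(`TensorProduct.AlgebraTensorModule.distribBaseChange` is multiplicative, or `Algebra.TensorProduct.lift`).
matrix: K ⊗ M_n(A) = M_n(K ⊗ A). IsSymb: generators 1 ⊗ u, 1 ⊗ v.
-/

set_option autoImplicit false

open scoped TensorProduct
open Module Pool.Agent.LibK2Tower

namespace Pool.Agent.LibBrS

variable {E K A B : Type} [Field E] [Field K] [Algebra E K] [Ring A] [Algebra E A] [Ring B]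
  [Algebra E B]

theorem baseChange_tensor (E K A B : Type) [Field E] [Field K] [Algebra E K] [Ring A]
    [Algebra E A] [Ring B] [Algebra E B] :
    Nonempty (K ⊗[E] (A ⊗[E] B) ≃ₐ[K] (K ⊗[E] A) ⊗[K] (K ⊗[E] B)) := by
  refine ⟨AlgEquiv.ofLinearEquiv (TensorProduct.AlgebraTensorModule.distribBaseChange E K A B)
    ?_ ?_⟩
  · simp [Algebra.TensorProduct.one_def]
  · refine (LinearMap.map_mul_iff (TensorProduct.AlgebraTensorModule.distribBaseChange E K A B).toLinearMap).mpr ?_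
    ext a b c d
    simp

theorem baseChange_matrix (E K A : Type) [Field E] [Field K] [Algebra E K] [Ring A]
    [Algebra E A] (n : ℕ) :
    Nonempty (K ⊗[E] (Matrix (Fin n) (Fin n) A) ≃ₐ[K] Matrix (Fin n) (Fin n) (K ⊗[E] A)) := by
  have e1 := Matrix.kroneckerTMulAlgEquiv Unit (Fin n) E K K A
  have e0 : Matrix Unit Unit K ≃ₐ[K] K := Matrix.uniqueAlgEquiv
  have e2 : K ⊗[E] (Matrix (Fin n) (Fin n) A) ≃ₐ[K]
      (Matrix Unit Unit K) ⊗[E] (Matrix (Fin n) (Fin n) A) :=
    Algebra.TensorProduct.congr e0.symm AlgEquiv.refl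
  have e3 : Matrix (Unit × Fin n) (Unit × Fin n) (K ⊗[E] A) ≃ₐ[K]
      Matrix (Fin n) (Fin n) (K ⊗[E] A) :=
    Matrix.reindexAlgEquiv K _ (Equiv.uniqueProd (Fin n) Unit)
  exact ⟨(e2.trans e1).trans e3⟩

theorem BrEq.baseChange (K : Type) [Field K] [Algebra E K] (h : BrEq E A B) :
    BrEq K (K ⊗[E] A) (K ⊗[E] B) := by
  obtain ⟨n, m, hn, hm, ⟨e⟩⟩ := h
  obtain ⟨f⟩ := baseChange_matrix E K A n
  obtain ⟨g⟩ := baseChange_matrix E K B m
  have e' : K ⊗[E] (Matrix (Fin n) (Fin n) A) ≃ₐ[K] K ⊗[E] (Matrix (Fin m) (Fin m) B) :=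
    Algebra.TensorProduct.congr AlgEquiv.refl e
  exact ⟨n, m, hn, hm, ⟨(f.symm.trans e').trans g⟩⟩

theorem IsSymb.baseChange (K : Type) [Field K] [Algebra E K] {l : ℕ} {ζ a b : E}
    (hA : IsSymb E l ζ a b A) :
    IsSymb K l (algebraMap E K ζ) (algebraMap E K a) (algebraMap E K b) (K ⊗[E] A) := by
  obtain ⟨hnt, u, v, hu, hv, huv, hgen⟩ := hA
  let ι : A →ₐ[E] K ⊗[E] A := Algebra.TensorProduct.includeRight
  have hι : ∀ x : A, ι x = (1 : K) ⊗ₜ[E] x := fun x => rfl
  have hmap : ∀ c : E, ι (algebraMap E A c) = algebraMap K (K ⊗[E] A) (algebraMap E K c) := by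
    intro c
    rw [AlgHom.commutes, IsScalarTower.algebraMap_apply E K (K ⊗[E] A)]
  refine ⟨?_, ι u, ι v, ?_, ?_, ?_, ?_⟩
  · have := hnt
    exact (Algebra.TensorProduct.includeRight_injective (R := E) (A := K) (B := A)
      (algebraMap E K).injective).nontrivial
  · rw [← map_pow, hu, hmap]
  · rw [← map_pow, hv, hmap]
  · rw [← map_mul, huv, map_smul, ← map_mul, algebraMap_smul]
  · rw [eq_top_iff]
    intro x _
    induction x using TensorProduct.induction_on with
    | zero => exact Subalgebra.zero_mem _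
    | add x y hx hy => exact Subalgebra.add_mem _ (hx trivial) (hy trivial)
    | tmul k y =>
      have h1 : k ⊗ₜ[E] y = k • ι y := by
        rw [hι, TensorProduct.smul_tmul', smul_eq_mul, mul_one]
      rw [h1]
      apply Subalgebra.smul_mem
      have hy : y ∈ Algebra.adjoin E {u, v} := by rw [hgen]; trivial
      have h2 : Algebra.adjoin E {u, v} ≤
          (((Algebra.adjoin K {ι u, ι v}).restrictScalars E).comap ι) := by
        rw [Algebra.adjoin_le_iff]
        rintro z (rfl | rfl)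
        · exact Algebra.subset_adjoin (by simp)
        · exact Algebra.subset_adjoin (by simp)
      exact h2 hy

end Pool.Agent.LibBrS
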