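import Pool.Agent.LibBrS.Uniq

/-!
[BrS R9] (a, b) ⊗ (a', b) = (a a', b) ⊗ (a', 1). In A ⊗ A' with generators u, v; u', v' put U = u u', V = v,
U' = u', V' = v⁻¹ v' (v⁻¹ = b⁻¹ v^(l-1)): U V = ζ V U, U' V' = ζ V' U', {U, V} commutes with {U', V'},
U^l = a a', V^l = b, U'^l = a', V'^l = 1. By `exists_hom` and `Algebra.TensorProduct.lift` a map B ⊗ C → A ⊗ A';
it is surjective (u' = U', v = V, u = U U'⁻¹, v' = V V'), and both sides have dimension l^4.
-/

set_option autoImplicit false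

open scoped TensorProduct
open Module Pool.Agent.LibK2Tower

namespace Pool.Agent.LibBrS

private lemma r9_commute {K B C D : Type} [Field K] [Ring B] [Algebra K B] [Ring C] [Algebra K C]
    [Ring D] [Algebra K D] (f : B →ₐ[K] D) (g : C →ₐ[K] D) {U V : B} {W X : C}
    (hB : Algebra.adjoin K {U, V} = ⊤) (hC : Algebra.adjoin K {W, X} = ⊤)
    (h1 : Commute (f U) (g W)) (h2 : Commute (f U) (g X)) (h3 : Commute (f V) (g W))
    (h4 : Commute (f V) (g X)) (x : B) (y : C) : Commute (f x) (g y) := by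
  have hx : x ∈ Algebra.adjoin K {U, V} := by rw [hB]; trivial
  have hy : y ∈ Algebra.adjoin K {W, X} := by rw [hC]; trivial
  have hx' : f x ∈ Algebra.adjoin K (f '' {U, V}) := by
    rw [← AlgHom.map_adjoin]; exact ⟨x, hx, rfl⟩
  have hy' : g y ∈ Algebra.adjoin K (g '' {W, X}) := by
    rw [← AlgHom.map_adjoin]; exact ⟨y, hy, rfl⟩
  refine Algebra.commute_of_mem_adjoin_of_forall_mem_commute hy' ?_
  rintro _ ⟨z, hz, rfl⟩
  refine (Algebra.commute_of_mem_adjoin_of_forall_mem_commute hx' ?_).symm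
  rintro _ ⟨w, hw, rfl⟩
  rcases hz with rfl | hz
  · rcases hw with rfl | hw
    · exact h1.symm
    · rw [Set.mem_singleton_iff.1 hw]; exact h3.symm
  · rw [Set.mem_singleton_iff.1 hz]
    rcases hw with rfl | hw
    · exact h2.symm
    · rw [Set.mem_singleton_iff.1 hw]; exact h4.symm

private lemma r9_inv {K A : Type} [Field K] [Ring A] [Algebra K A] {l : ℕ} (hl : 0 < l) {a : K}
    (ha : a ≠ 0) {u : A} (hu : u ^ l = algebraMap K A a) :
    u * (a⁻¹ • u ^ (l - 1)) = 1 ∧ (a⁻¹ • u ^ (l - 1)) * u = 1 := by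
  have e : l - 1 + 1 = l := Nat.sub_add_cancel hl
  have h : a⁻¹ • algebraMap K A a = 1 := by
    rw [Algebra.algebraMap_eq_smul_one, smul_smul, inv_mul_cancel₀ ha, one_smul]
  constructor
  · rw [mul_smul_comm, ← pow_succ', e, hu, h]
  · rw [smul_mul_assoc, ← pow_succ, e, hu, h]

theorem symb_mul_left {K : Type} [Field K] {l : ℕ} {ζ a a' b : K} (hζ : IsPrimitiveRoot ζ l)
    (hl : 0 < l) (ha : a ≠ 0) (ha' : a' ≠ 0) (hb : b ≠ 0) {A A' B C : Type} [Ring A]
    [Algebra K A] [Ring A'] [Algebra K A'] [Ring B] [Algebra K B] [Ring C] [Algebra K C]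
    (hA : IsSymb K l ζ a b A) (hA' : IsSymb K l ζ a' b A')
    (hB : IsSymb K l ζ (a * a') b B) (hC : IsSymb K l ζ a' 1 C) :
    Nonempty (A ⊗[K] A' ≃ₐ[K] B ⊗[K] C) := by
  obtain ⟨fA, dA⟩ := IsSymb.finrank hζ hl ha hb hA
  obtain ⟨fA', dA'⟩ := IsSymb.finrank hζ hl ha' hb hA'
  obtain ⟨fB, dB⟩ := IsSymb.finrank hζ hl (mul_ne_zero ha ha') hb hB
  obtain ⟨fC, dC⟩ := IsSymb.finrank hζ hl ha' one_ne_zero hC
  obtain ⟨nA, u, v, hu, hv, huv, gA⟩ := hA
  obtain ⟨nA', u', v', hu', hv', huv', gA'⟩ := hA'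
  obtain ⟨nB, U, V, hU, hV, hUV, gB⟩ := hB
  obtain ⟨nC, W, X, hW, hX, hWX, gC⟩ := hC
  have hζ0 : ζ ≠ 0 := hζ.ne_zero hl.ne'
  obtain ⟨v1, v2⟩ := r9_inv hl hb hv
  obtain ⟨u1, u2⟩ := r9_inv hl ha' hu'
  set vi : A := b⁻¹ • v ^ (l - 1) with hvi
  set ui : A' := a'⁻¹ • u' ^ (l - 1) with hui
  clear_value vi
  -- the inverse of `v`
  have hvil : vi ^ l = algebraMap K A b⁻¹ := by
    have hc : Commute v vi := v1.trans v2.symm
    have h1 : v ^ l * vi ^ l = 1 := by rw [← hc.mul_pow, v1, one_pow]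
    rw [hv] at h1
    have h2 : algebraMap K A b⁻¹ * algebraMap K A b = 1 := by
      rw [← map_mul, inv_mul_cancel₀ hb, map_one]
    calc vi ^ l = (algebraMap K A b⁻¹ * algebraMap K A b) * vi ^ l := by rw [h2, one_mul]
      _ = algebraMap K A b⁻¹ * (algebraMap K A b * vi ^ l) := mul_assoc _ _ _
      _ = algebraMap K A b⁻¹ := by rw [h1, mul_one]
  have huvi : u * vi = ζ⁻¹ • (vi * u) := by
    have h1 : vi * (u * v) * vi = vi * (ζ • (v * u)) * vi := by rw [huv]
    have h2 : vi * (u * v) * vi = vi * u := by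
      rw [mul_assoc, mul_assoc, v1, mul_one]
    have h3 : vi * (ζ • (v * u)) * vi = ζ • (u * vi) := by
      rw [mul_smul_comm, ← mul_assoc, v2, one_mul, smul_mul_assoc]
    rw [h2, h3] at h1
    rw [h1, smul_smul, inv_mul_cancel₀ hζ0, one_smul]
  obtain ⟨f, fU, fV⟩ := exists_hom (B := A ⊗[K] A') hζ hl (mul_ne_zero ha ha') hb hU hV hUV gB
    (u' := u ⊗ₜ[K] u') (v' := v ⊗ₜ[K] (1 : A'))
    (by
      rw [Algebra.TensorProduct.tmul_pow, hu, hu', Algebra.algebraMap_eq_smul_one,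
        Algebra.algebraMap_eq_smul_one, Algebra.algebraMap_eq_smul_one, ← TensorProduct.smul_tmul',
        TensorProduct.tmul_smul, smul_smul, Algebra.TensorProduct.one_def])
    (by
      rw [Algebra.TensorProduct.tmul_pow, hv, one_pow, Algebra.algebraMap_eq_smul_one,
        Algebra.algebraMap_eq_smul_one, ← TensorProduct.smul_tmul',
        Algebra.TensorProduct.one_def])
    (by
      rw [Algebra.TensorProduct.tmul_mul_tmul, Algebra.TensorProduct.tmul_mul_tmul, huv, mul_one,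
        one_mul, ← TensorProduct.smul_tmul'])
  obtain ⟨g, gW, gX⟩ := exists_hom (B := A ⊗[K] A') hζ hl ha' one_ne_zero hW hX hWX gC
    (u' := (1 : A) ⊗ₜ[K] u') (v' := vi ⊗ₜ[K] v')
    (by
      rw [Algebra.TensorProduct.tmul_pow, hu', one_pow, Algebra.algebraMap_eq_smul_one,
        Algebra.algebraMap_eq_smul_one, TensorProduct.tmul_smul,
        Algebra.TensorProduct.one_def])
    (by
      rw [Algebra.TensorProduct.tmul_pow, hvil, hv', Algebra.algebraMap_eq_smul_one,
        Algebra.algebraMap_eq_smul_one, ← TensorProduct.smul_tmul',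
        TensorProduct.tmul_smul, smul_smul, inv_mul_cancel₀ hb, one_smul, map_one,
        Algebra.TensorProduct.one_def])
    (by
      rw [Algebra.TensorProduct.tmul_mul_tmul, Algebra.TensorProduct.tmul_mul_tmul, huv', mul_one,
        one_mul, TensorProduct.tmul_smul])
  have hcomm : ∀ x y, Commute (f x) (g y) := by
    refine r9_commute f g gB gC ?_ ?_ ?_ ?_
    · rw [fU, gW]
      show _ * _ = _ * _
      rw [Algebra.TensorProduct.tmul_mul_tmul, Algebra.TensorProduct.tmul_mul_tmul, one_mul,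
        mul_one]
    · rw [fU, gX]
      show _ * _ = _ * _
      rw [Algebra.TensorProduct.tmul_mul_tmul, Algebra.TensorProduct.tmul_mul_tmul, huvi, huv',
        ← TensorProduct.smul_tmul', TensorProduct.tmul_smul, smul_smul, inv_mul_cancel₀ hζ0,
        one_smul]
    · rw [fV, gW]
      show _ * _ = _ * _
      rw [Algebra.TensorProduct.tmul_mul_tmul, Algebra.TensorProduct.tmul_mul_tmul, one_mul,
        mul_one, one_mul, mul_one]
    · rw [fV, gX]
      show _ * _ = _ * _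
      rw [Algebra.TensorProduct.tmul_mul_tmul, Algebra.TensorProduct.tmul_mul_tmul, v1, v2,
        one_mul, mul_one]
  set h : B ⊗[K] C →ₐ[K] A ⊗[K] A' := Algebra.TensorProduct.lift f g hcomm with hh
  have hf : ∀ x, f x ∈ h.range := fun x => ⟨x ⊗ₜ 1, by
    show h (x ⊗ₜ 1) = f x
    rw [hh, Algebra.TensorProduct.lift_tmul, map_one, mul_one]⟩
  have hg : ∀ x, g x ∈ h.range := fun x => ⟨1 ⊗ₜ x, by
    show h (1 ⊗ₜ x) = g x
    rw [hh, Algebra.TensorProduct.lift_tmul, map_one, one_mul]⟩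
  -- the generators of `A ⊗ A'` are in the range
  have m1 : (1 : A) ⊗ₜ[K] u' ∈ h.range := gW ▸ hg W
  have m2 : v ⊗ₜ[K] (1 : A') ∈ h.range := fV ▸ hf V
  have m3 : u ⊗ₜ[K] (1 : A') ∈ h.range := by
    have e : u ⊗ₜ[K] (1 : A') = (u ⊗ₜ[K] u') * (a'⁻¹ • ((1 : A) ⊗ₜ[K] u') ^ (l - 1)) := by
      rw [Algebra.TensorProduct.tmul_pow, one_pow, ← TensorProduct.tmul_smul, ← hui,
        Algebra.TensorProduct.tmul_mul_tmul, mul_one, u1]
    rw [e]
    exact h.range.mul_mem (fU ▸ hf U) (h.range.smul_mem (h.range.pow_mem m1 _) _)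
  have m4 : (1 : A) ⊗ₜ[K] v' ∈ h.range := by
    have e : (1 : A) ⊗ₜ[K] v' = (v ⊗ₜ[K] (1 : A')) * (vi ⊗ₜ[K] v') := by
      rw [Algebra.TensorProduct.tmul_mul_tmul, one_mul, v1]
    rw [e]
    exact h.range.mul_mem m2 (gX ▸ hg X)
  have r1 : ∀ x : A, x ⊗ₜ[K] (1 : A') ∈ h.range := by
    intro x
    have hx : x ∈ Algebra.adjoin K {u, v} := by rw [gA]; trivial
    have : Algebra.adjoin K {u, v} ≤
        h.range.comap (Algebra.TensorProduct.includeLeft : A →ₐ[K] A ⊗[K] A') := by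
      rw [Algebra.adjoin_le_iff]
      rintro z (rfl | hz)
      · exact m3
      · rw [Set.mem_singleton_iff.1 hz]; exact m2
    exact this hx
  have r2 : ∀ x : A', (1 : A) ⊗ₜ[K] x ∈ h.range := by
    intro x
    have hx : x ∈ Algebra.adjoin K {u', v'} := by rw [gA']; trivial
    have : Algebra.adjoin K {u', v'} ≤
        h.range.comap (Algebra.TensorProduct.includeRight : A' →ₐ[K] A ⊗[K] A') := by
      rw [Algebra.adjoin_le_iff]
      rintro z (rfl | hz)
      · exact m1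
      · rw [Set.mem_singleton_iff.1 hz]; exact m4
    exact this hx
  have hsurj : Function.Surjective h := by
    intro z
    show z ∈ h.range
    induction z using TensorProduct.induction_on with
    | zero => exact h.range.zero_mem
    | tmul x y =>
      have e : x ⊗ₜ[K] y = (x ⊗ₜ[K] (1 : A')) * ((1 : A) ⊗ₜ[K] y) := by
        rw [Algebra.TensorProduct.tmul_mul_tmul, one_mul, mul_one]
      rw [e]
      exact h.range.mul_mem (r1 x) (r2 y)
    | add x y hx hy => exact h.range.add_mem hx hy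
  have hd : finrank K (B ⊗[K] C) = finrank K (A ⊗[K] A') := by
    rw [Module.finrank_tensorProduct, Module.finrank_tensorProduct, dA, dA', dB, dC]
  have hinj : Function.Injective h := by
    have := (LinearMap.injective_iff_surjective_of_finrank_eq_finrank hd
      (f := h.toLinearMap)).2 hsurj
    exact this
  exact ⟨(AlgEquiv.ofBijective h ⟨hinj, hsurj⟩).symm⟩

end Pool.Agent.LibBrS
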