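import Pool.Agent.LibBrS.Defs

/-!
[BrS R1] Brauer equivalence is an equivalence relation compatible with tensor products.
Tools: `Matrix.compAlgEquiv`, `Matrix.reindexAlgEquiv` (finProdFinEquiv), `AlgEquiv.mapMatrix`,
`kroneckerTMulAlgEquiv`; trans: M_n A = M_m B, M_r B = M_s C give M_(nr) A = M_(mr) B = M_(ms) C.
-/

set_option autoImplicit false

open scoped TensorProduct
open Module Pool.Agent.LibK2Tower

namespace Pool.Agent.LibBrS

variable {K A B C A' B' : Type} [Field K] [Ring A] [Algebra K A] [Ring B] [Algebra K B]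
  [Ring C] [Algebra K C] [Ring A'] [Algebra K A'] [Ring B'] [Algebra K B']

/-- Matrices of matrices. -/
noncomputable def r1_comp (K A : Type) [Field K] [Ring A] [Algebra K A] (n m : ℕ) :
    Matrix (Fin n) (Fin n) (Matrix (Fin m) (Fin m) A) ≃ₐ[K]
      Matrix (Fin (n * m)) (Fin (n * m)) A :=
  (Matrix.compAlgEquiv (Fin n) (Fin m) A K).trans
    (Matrix.reindexAlgEquiv K A finProdFinEquiv)

/-- The tensor product of matrix algebras. -/
noncomputable def r1_tens (K A B : Type) [Field K] [Ring A] [Algebra K A] [Ring B] [Algebra K B]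
    (n m : ℕ) : Matrix (Fin n) (Fin n) A ⊗[K] Matrix (Fin m) (Fin m) B ≃ₐ[K]
      Matrix (Fin (n * m)) (Fin (n * m)) (A ⊗[K] B) :=
  (Matrix.kroneckerTMulAlgEquiv (Fin n) (Fin m) K K A B).trans
    (Matrix.reindexAlgEquiv K (A ⊗[K] B) finProdFinEquiv)

theorem BrEq.of_equiv (e : A ≃ₐ[K] B) : BrEq K A B :=
  ⟨1, 1, one_ne_zero, one_ne_zero, ⟨e.mapMatrix⟩⟩

theorem BrEq.refl (A : Type) [Ring A] [Algebra K A] : BrEq K A A :=
  BrEq.of_equiv AlgEquiv.refl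

theorem BrEq.symm (h : BrEq K A B) : BrEq K B A := by
  obtain ⟨n, m, hn, hm, ⟨e⟩⟩ := h
  exact ⟨m, n, hm, hn, ⟨e.symm⟩⟩

theorem BrEq.trans (h : BrEq K A B) (h' : BrEq K B C) : BrEq K A C := by
  obtain ⟨n, m, hn, hm, ⟨e⟩⟩ := h
  obtain ⟨r, s, hr, hs, ⟨f⟩⟩ := h'
  refine ⟨r * n, m * s, mul_ne_zero hr hn, mul_ne_zero hm hs, ⟨?_⟩⟩
  exact (r1_comp K A r n).symm.trans
    (e.mapMatrix.trans ((r1_comp K B r m).trans
      ((Matrix.reindexAlgEquiv K B (finCongr (mul_comm r m))).trans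
        ((r1_comp K B m r).symm.trans (f.mapMatrix.trans (r1_comp K C m s))))))

theorem brEq_matrix (n : ℕ) (hn : n ≠ 0) : BrEq K (Matrix (Fin n) (Fin n) A) A :=
  ⟨1, n, one_ne_zero, hn,
    ⟨(r1_comp K A 1 n).trans (Matrix.reindexAlgEquiv K A (finCongr (one_mul n)))⟩⟩

theorem BrEq.tensor (h : BrEq K A A') (h' : BrEq K B B') : BrEq K (A ⊗[K] B) (A' ⊗[K] B') := by
  obtain ⟨n, m, hn, hm, ⟨e⟩⟩ := h
  obtain ⟨r, s, hr, hs, ⟨f⟩⟩ := h'
  exact ⟨n * r, m * s, mul_ne_zero hn hr, mul_ne_zero hm hs,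
    ⟨(r1_tens K A B n r).symm.trans
      ((Algebra.TensorProduct.congr e f).trans (r1_tens K A' B' m s))⟩⟩

end Pool.Agent.LibBrS
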