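import Pool.Agent.LibBrS.Defs

/-!
[BrS N3a] A split by a cyclic Galois extension L/F of degree n with F^* = (F^*)^n: there is a σ-semilinear
φ on L^r with φ^n = 1 commuting with A. ρ(a) = e(1 ⊗ a); σ(ρ(a)) = C⁻¹ ρ(a) C for some C in GL_r(L) (automorphisms of
End_L(V) are inner: Mathlib/LinearAlgebra/GeneralLinearGroup/AlgEquiv.lean, applied to
e⁻¹ followed by the L-linear extension of a ↦ σ(ρ(a)) (bijective: it is injective (simple) or its inverse is explicit)).
ψ v = C *ᵥ (σ ∘ v) commutes with ρ(A); ψ^n is L-linear and commutes with ρ(A), which spans M_r(L): ψ^n = c scalar,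
c ≠ 0; ψ ψ^n = ψ^n ψ gives σ(c) = c, so c ∈ F, c = d^n, φ = d⁻¹ ψ.
-/

set_option autoImplicit false

open scoped TensorProduct
open Module Pool.Agent.LibK2Tower

namespace Pool.Agent.LibBrS

/-- a linear map commuting with all matrices is a scalar -/
theorem n3a_scalar {L : Type} [Field L] {r : ℕ} (P : (Fin r → L) →ₗ[L] (Fin r → L))
    (hP : ∀ (X : Matrix (Fin r) (Fin r) L) v, P (X.mulVec v) = X.mulVec (P v)) :
    ∃ c : L, ∀ v, P v = c • v := by
  have h1 : LinearMap.toMatrix' P ∈ Set.range (Matrix.scalar (Fin r)) := by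
    rw [Matrix.mem_range_scalar_iff_commute_single']
    intro i j
    change _ * _ = _ * _
    apply Matrix.toLin'.injective
    ext v : 1
    apply LinearMap.ext
    intro x
    simp only [Matrix.toLin'_mul, LinearMap.comp_apply, Matrix.toLin'_toMatrix',
      Matrix.toLin'_apply]
    exact (hP _ _).symm
  obtain ⟨c, hc⟩ := h1
  refine ⟨c, fun v => ?_⟩
  have h2 : P = Matrix.toLin' (Matrix.scalar (Fin r) c) := by
    rw [hc, Matrix.toLin'_toMatrix']
  rw [h2, Matrix.toLin'_apply]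
  simp [Matrix.scalar_apply]

theorem exists_semilinear {F L : Type} [Field F] [Field L] [Algebra F L] [FiniteDimensional F L]
    [IsGalois F L] (σ : L ≃ₐ[F] L) (hσ : ∀ τ : L ≃ₐ[F] L, τ ∈ Subgroup.zpowers σ)
    (hF : ∀ c : F, ∃ d : F, d ^ finrank F L = c) {A : Type} [Ring A] [Algebra F A]
    {r : ℕ} (hr : r ≠ 0) (e : L ⊗[F] A ≃ₐ[L] Matrix (Fin r) (Fin r) L) :
    ∃ φ : (Fin r → L) →+ (Fin r → L), (∀ (c : L) v, φ (c • v) = σ c • φ v) ∧
      (∀ (a : A) v, φ ((e (1 ⊗ₜ a)).mulVec v) = (e (1 ⊗ₜ a)).mulVec (φ v)) ∧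
      ∀ v, φ^[finrank F L] v = v := by
  classical
  set n := finrank F L with hn
  let s : L ⊗[F] A ≃ₐ[F] L ⊗[F] A := Algebra.TensorProduct.congr σ AlgEquiv.refl
  let M : Matrix (Fin r) (Fin r) L ≃ₐ[F] Matrix (Fin r) (Fin r) L := σ.mapMatrix
  let e' : L ⊗[F] A ≃ₐ[F] Matrix (Fin r) (Fin r) L := e.restrictScalars F
  let E0 : Matrix (Fin r) (Fin r) L ≃ₐ[F] Matrix (Fin r) (Fin r) L :=
    e'.symm.trans (s.symm.trans (e'.trans M))
  have hs : ∀ (c : L) (x : L ⊗[F] A), s.symm (c • x) = σ.symm c • s.symm x := by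
    intro c x
    rw [AlgEquiv.symm_apply_eq]
    induction x using TensorProduct.induction_on with
    | zero => simp
    | tmul a b =>
      obtain ⟨a', rfl⟩ := σ.surjective a
      have h1 : s.symm (σ a' ⊗ₜ[F] b) = a' ⊗ₜ[F] b := by
        rw [AlgEquiv.symm_apply_eq]
        simp [s]
      rw [h1]
      simp [s, TensorProduct.smul_tmul']
    | add x y hx hy => rw [smul_add, hx, hy, map_add, smul_add, map_add]
  have hE0 : ∀ (c : L) X, E0 (c • X) = c • E0 X := by
    intro c X
    have h1 : e'.symm (c • X) = c • e'.symm X := map_smul e.symm c X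
    have h2 : ∀ (c : L) Y, e' (c • Y) = c • e' Y := fun c Y => map_smul e c Y
    have h3 : ∀ (c : L) Y, M (c • Y) = σ c • M Y := by
      intro c Y
      ext i j
      simp [M]
    change M (e' (s.symm (e'.symm (c • X)))) = c • M (e' (s.symm (e'.symm X)))
    rw [h1, hs, h2, h3, AlgEquiv.apply_symm_apply]
  let E : Matrix (Fin r) (Fin r) L ≃ₐ[L] Matrix (Fin r) (Fin r) L :=
    AlgEquiv.ofRingEquiv (f := E0.toRingEquiv) (fun c => by
      rw [Algebra.algebraMap_eq_smul_one]
      exact (hE0 c 1).trans (by rw [map_one]))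
  let f : End L (Fin r → L) ≃ₐ[L] End L (Fin r → L) :=
    Matrix.toLinAlgEquiv'.symm.trans (E.trans Matrix.toLinAlgEquiv')
  obtain ⟨T, hT⟩ := f.eq_linearEquivConjAlgEquiv
  have hTE : ∀ (X : Matrix (Fin r) (Fin r) L) (v : Fin r → L),
      (E X).mulVec (T v) = T (X.mulVec v) := by
    intro X v
    have h1 := congrArg (fun g => (g (Matrix.toLinAlgEquiv' X)) (T v)) hT
    simpa [f, LinearEquiv.conjAlgEquiv_apply] using h1
  have hEρ : ∀ a : A, E (e (1 ⊗ₜ a)) = M (e (1 ⊗ₜ a)) := by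
    intro a
    change M (e' (s.symm (e'.symm (e (1 ⊗ₜ a))))) = _
    have h1 : e'.symm (e (1 ⊗ₜ a)) = 1 ⊗ₜ a := e.symm_apply_apply _
    have h2 : s.symm ((1 : L) ⊗ₜ[F] a) = 1 ⊗ₜ a := by
      rw [AlgEquiv.symm_apply_eq]
      simp [s]
    rw [h1, h2]
    rfl
  -- the semilinear map
  let S : (Fin r → L) →+ (Fin r → L) :=
    { toFun := fun v => fun i => σ (v i)
      map_zero' := by ext i; simp
      map_add' := by intro v w; ext i; simp }
  let ψ : (Fin r → L) →+ (Fin r → L) := (T.symm : (Fin r → L) →+ (Fin r → L)).comp S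
  have hψ1 : ∀ (c : L) v, ψ (c • v) = σ c • ψ v := by
    intro c v
    change T.symm (S (c • v)) = σ c • T.symm (S v)
    have : S (c • v) = σ c • S v := by ext i; simp [S]
    rw [this, map_smul]
  have hψ2 : ∀ (a : A) v, ψ ((e (1 ⊗ₜ a)).mulVec v) = (e (1 ⊗ₜ a)).mulVec (ψ v) := by
    intro a v
    change T.symm (S _) = (e (1 ⊗ₜ a)).mulVec (T.symm (S v))
    rw [LinearEquiv.symm_apply_eq, ← hTE, LinearEquiv.apply_symm_apply, hEρ]
    ext i
    exact (σ : L →+* L).map_mulVec (e (1 ⊗ₜ a)) v i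
  have hψi : Function.Injective ψ := by
    intro v w h
    have h1 : S v = S w := T.symm.injective h
    ext i
    exact σ.injective (congrFun h1 i)
  have hk1 : ∀ (k : ℕ) (c : L) v, ψ^[k] (c • v) = (σ ^ k) c • ψ^[k] v := by
    intro k
    induction k with
    | zero => intro c v; simp
    | succ k ih =>
      intro c v
      rw [Function.iterate_succ_apply', ih, hψ1, Function.iterate_succ_apply', pow_succ']
      rfl
  have hk2 : ∀ (k : ℕ) (a : A) v,
      ψ^[k] ((e (1 ⊗ₜ a)).mulVec v) = (e (1 ⊗ₜ a)).mulVec (ψ^[k] v) := by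
    intro k
    induction k with
    | zero => intro a v; rfl
    | succ k ih =>
      intro a v
      rw [Function.iterate_succ_apply', ih, hψ2, Function.iterate_succ_apply']
  have hka : ∀ (k : ℕ) v w, ψ^[k] (v + w) = ψ^[k] v + ψ^[k] w := by
    intro k
    induction k with
    | zero => intro v w; rfl
    | succ k ih =>
      intro v w
      simp only [Function.iterate_succ_apply', ih, map_add]
  have hσn : σ ^ n = 1 := by
    have : Nat.card (L ≃ₐ[F] L) = n := IsGalois.card_aut_eq_finrank F L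
    rw [← this]
    exact pow_card_eq_one'
  let P : (Fin r → L) →ₗ[L] (Fin r → L) :=
    { toFun := ψ^[n]
      map_add' := hka n
      map_smul' := by
        intro c v
        rw [hk1, hσn]
        rfl }
  have hPX : ∀ (X : Matrix (Fin r) (Fin r) L) v, P (X.mulVec v) = X.mulVec (P v) := by
    intro X v
    obtain ⟨x, rfl⟩ := e.surjective X
    induction x using TensorProduct.induction_on with
    | zero => simp
    | tmul c a =>
      have h1 : c ⊗ₜ[F] a = c • ((1 : L) ⊗ₜ[F] a) := by simp [TensorProduct.smul_tmul']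
      rw [h1, map_smul, Matrix.smul_mulVec, map_smul, Matrix.smul_mulVec]
      congr 1
      exact hk2 n a v
    | add x y hx hy =>
      rw [map_add, Matrix.add_mulVec, map_add, hx, hy, Matrix.add_mulVec]
  obtain ⟨c, hc⟩ := n3a_scalar P hPX
  have hr' : 0 < r := Nat.pos_of_ne_zero hr
  let v₀ : Fin r → L := fun _ => 1
  have hv₀ : v₀ ≠ 0 := fun h => one_ne_zero (congrFun h ⟨0, hr'⟩)
  have hc0 : c ≠ 0 := by
    rintro rfl
    have h1 : ψ^[n] v₀ = 0 := by
      have := hc v₀
      rw [zero_smul] at this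
      exact this
    have h2 : ψ^[n] (0 : Fin r → L) = 0 := P.map_zero
    exact hv₀ (hψi.iterate n (h1.trans h2.symm))
  have hcσ : σ c = c := by
    have h1 : ψ (ψ^[n] v₀) = ψ^[n] (ψ v₀) :=
      (Function.iterate_succ_apply' ψ n v₀).symm.trans (Function.iterate_succ_apply ψ n v₀)
    have h2 : ψ^[n] v₀ = c • v₀ := hc v₀
    have h3 : ψ^[n] (ψ v₀) = c • ψ v₀ := hc (ψ v₀)
    rw [h2, h3, hψ1] at h1
    have h4 : (σ c - c) • ψ v₀ = 0 := by rw [sub_smul, h1, sub_self]
    rcases smul_eq_zero.1 h4 with h5 | h5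
    · exact sub_eq_zero.1 h5
    · exact absurd (hψi (h5.trans (map_zero ψ).symm)) hv₀
  have hcF : ∃ c₀ : F, algebraMap F L c₀ = c := by
    have h1 : c ∈ (⊥ : IntermediateField F L) := by
      rw [IsGalois.mem_bot_iff_fixed]
      intro τ
      obtain ⟨k, rfl⟩ := hσ τ
      have h2 : ∀ k : ℕ, (σ ^ k) c = c := by
        intro k
        induction k with
        | zero => rfl
        | succ k ih => rw [pow_succ', AlgEquiv.mul_apply, ih, hcσ]
      rcases Int.eq_nat_or_neg k with ⟨m, rfl | rfl⟩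
      · simpa using h2 m
      · have h3 := h2 m
        simp only [zpow_neg, zpow_natCast]
        nth_rewrite 1 [← h3]
        rw [← AlgEquiv.mul_apply, inv_mul_cancel]
        rfl
    obtain ⟨c₀, h⟩ := IntermediateField.mem_bot.1 h1
    exact ⟨c₀, h⟩
  obtain ⟨c₀, rfl⟩ := hcF
  obtain ⟨d, hd⟩ := hF c₀
  have hn0 : n ≠ 0 := (finrank_pos (R := F) (M := L)).ne'
  have hd0 : d ≠ 0 := by
    rintro rfl
    rw [zero_pow hn0] at hd
    apply hc0
    rw [← hd, map_zero]
  let φ : (Fin r → L) →+ (Fin r → L) :=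
    { toFun := fun v => (algebraMap F L d)⁻¹ • ψ v
      map_zero' := by simp
      map_add' := by intro v w; simp }
  refine ⟨φ, ?_, ?_, ?_⟩
  · intro c v
    change (algebraMap F L d)⁻¹ • ψ (c • v) = σ c • ((algebraMap F L d)⁻¹ • ψ v)
    rw [hψ1, smul_comm]
  · intro a v
    change (algebraMap F L d)⁻¹ • ψ _ = (e (1 ⊗ₜ a)).mulVec ((algebraMap F L d)⁻¹ • ψ v)
    rw [hψ2, Matrix.mulVec_smul]
  · intro v
    have h1 : ∀ k : ℕ, φ^[k] v = ((algebraMap F L d)⁻¹) ^ k • ψ^[k] v := by
      intro k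
      induction k with
      | zero => simp
      | succ k ih =>
        rw [Function.iterate_succ_apply', ih]
        change (algebraMap F L d)⁻¹ • ψ _ = _
        rw [hψ1, Function.iterate_succ_apply', smul_smul, map_pow, map_inv₀, AlgEquiv.commutes,
          pow_succ']
    rw [h1]
    have h2 : ψ^[n] v = algebraMap F L c₀ • v := hc v
    rw [h2, smul_smul, ← hd, map_pow, inv_pow, inv_mul_cancel₀, one_smul]
    exact pow_ne_zero _ ((map_ne_zero _).2 hd0)

end Pool.Agent.LibBrS
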