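import Pool.Agent.LibBrS.Defs

/-!
[BrS R14] If M_n(B) = M_m(E), then B is a matrix algebra over E. Let V = E^m, φ : M_n(B) ≃ End_E(V), W = range φ(e_11)
(for i0 = ⟨0, _⟩). V ≃ (Fin n → W) by x ↦ (φ(e_1i) x)_i, inverse (w_i) ↦ ∑ φ(e_i1) w_i. So m = n s, s = dim W. B acts
on W by φ(diagonal b): B → End_E(W) is injective (φ(b e_11) = 0 gives b = 0), and dim B = (m/n)^2 = s^2, so it is an
isomorphism. (`LinearMap.toMatrixAlgEquiv'`, `Matrix.single`)
-/

set_option autoImplicit false

open scoped TensorProduct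
open Module Pool.Agent.LibK2Tower

namespace Pool.Agent.LibBrS

theorem corner {E B : Type} [Field E] [Ring B] [Algebra E B] {n m : ℕ} (hn : n ≠ 0)
    (e : Matrix (Fin n) (Fin n) B ≃ₐ[E] Matrix (Fin m) (Fin m) E) :
    ∃ s : ℕ, Nonempty (B ≃ₐ[E] Matrix (Fin s) (Fin s) E) := by
  classical
  have hnz : NeZero n := ⟨hn⟩
  let φ : Matrix (Fin n) (Fin n) B ≃ₐ[E] Module.End E (Fin m → E) := e.trans Matrix.toLinAlgEquiv'
  let σ : B → Matrix (Fin n) (Fin n) B := fun b => Matrix.single (0 : Fin n) (0 : Fin n) b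
  have hσmul : ∀ a b : B, σ a * σ b = σ (a * b) := fun a b => Matrix.single_mul_single_same _ _ _ _ _
  have hφmul : ∀ (a b : B) (v : Fin m → E), φ (σ a) (φ (σ b) v) = φ (σ (a * b)) v := by
    intro a b v
    rw [← hσmul, map_mul]
    rfl
  let W : Submodule E (Fin m → E) := LinearMap.range (φ (σ 1))
  have hP : ∀ w ∈ W, φ (σ 1) w = w := by
    rintro w ⟨v, rfl⟩
    rw [hφmul, one_mul]
  have hmem : ∀ (b : B) (w : Fin m → E), φ (σ b) w ∈ W := by
    intro b w
    refine ⟨φ (σ b) w, ?_⟩
    rw [hφmul, one_mul]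
  have hσadd : ∀ a b : B, σ (a + b) = σ a + σ b := fun a b => Matrix.single_add _ _ _ _
  have hσsmul : ∀ (r : E) (b : B), σ (r • b) = r • σ b := fun r b => (Matrix.smul_single r _ _ b).symm
  let ρ : B →ₐ[E] Module.End E W :=
    { toFun := fun b => (φ (σ b)).restrict (fun w _ => hmem b w)
      map_one' := by
        ext w : 2
        exact hP w.1 w.2
      map_mul' := by
        intro a b
        ext w : 2
        exact (hφmul a b w.1).symm
      map_zero' := by
        ext w : 2
        have h0 : σ 0 = 0 := Matrix.single_zero _ _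
        change φ (σ 0) w.1 = 0
        rw [h0, map_zero]
        rfl
      map_add' := by
        intro a b
        ext w : 2
        change φ (σ (a + b)) w.1 = φ (σ a) w.1 + φ (σ b) w.1
        rw [hσadd, map_add]
        rfl
      commutes' := by
        intro r
        ext w : 2
        change φ (σ (algebraMap E B r)) w.1 = r • w.1
        rw [Algebra.algebraMap_eq_smul_one, hσsmul, map_smul]
        change r • φ (σ 1) w.1 = r • w.1
        rw [hP w.1 w.2] }
  have hρ : ∀ (b : B) (w : W), ((ρ b w : W) : Fin m → E) = φ (σ b) w.1 := fun b w => rfl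
  have hinj : Function.Injective ρ := by
    rw [injective_iff_map_eq_zero]
    intro b hb
    have h1 : φ (σ b) = 0 := by
      refine LinearMap.ext fun v => ?_
      change φ (σ b) v = 0
      have h2 := hρ b ⟨φ (σ 1) v, hmem 1 v⟩
      rw [hb] at h2
      have h3 : φ (σ b) (φ (σ 1) v) = 0 := h2.symm
      rw [hφmul, mul_one] at h3
      exact h3
    have h4 : σ b = 0 := (map_eq_zero_iff φ φ.injective).1 h1
    have h5 : σ b 0 0 = b := Matrix.single_apply_same _ _ _
    rw [← h5, h4]
    rfl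
  have hsurj : Function.Surjective ρ := by
    intro T
    let π : (Fin m → E) →ₗ[E] W := (φ (σ 1)).codRestrict W (fun v => hmem 1 v)
    let T' : Module.End E (Fin m → E) := W.subtype ∘ₗ T ∘ₗ π
    obtain ⟨M, hM⟩ := φ.surjective T'
    refine ⟨M 0 0, ?_⟩
    ext w : 2
    rw [hρ]
    have h1 : σ (M 0 0) = σ 1 * M * σ 1 := by
      simp only [σ]
      rw [Matrix.single_mul_mul_single, one_mul, mul_one]
    rw [h1, map_mul, map_mul, hM]
    have hw := hP w.1 w.2
    have hπ : π w.1 = w := Subtype.ext hw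
    change φ (σ 1) (T' (φ (σ 1) w.1)) = (T w).1
    rw [hw]
    change φ (σ 1) (T (π w.1)).1 = (T w).1
    rw [hπ]
    exact hP _ (T w).2
  have hB : B ≃ₐ[E] Module.End E W := AlgEquiv.ofBijective ρ ⟨hinj, hsurj⟩
  exact ⟨finrank E W, ⟨hB.trans (algEquivMatrix (finBasis E W))⟩⟩

end Pool.Agent.LibBrS
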