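import Pool.Agent.LibBrS.Defs

/-!
[BrS N3b] Fixed vectors of a semilinear φ on L^r with φ^n = 1, n = [L : F], L/F cyclic with generator σ: the fixed
vectors V0 are a nonzero F-subspace (∑ φ^i(c v), i < n; Dedekind's independence of the σ^i) of dimension ≤ r: if
v_0..v_r in V0 are F-independent, the space of relations R = {c ∈ L^(r+1) : ∑ c_i v_i = 0} is nonzero, stable under
σ; with c in R, c_j ≠ 0, some λ has Tr(λ c_j) ≠ 0, and (Tr(λ c_i))_i is a relation over F (R is stable under σ).
-/

set_option autoImplicit false

open scoped TensorProduct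
open Module Pool.Agent.LibK2Tower

namespace Pool.Agent.LibBrS

section

variable {F L : Type} [Field F] [Field L] [Algebra F L] [FiniteDimensional F L]
    [IsGalois F L] (σ : L ≃ₐ[F] L) (hσ : ∀ τ : L ≃ₐ[F] L, τ ∈ Subgroup.zpowers σ)

include hσ in
theorem n3b_order : orderOf σ = finrank F L := by
  rw [← IsGalois.card_aut_eq_finrank F L, ← Nat.card_zpowers]
  have : Subgroup.zpowers σ = ⊤ := by
    rw [eq_top_iff]
    exact fun τ _ => hσ τ
  rw [this]
  exact Nat.card_congr (Equiv.Set.univ _)

include hσ in
/-- Dedekind -/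
theorem n3b_dedekind (a : ℕ → L) (h : ∀ c : L, ∑ i ∈ Finset.range (finrank F L), a i * (σ ^ i) c = 0) :
    ∀ i < finrank F L, a i = 0 := by
  have h1 : LinearIndependent L (fun f : L →* L => (f : L → L)) := linearIndependent_monoidHom L L
  let g : Fin (finrank F L) → (L →* L) := fun i => ((σ ^ (i : ℕ) : L ≃ₐ[F] L) : L →* L)
  have hg : Function.Injective g := by
    intro i j hij
    have h2 : (σ ^ (i : ℕ) : L ≃ₐ[F] L) = σ ^ (j : ℕ) := by
      ext x
      exact DFunLike.congr_fun hij x
    have h3 := pow_injOn_Iio_orderOf (x := σ) (Set.mem_Iio.2 (by rw [n3b_order σ hσ]; exact i.2))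
      (Set.mem_Iio.2 (by rw [n3b_order σ hσ]; exact j.2)) h2
    exact Fin.ext h3
  have h2 := h1.comp g hg
  rw [Fintype.linearIndependent_iff] at h2
  have h3 := h2 (fun i => a i) (by
    ext c
    have h4 := h c
    rw [Finset.sum_range] at h4
    simpa [g] using h4)
  intro i hi
  exact h3 ⟨i, hi⟩

include hσ in
theorem n3b_fixed {c : L} (hc : σ c = c) : ∃ a : F, algebraMap F L a = c := by
  have h1 : c ∈ (⊥ : IntermediateField F L) := by
    rw [IsGalois.mem_bot_iff_fixed]
    intro τ
    obtain ⟨k, rfl⟩ := hσ τ
    have h2 : ∀ k : ℕ, (σ ^ k) c = c := by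
      intro k
      induction k with
      | zero => rfl
      | succ k ih => rw [pow_succ', AlgEquiv.mul_apply, ih, hc]
    rcases Int.eq_nat_or_neg k with ⟨m, rfl | rfl⟩
    · simpa using h2 m
    · have h3 := h2 m
      simp only [zpow_neg, zpow_natCast]
      nth_rewrite 1 [← h3]
      rw [← AlgEquiv.mul_apply, inv_mul_cancel]
      rfl
  obtain ⟨c₀, h⟩ := IntermediateField.mem_bot.1 h1
  exact ⟨c₀, h⟩

end

theorem exists_fixed {F L : Type} [Field F] [Field L] [Algebra F L] [FiniteDimensional F L]
    [IsGalois F L] (σ : L ≃ₐ[F] L) (hσ : ∀ τ : L ≃ₐ[F] L, τ ∈ Subgroup.zpowers σ)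
    {r : ℕ} (hr : r ≠ 0) (φ : (Fin r → L) →+ (Fin r → L)) (hφ : ∀ (c : L) v, φ (c • v) = σ c • φ v)
    (hn : ∀ v, φ^[finrank F L] v = v) :
    ∃ V : Submodule F (Fin r → L), (∀ v, v ∈ V ↔ φ v = v) ∧ V ≠ ⊥ ∧ finrank F V ≤ r := by
  classical
  set n := finrank F L with hndef
  have hn0 : 0 < n := finrank_pos (R := F) (M := L)
  have hσn : σ ^ n = 1 := by
    rw [hndef, ← n3b_order σ hσ]
    exact pow_orderOf_eq_one σ
  let V : Submodule F (Fin r → L) :=
    { carrier := {v | φ v = v}
      add_mem' := by
        intro v w hv hw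
        change φ (v + w) = v + w
        rw [map_add, hv, hw]
      zero_mem' := map_zero φ
      smul_mem' := by
        intro a v hv
        change φ (a • v) = a • v
        rw [← algebraMap_smul L a v, hφ, AlgEquiv.commutes, hv] }
  have hV : ∀ v, v ∈ V ↔ φ v = v := fun v => Iff.rfl
  have hk1 : ∀ (k : ℕ) (c : L) v, φ^[k] (c • v) = (σ ^ k) c • φ^[k] v := by
    intro k
    induction k with
    | zero => intro c v; simp
    | succ k ih =>
      intro c v
      rw [Function.iterate_succ_apply', ih, hφ, Function.iterate_succ_apply', pow_succ']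
      rfl
  refine ⟨V, hV, ?_, ?_⟩
  · intro hbot
    let v₀ : Fin r → L := fun _ => 1
    have h1 : ∀ c : L, ∑ i ∈ Finset.range n, φ^[i] (c • v₀) = 0 := by
      intro c
      have h2 : (∑ i ∈ Finset.range n, φ^[i] (c • v₀)) ∈ V := by
        rw [hV, map_sum]
        have h3 : ∀ i ∈ Finset.range n, φ (φ^[i] (c • v₀)) = φ^[i + 1] (c • v₀) := fun i _ =>
          (Function.iterate_succ_apply' φ i _).symm
        rw [Finset.sum_congr rfl h3]
        have h4 := Finset.sum_range_succ' (fun i => φ^[i] (c • v₀)) n
        have h5 := Finset.sum_range_succ (fun i => φ^[i] (c • v₀)) n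
        rw [h5] at h4
        simp only [hn, Function.iterate_zero, id] at h4
        exact (add_right_cancel h4).symm
      rw [hbot, Submodule.mem_bot] at h2
      exact h2
    let j : Fin r := ⟨0, Nat.pos_of_ne_zero hr⟩
    have h2 : ∀ c : L, ∑ i ∈ Finset.range n, (φ^[i] v₀ j) * (σ ^ i) c = 0 := by
      intro c
      have h3 := congrFun (h1 c) j
      rw [Finset.sum_apply] at h3
      rw [← Pi.zero_apply (M := fun _ : Fin r => L) j, ← h3]
      refine Finset.sum_congr rfl fun i _ => ?_
      rw [hk1, Pi.smul_apply, smul_eq_mul, mul_comm]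
    have h3 := n3b_dedekind σ hσ (fun i => φ^[i] v₀ j) h2 0 hn0
    exact one_ne_zero h3
  · let bV := finBasis F V
    have hli : LinearIndependent L (fun i => (bV i : Fin r → L)) := by
      rw [Fintype.linearIndependent_iff]
      intro c hc j
      by_contra hcj
      -- the trace
      have hT : ∀ x : L, ∃ a : F, algebraMap F L a = ∑ k ∈ Finset.range n, (σ ^ k) x := by
        intro x
        apply n3b_fixed σ hσ
        rw [map_sum]
        have h3 : ∀ i ∈ Finset.range n, σ ((σ ^ i) x) = (σ ^ (i + 1)) x := fun i _ => by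
          rw [pow_succ']; rfl
        rw [Finset.sum_congr rfl h3]
        have h4 := Finset.sum_range_succ' (fun i => (σ ^ i) x) n
        have h5 := Finset.sum_range_succ (fun i => (σ ^ i) x) n
        rw [h5, hσn] at h4
        simp only [pow_zero] at h4
        exact (add_right_cancel h4).symm
      choose t ht using hT
      have h6 : ∀ (l : L) (k : ℕ), ∑ i, (σ ^ k) (l * c i) • (bV i : Fin r → L) = 0 := by
        intro l k
        have h7 : ∑ i, (l * c i) • (bV i : Fin r → L) = 0 := by
          simp only [mul_smul, ← Finset.smul_sum, hc, smul_zero]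
        have h8 : ∀ k, φ^[k] (∑ i, (l * c i) • (bV i : Fin r → L)) =
            ∑ i, (σ ^ k) (l * c i) • (bV i : Fin r → L) := by
          intro k
          induction k with
          | zero => simp
          | succ k ih =>
            rw [Function.iterate_succ_apply', ih, map_sum]
            refine Finset.sum_congr rfl fun i _ => ?_
            rw [hφ, (hV _).1 (bV i).2, pow_succ']
            rfl
        rw [← h8, h7]
        have h9 : ∀ k, φ^[k] (0 : Fin r → L) = 0 := by
          intro k
          induction k with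
          | zero => rfl
          | succ k ih => rw [Function.iterate_succ_apply', ih, map_zero]
        exact h9 k
      have h10 : ∀ l : L, ∀ i, t (l * c i) = 0 := by
        intro l
        have h11 : ∑ i, t (l * c i) • bV i = 0 := by
          apply Subtype.ext
          rw [AddSubmonoidClass.coe_finsetSum, ZeroMemClass.coe_zero]
          have h12 : ∀ i, ((t (l * c i) • bV i : V) : Fin r → L) =
              ∑ k ∈ Finset.range n, (σ ^ k) (l * c i) • (bV i : Fin r → L) := by
            intro i
            rw [← Finset.sum_smul, ← ht, algebraMap_smul]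
            rfl
          rw [Finset.sum_congr rfl fun i _ => h12 i, Finset.sum_comm]
          exact Finset.sum_eq_zero fun k _ => h6 l k
        exact Fintype.linearIndependent_iff.1 bV.linearIndependent _ h11
      have h13 : ∀ x : L, ∑ i ∈ Finset.range n, (1 : L) * (σ ^ i) x = 0 := by
        intro x
        have h14 := h10 (x * (c j)⁻¹) j
        rw [inv_mul_cancel_right₀ hcj] at h14
        have h15 := ht x
        rw [h14, map_zero] at h15
        simpa using h15.symm
      exact one_ne_zero (n3b_dedekind σ hσ (fun _ => 1) h13 0 hn0)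
    have h1 := hli.fintype_card_le_finrank
    rw [Fintype.card_fin, finrank_fin_fun] at h1
    exact h1

end Pool.Agent.LibBrS
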