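import Pool.Agent.LibBrS.Conj
import Pool.Agent.LibBrS.Fixed

/-!
[BrS N3c] Cyclic descent: A simple over F, L ⊗ A = M_r(L), L/F cyclic Galois of degree n, F = F^n, then A = M_r(F).
A acts on V (N3a, N3b) by ρ(a) v = e(1 ⊗ a) *ᵥ v; A → End_F(V) is injective (A simple, V ≠ 0), dim A = r^2, dim V ≤ r:
so dim V = r and A = End_F(V) = M_r(F).
-/

set_option autoImplicit false

open scoped TensorProduct
open Module Pool.Agent.LibK2Tower

namespace Pool.Agent.LibBrS

theorem cyclic_descent {F L : Type} [Field F] [Field L] [Algebra F L] [FiniteDimensional F L]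
    [IsGalois F L] (hcyc : IsCyclic (L ≃ₐ[F] L))
    (hF : ∀ c : F, ∃ d : F, d ^ finrank F L = c) {A : Type} [Ring A] [Algebra F A]
    [IsSimpleRing A] {r : ℕ} (hr : r ≠ 0) (e : L ⊗[F] A ≃ₐ[L] Matrix (Fin r) (Fin r) L) :
    Nonempty (A ≃ₐ[F] Matrix (Fin r) (Fin r) F) := by
  classical
  obtain ⟨σ, hσ⟩ := hcyc.exists_generator
  obtain ⟨φ, hφ1, hφ2, hφ3⟩ := exists_semilinear σ hσ hF hr e
  obtain ⟨V, hV, hV0, hVr⟩ := exists_fixed σ hσ hr φ hφ1 hφ3
  let ρ₀ : A →ₐ[F] Matrix (Fin r) (Fin r) L :=
    (e.restrictScalars F : L ⊗[F] A →ₐ[F] Matrix (Fin r) (Fin r) L).comp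
      (Algebra.TensorProduct.includeRight : A →ₐ[F] L ⊗[F] A)
  have hρ₀ : ∀ a, ρ₀ a = e (1 ⊗ₜ a) := fun a => rfl
  have hmem : ∀ (a : A) (v : V), (ρ₀ a).mulVec (v : Fin r → L) ∈ V := by
    intro a v
    rw [hV, hρ₀, hφ2, (hV _).1 v.2]
  let ρ : A →ₐ[F] End F V :=
    AlgHom.ofLinearMap
      { toFun := fun a =>
          { toFun := fun v => ⟨(ρ₀ a).mulVec (v : Fin r → L), hmem a v⟩
            map_add' := by
              intro v w
              apply Subtype.ext
              exact (ρ₀ a).mulVec_add (v : Fin r → L) (w : Fin r → L)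
            map_smul' := by
              intro c v
              apply Subtype.ext
              exact (ρ₀ a).mulVec_smul c (v : Fin r → L) }
        map_add' := by
          intro a b
          ext v : 2
          change (ρ₀ (a + b)).mulVec _ = (ρ₀ a).mulVec _ + (ρ₀ b).mulVec _
          rw [map_add, Matrix.add_mulVec]
        map_smul' := by
          intro c a
          ext v : 2
          change (ρ₀ (c • a)).mulVec _ = c • (ρ₀ a).mulVec _
          rw [map_smul, Matrix.smul_mulVec] }
      (by
        ext v : 2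
        change (ρ₀ 1).mulVec _ = _
        rw [map_one, Matrix.one_mulVec]
        rfl)
      (by
        intro a b
        ext v : 2
        change (ρ₀ (a * b)).mulVec _ = (ρ₀ a).mulVec ((ρ₀ b).mulVec _)
        rw [map_mul, Matrix.mulVec_mulVec])
  have hVn : Nontrivial V := Submodule.nontrivial_iff_ne_bot.2 hV0
  have hinj : Function.Injective ρ := (ρ : A →+* End F V).injective
  have hA : finrank F A = r * r := by
    rw [← finrank_baseChange (R := L) (S := F) (M' := A), e.toLinearEquiv.finrank_eq,
      Module.finrank_matrix]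
    simp
  have hAf : FiniteDimensional F A := by
    apply FiniteDimensional.of_finrank_pos
    rw [hA]
    positivity
  have hE : finrank F (End F V) = finrank F V * finrank F V := finrank_linearMap F F V V
  have h1 : r * r ≤ finrank F V * finrank F V := by
    rw [← hA, ← hE]
    exact LinearMap.finrank_le_finrank_of_injective (f := ρ.toLinearMap) hinj
  have h2 : finrank F V = r := by
    apply le_antisymm hVr
    by_contra h
    push Not at h
    have := Nat.mul_self_lt_mul_self h
    omega
  have hsurj : Function.Surjective ρ := by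
    have h3 : finrank F A = finrank F (End F V) := by rw [hA, hE, h2]
    have h4 : Function.Injective ρ.toLinearMap := hinj
    have h5 : Function.Surjective ρ.toLinearMap :=
      (LinearMap.injective_iff_surjective_of_finrank_eq_finrank (V := A) (V₂ := End F V)
        (K := F) h3).1 h4
    exact h5
  let e1 : A ≃ₐ[F] End F V := AlgEquiv.ofBijective ρ ⟨hinj, hsurj⟩
  let b : Basis (Fin r) F V := finBasisOfFinrankEq F V h2
  exact ⟨e1.trans (algEquivMatrix b)⟩

end Pool.Agent.LibBrS
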