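import Pool.Agent.LibBrS.Defs

/-!
In characteristic p, adjoining roots of unity gives cyclic Galois extensions.
-/

set_option autoImplicit false

open scoped TensorProduct
open Module Pool.Agent.LibK2Tower

namespace Pool.Agent.LibBrS

theorem isCyclic_gal_of_adjoin {F K : Type} [Field F] [Field K] [Algebra F K] (p : ℕ)
    [Fact p.Prime] [CharP F p] {θ : K} {s : ℕ} (hs : 0 < s) (hθ : θ ^ s = 1)
    (hgen : IntermediateField.adjoin F {θ} = ⊤) : IsCyclic (K ≃ₐ[F] K) := by
  have : CharP K p := charP_of_injective_algebraMap (algebraMap F K).injective p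
  let : Algebra (ZMod p) F := ZMod.algebra F p
  let : Algebra (ZMod p) K := ZMod.algebra K p
  have : IsScalarTower (ZMod p) F K :=
    IsScalarTower.of_algebraMap_eq' (Subsingleton.elim _ _)
  have hint : IsIntegral (ZMod p) θ := by
    apply IsIntegral.of_pow hs
    rw [hθ]
    exact isIntegral_one
  have : FiniteDimensional (ZMod p) (IntermediateField.adjoin (ZMod p) {θ}) :=
    IntermediateField.adjoin.finiteDimensional hint
  have : Finite (IntermediateField.adjoin (ZMod p) {θ}) := Module.finite_of_finite (ZMod p)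
  let f : (K ≃ₐ[F] K) →* (IntermediateField.adjoin (ZMod p) {θ} ≃ₐ[ZMod p]
      IntermediateField.adjoin (ZMod p) {θ}) :=
    (AlgEquiv.restrictNormalHom _).comp (AlgEquiv.restrictScalarsHom (ZMod p))
  have hf : Function.Injective f := by
    rw [injective_iff_map_eq_one]
    intro τ hτ
    have h1 : τ θ = θ := by
      have h2 := AlgEquiv.restrictNormal_commutes (τ.restrictScalars (ZMod p))
        (IntermediateField.adjoin (ZMod p) {θ})
        ⟨θ, IntermediateField.mem_adjoin_simple_self (ZMod p) θ⟩
      have h3 : (τ.restrictScalars (ZMod p)).restrictNormal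
          (IntermediateField.adjoin (ZMod p) {θ}) = 1 := hτ
      rw [h3] at h2
      exact h2.symm
    have h4 : (τ : K →ₐ[F] K) = AlgHom.id F K := by
      have h5 : IsIntegral F θ := by
        apply IsIntegral.of_pow hs
        rw [hθ]
        exact isIntegral_one
      have h6 : Algebra.adjoin F {θ} = ⊤ := by
        rw [← IntermediateField.adjoin_simple_toSubalgebra_of_isAlgebraic h5.isAlgebraic, hgen]
        rfl
      apply AlgHom.ext_of_adjoin_eq_top h6
      intro x hx
      rw [Set.mem_singleton_iff] at hx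
      rw [hx]
      exact h1
    ext x
    exact DFunLike.congr_fun h4 x
  exact isCyclic_of_injective f hf

theorem exists_cyclo {F E : Type} [Field F] [Field E] [Algebra F E] (p : ℕ) [Fact p.Prime]
    [CharP F p] {N : ℕ} (hN : N.Coprime p) (hN0 : 0 < N) {ζ : E} (hζ : ζ ^ N = 1)
    (hE : IntermediateField.adjoin F {ζ} = ⊤) {n : ℕ} (hn : n.Coprime p) (hn0 : 0 < n) :
    ∃ (K : Type) (_ : Field K) (_ : Algebra E K) (_ : Algebra F K) (_ : IsScalarTower F E K)
      (_ : FiniteDimensional F K) (_ : IsGalois F K), IsCyclic (K ≃ₐ[F] K) ∧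
      ∃ ξ : K, IsPrimitiveRoot ξ n := by
  have hp : p.Prime := Fact.out
  have : CharP E p := charP_of_injective_algebraMap (algebraMap F E).injective p
  obtain ⟨f, hf0, hf⟩ : ∃ f : ℕ, 0 < f ∧ p ^ f ≡ 1 [MOD N * n] := by
    refine ⟨Nat.totient (N * n), Nat.totient_pos.2 (Nat.mul_pos hN0 hn0), ?_⟩
    exact Nat.ModEq.pow_totient (Nat.Coprime.mul_right hN.symm hn.symm)
  have h1 : N * n ∣ p ^ f - 1 := (Nat.modEq_iff_dvd' (Nat.one_le_pow _ _ hp.pos)).1 hf.symm
  set s := p ^ f - 1 with hs
  have hpf : 1 < p ^ f := Nat.one_lt_pow hf0.ne' hp.one_lt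
  have hs0 : 0 < s := by omega
  have : NeZero s := ⟨hs0.ne'⟩
  have hsE : NeZero ((s : ℕ) : E) := by
    refine ⟨fun h => ?_⟩
    have h2 : (p : ℕ) ∣ s := (CharP.cast_eq_zero_iff E p s).1 h
    have h3 : p ∣ p ^ f := dvd_pow_self p hf0.ne'
    have h4 : p ∣ 1 := by
      have h5 : p ^ f = s + 1 := by omega
      rw [h5] at h3
      exact (Nat.dvd_add_right h2).1 h3
    exact hp.one_lt.ne' (Nat.dvd_one.1 h4)
  have hθ := IsCyclotomicExtension.zeta_spec s E (CyclotomicField s E)
  set θ := IsCyclotomicExtension.zeta s E (CyclotomicField s E) with hθdef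
  have hint : IsIntegral F θ := by
    apply IsIntegral.of_pow hs0
    rw [hθ.pow_eq_one]
    exact isIntegral_one
  have hgen : IntermediateField.adjoin F {θ} = ⊤ := by
    rw [eq_top_iff]
    have h2 : ∀ e : E, algebraMap E (CyclotomicField s E) e ∈ IntermediateField.adjoin F {θ} := by
      have h3 : (⊤ : IntermediateField F E) ≤ (IntermediateField.adjoin F {θ}).comap
          (IsScalarTower.toAlgHom F E (CyclotomicField s E)) := by
        rw [← hE, IntermediateField.adjoin_le_iff, Set.singleton_subset_iff]
        show algebraMap E (CyclotomicField s E) ζ ∈ IntermediateField.adjoin F {θ}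
        obtain ⟨i, -, hi⟩ := hθ.eq_pow_of_pow_eq_one
          (ξ := algebraMap E (CyclotomicField s E) ζ) (by
            obtain ⟨k, hk⟩ := (Dvd.intro n rfl : N ∣ N * n).trans h1
            rw [hk, pow_mul, ← map_pow, hζ, map_one, one_pow])
        rw [← hi]
        exact pow_mem (IntermediateField.mem_adjoin_simple_self F θ) i
      intro e
      exact h3 (IntermediateField.mem_top (x := e))
    intro x _
    have h4 : x ∈ Algebra.adjoin E {θ} := by
      rw [IsCyclotomicExtension.adjoin_primitive_root_eq_top hθ]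
      trivial
    induction h4 using Algebra.adjoin_induction with
    | mem x hx =>
      rw [Set.mem_singleton_iff] at hx
      rw [hx]
      exact IntermediateField.mem_adjoin_simple_self F θ
    | algebraMap e => exact h2 e
    | add x y _ _ hx hy => exact add_mem (hx trivial) (hy trivial)
    | mul x y _ _ hx hy => exact mul_mem (hx trivial) (hy trivial)
  have : IsCyclotomicExtension {s} F (CyclotomicField s E) := by
    rw [IsCyclotomicExtension.iff_singleton]
    refine ⟨⟨θ, hθ⟩, fun x => ?_⟩
    have h5 : x ∈ (IntermediateField.adjoin F {θ}).toSubalgebra := by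
      rw [hgen]; trivial
    rw [IntermediateField.adjoin_simple_toSubalgebra_of_isAlgebraic hint.isAlgebraic] at h5
    exact Algebra.adjoin_mono (by simpa using hθ.pow_eq_one) h5
  have : FiniteDimensional F (CyclotomicField s E) :=
    IsCyclotomicExtension.finiteDimensional {s} F _
  have : IsGalois F (CyclotomicField s E) := IsCyclotomicExtension.isGalois {s} F _
  refine ⟨CyclotomicField s E, inferInstance, inferInstance, inferInstance, inferInstance,
    inferInstance, inferInstance, isCyclic_gal_of_adjoin p hs0 hθ.pow_eq_one hgen, ?_⟩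
  obtain ⟨k, hk⟩ := (Dvd.intro_left N rfl : n ∣ N * n).trans h1
  exact ⟨θ ^ k, hθ.pow (NeZero.pos s) (by rw [hk, mul_comm])⟩

end Pool.Agent.LibBrS
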