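import Mathlib
import Pool.Agent.LibK2Tower.Symbol

/-!
Brauer equivalence, invertible algebras, symbol algebras.
-/

set_option autoImplicit false

open scoped TensorProduct
open Module Pool.Agent.LibK2Tower

namespace Pool.Agent.LibBrS

/-- Brauer equivalence of algebras over a field: some matrix algebras over them are isomorphic. -/
def BrEq (K A B : Type) [Field K] [Ring A] [Algebra K A] [Ring B] [Algebra K B] : Prop :=
  ∃ n m : ℕ, n ≠ 0 ∧ m ≠ 0 ∧
    Nonempty (Matrix (Fin n) (Fin n) A ≃ₐ[K] Matrix (Fin m) (Fin m) B)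

/-- The algebra `A` is invertible: `A ⊗ B` is a matrix algebra over `K` for some `B`. -/
def Inv (K A : Type) [Field K] [Ring A] [Algebra K A] : Prop :=
  ∃ (B : Type) (_ : Ring B) (_ : Algebra K B) (n : ℕ), n ≠ 0 ∧
    Nonempty (A ⊗[K] B ≃ₐ[K] Matrix (Fin n) (Fin n) K)

/-- `A` is a symbol algebra `(a, b)_ζ` of degree `l` over `K`: a nonzero algebra generated by two
elements `u, v` with `u ^ l = a`, `v ^ l = b` and `u v = ζ v u`. -/
def IsSymb (K : Type) [Field K] (l : ℕ) (ζ a b : K) (A : Type) [Ring A] [Algebra K A] : Prop :=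
  Nontrivial A ∧ ∃ u v : A, u ^ l = algebraMap K A a ∧ v ^ l = algebraMap K A b ∧
    u * v = ζ • (v * u) ∧ Algebra.adjoin K {u, v} = ⊤

/-- `A` is a tensor product of symbol algebras `(a_i, b_i)_ζ` of degree `l` over `K`. -/
inductive IsSymbProd (K : Type) [Field K] (l : ℕ) (ζ : K) :
    ∀ (A : Type) [Ring A] [Algebra K A], Prop
  | one : IsSymbProd K l ζ K
  | mul (a b : K) (ha : a ≠ 0) (hb : b ≠ 0) (A B : Type) [Ring A] [Algebra K A] [Ring B]
      [Algebra K B] (hA : IsSymb K l ζ a b A) (hB : IsSymbProd K l ζ B) :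
      IsSymbProd K l ζ (A ⊗[K] B)

/-- `A` and `B` are isomorphic by a ring isomorphism which is `σ` on the scalars. -/
def SemiEq {K : Type} [Field K] (σ : K ≃+* K) (A B : Type) [Ring A] [Algebra K A] [Ring B]
    [Algebra K B] : Prop :=
  ∃ f : A ≃+* B, ∀ e : K, f (algebraMap K A e) = algebraMap K B (σ e)

/-- The homomorphism on `K_2(E)` given by a symbol. -/
noncomputable def k2lift {E G : Type*} [Field E] [AddCommGroup G] (c : Eˣ → Eˣ → G)
    (hc : IsSymbol c) : K2 E →+ G :=
  QuotientAddGroup.lift (k2Relations E) (FreeAbelianGroup.lift fun p => c p.1 p.2) (by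
    intro x hx
    refine AddSubgroup.closure_induction (p := fun x _ =>
      x ∈ (FreeAbelianGroup.lift fun p : Eˣ × Eˣ => c p.1 p.2).ker) ?_ ?_ ?_ ?_ hx
    · rintro x ((⟨u, v, w, rfl⟩ | ⟨u, v, w, rfl⟩) | ⟨u, v, huv, rfl⟩)
      · simp [AddMonoidHom.mem_ker, hc.mul_left]
      · simp [AddMonoidHom.mem_ker, hc.mul_right]
      · simp [AddMonoidHom.mem_ker, hc.steinberg u v huv]
    · exact zero_mem _
    · intro x y _ _ hx hy
      exact add_mem hx hy
    · intro x _ hx
      exact neg_mem hx)

@[simp] theorem k2lift_symb {E G : Type*} [Field E] [AddCommGroup G] (c : Eˣ → Eˣ → G)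
    (hc : IsSymbol c) (u v : Eˣ) : k2lift c hc (symb u v) = c u v := by
  show FreeAbelianGroup.lift (fun p : Eˣ × Eˣ => c p.1 p.2) (FreeAbelianGroup.of (u, v)) = c u v
  simp

/-- The endomorphism of `K_2(E)` given by an automorphism of `E`. -/
noncomputable def k2map {E : Type*} [Field E] (σ : E ≃+* E) : K2 E →+ K2 E :=
  k2lift (fun u v => symb (Units.map (σ : E →* E) u) (Units.map (σ : E →* E) v)) (by
    refine ⟨?_, ?_, ?_⟩
    · intro u v w
      rw [map_mul, isSymbol_symb.mul_left]
    · intro u v w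
      rw [map_mul, isSymbol_symb.mul_right]
    · intro u v huv
      apply isSymbol_symb.steinberg
      simp only [Units.coe_map, MonoidHom.coe_coe]
      rw [← map_add, huv, map_one])

@[simp] theorem k2map_symb {E : Type*} [Field E] (σ : E ≃+* E) (u v : Eˣ) :
    k2map σ (symb u v) = symb (Units.map (σ : E →* E) u) (Units.map (σ : E →* E) v) :=
  k2lift_symb _ _ u v

/-- The homomorphism `K_2(E) → K_2(K)` of a field extension `K/E`. -/
noncomputable def k2res (E K : Type*) [Field E] [Field K] [Algebra E K] : K2 E →+ K2 K :=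
  k2lift (fun u v => symb (Units.map (algebraMap E K).toMonoidHom u)
      (Units.map (algebraMap E K).toMonoidHom v)) (by
    refine ⟨?_, ?_, ?_⟩
    · intro u v w
      rw [map_mul, isSymbol_symb.mul_left]
    · intro u v w
      rw [map_mul, isSymbol_symb.mul_right]
    · intro u v huv
      apply isSymbol_symb.steinberg
      show algebraMap E K u + algebraMap E K v = 1
      rw [← map_add, huv, map_one])

@[simp] theorem k2res_symb {E K : Type*} [Field E] [Field K] [Algebra E K] (u v : Eˣ) :
    k2res E K (symb u v) = symb (Units.map (algebraMap E K).toMonoidHom u)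
      (Units.map (algebraMap E K).toMonoidHom v) :=
  k2lift_symb _ _ u v

end Pool.Agent.LibBrS
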