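import Pool.Agent.LibBrS.Corner
import Pool.Agent.LibBrS.BrEq

/-!
[BrS R15] Descent: a simple algebra of dimension (l^k)^2 over F which splits (up to Brauer equivalence) over an
extension E of degree prime to l is split. A = M_r(D) (`IsSimpleRing.exists_algEquiv_matrix_divisionRing_finite`),
E ⊗ A = M_r(E ⊗ D); `corner` twice gives E ⊗ D = M_t(E); so dim_F D = t^2 and r t = l^k. E^t is a left D-module
(D → E ⊗ D → M_t(E)) and a D-F-bimodule, so dim_F E^t = t [E : F] is divisible by dim_F D = t^2: t | [E : F]; so t = 1,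
D = F.
-/

set_option autoImplicit false

open scoped TensorProduct
open Module Pool.Agent.LibK2Tower

namespace Pool.Agent.LibBrS

private lemma r15_one (E : Type) [Field E] :
    Function.Bijective (Algebra.ofId E (Matrix (Fin 1) (Fin 1) E)) := by
  refine ⟨(algebraMap E (Matrix (Fin 1) (Fin 1) E)).injective, fun M => ⟨M 0 0, ?_⟩⟩
  ext i j
  rw [Subsingleton.elim i 0, Subsingleton.elim j 0]
  show algebraMap E (Matrix (Fin 1) (Fin 1) E) (M 0 0) 0 0 = M 0 0
  rw [Matrix.algebraMap_matrix_apply, if_pos rfl]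
  rfl

/-- `E ⊗ M_r(D) = M_r(E ⊗ D)`. -/
private lemma r15_tensor (F E D : Type) [Field F] [Field E] [Algebra F E] [Ring D] [Algebra F D]
    (r : ℕ) : Nonempty (E ⊗[F] Matrix (Fin r) (Fin r) D ≃ₐ[E]
      Matrix (Fin r) (Fin r) (E ⊗[F] D)) := by
  let e1 : E ⊗[F] Matrix (Fin r) (Fin r) D ≃ₐ[E]
      Matrix (Fin 1) (Fin 1) E ⊗[F] Matrix (Fin r) (Fin r) D :=
    Algebra.TensorProduct.congr (AlgEquiv.ofBijective _ (r15_one E)) AlgEquiv.refl
  let e2 := Matrix.kroneckerTMulAlgEquiv (Fin 1) (Fin r) F E E D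
  let e3 : Matrix (Fin 1 × Fin r) (Fin 1 × Fin r) (E ⊗[F] D) ≃ₐ[E]
      Matrix (Fin r) (Fin r) (E ⊗[F] D) :=
    Matrix.reindexAlgEquiv E (E ⊗[F] D) (Equiv.uniqueProd (Fin r) (Fin 1))
  exact ⟨(e1.trans e2).trans e3⟩

/-- If `E ⊗ D = M_t(E)` for a division algebra `D` over `F`, then `t` divides `[E : F]`. -/
private lemma r15_dvd {F E D : Type} [Field F] [Field E] [Algebra F E] [FiniteDimensional F E]
    [DivisionRing D] [Algebra F D] {t : ℕ} (ht : t ≠ 0) (hD : finrank F D = t ^ 2)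
    (e : E ⊗[F] D ≃ₐ[E] Matrix (Fin t) (Fin t) E) : t ∣ finrank F E := by
  let φ : D →ₐ[F] Module.End E (Fin t → E) :=
    (((Matrix.toLinAlgEquiv' : Matrix (Fin t) (Fin t) E ≃ₐ[E] _).restrictScalars F).toAlgHom.comp
      (e.restrictScalars F).toAlgHom).comp (Algebra.TensorProduct.includeRight)
  letI : Module D (Fin t → E) := Module.compHom (Fin t → E) φ.toRingHom
  haveI : IsScalarTower F D (Fin t → E) := ⟨by
    intro x y z
    show φ (x • y) z = x • (φ y z)
    rw [map_smul]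
    rfl⟩
  have h := Module.finrank_mul_finrank F D (Fin t → E)
  have h2 : finrank F (Fin t → E) = t * finrank F E := by
    rw [Module.finrank_pi_fintype]
    simp
  rw [h2, hD, sq, mul_assoc] at h
  exact ⟨_, (Nat.eq_of_mul_eq_mul_left (Nat.pos_of_ne_zero ht) h).symm⟩

theorem descent {F E : Type} [Field F] [Field E] [Algebra F E] [FiniteDimensional F E]
    {l k : ℕ} (hl : l.Prime) (hd : (finrank F E).Coprime l) {A : Type} [Ring A] [Algebra F A]
    [IsSimpleRing A] [FiniteDimensional F A] (hA : finrank F A = (l ^ k) ^ 2)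
    (h : BrEq E (E ⊗[F] A) E) : Nonempty (A ≃ₐ[F] Matrix (Fin (l ^ k)) (Fin (l ^ k)) F) := by
  obtain ⟨n, m, hn, hm, ⟨e⟩⟩ := h
  obtain ⟨s, ⟨e1⟩⟩ := corner hn e
  haveI := IsArtinianRing.of_finite F A
  obtain ⟨r, hr, D, _, _, _, ⟨f⟩⟩ := IsSimpleRing.exists_algEquiv_matrix_divisionRing_finite F A
  obtain ⟨g⟩ := r15_tensor F E D r
  have g2 : Matrix (Fin r) (Fin r) (E ⊗[F] D) ≃ₐ[E] Matrix (Fin s) (Fin s) E :=
    (g.symm.trans (Algebra.TensorProduct.congr AlgEquiv.refl f.symm)).trans e1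
  obtain ⟨t, ⟨e2⟩⟩ := corner hr.out g2
  have hDt : finrank F D = t ^ 2 := by
    have h1 := e2.toLinearEquiv.finrank_eq
    rw [Module.finrank_baseChange, Module.finrank_matrix] at h1
    rw [h1]
    simp [sq]
  have ht : t ≠ 0 := by
    rintro rfl
    have : 0 < finrank F D := Module.finrank_pos
    rw [hDt] at this
    simp at this
  have hrt : r * t = l ^ k := by
    have h1 := f.toLinearEquiv.finrank_eq
    rw [Module.finrank_matrix, hA, hDt] at h1
    have h2 : (r * t) ^ 2 = (l ^ k) ^ 2 := by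
      rw [h1]
      simp only [Fintype.card_fin]
      ring
    exact (Nat.pow_left_injective (n := 2) (by norm_num)) h2
  have h1 : t ∣ finrank F E := r15_dvd ht hDt e2
  have h2 : t = 1 := by
    have h3 : t ∣ l ^ k := ⟨r, by rw [← hrt, mul_comm]⟩
    have h4 : Nat.Coprime (finrank F E) (l ^ k) := hd.pow_right k
    exact Nat.eq_one_of_dvd_coprimes h4 h1 h3
  subst h2
  rw [mul_one] at hrt
  subst hrt
  have h5 : finrank F D = 1 := by rw [hDt]; norm_num
  have hbij : Function.Bijective (Algebra.ofId F D) := by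
    refine ⟨(algebraMap F D).injective, ?_⟩
    have hs : (⊥ : Subalgebra F D) = ⊤ := Subalgebra.bot_eq_top_of_finrank_eq_one h5
    intro x
    have hx : x ∈ (⊥ : Subalgebra F D) := by rw [hs]; trivial
    exact Algebra.mem_bot.1 hx
  exact ⟨f.trans (AlgEquiv.mapMatrix (AlgEquiv.ofBijective (Algebra.ofId F D) hbij).symm)⟩

end Pool.Agent.LibBrS
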