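import Pool.Agent.LibBrS.BrEq

/-!
[BrS R2] Invertible algebras are stable under tensor products and Brauer equivalence.
of_brEq: if M_n A = M_m B and A ⊗ C = M_r K, then B ⊗ M_m(C) = M_m(B) ⊗ C = M_n(A) ⊗ C = M_n(A ⊗ C)
= M_(nr) K. tensor: (A ⊗ B) ⊗ (A' ⊗ B') = (A ⊗ A') ⊗ (B ⊗ B') (`Algebra.TensorProduct.tensorTensorTensorComm`).
-/

set_option autoImplicit false

open scoped TensorProduct
open Module Pool.Agent.LibK2Tower

namespace Pool.Agent.LibBrS

variable {K A B : Type} [Field K] [Ring A] [Algebra K A] [Ring B] [Algebra K B]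

/-- `M_n(K) ⊗ M_m(K) = M_(nm)(K)`. -/
noncomputable def matTensor (K : Type) [Field K] (n m : ℕ) :
    Matrix (Fin n) (Fin n) K ⊗[K] Matrix (Fin m) (Fin m) K ≃ₐ[K]
      Matrix (Fin (n * m)) (Fin (n * m)) K :=
  ((Matrix.kroneckerTMulAlgEquiv (Fin n) (Fin m) K K K K).trans
    (AlgEquiv.mapMatrix (Algebra.TensorProduct.rid K K K))).trans
    (Matrix.reindexAlgEquiv K K finProdFinEquiv)

/-- `M_n(A) ⊗ C = (A ⊗ C) ⊗ M_n(K)`. -/
noncomputable def matMove (K A C : Type) [Field K] [Ring A] [Algebra K A] [Ring C] [Algebra K C]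
    (n : ℕ) : Matrix (Fin n) (Fin n) A ⊗[K] C ≃ₐ[K] (A ⊗[K] C) ⊗[K] Matrix (Fin n) (Fin n) K :=
  (Algebra.TensorProduct.congr (matrixEquivTensor (Fin n) K A) AlgEquiv.refl).trans
    (((Algebra.TensorProduct.assoc K K K A (Matrix (Fin n) (Fin n) K) C).trans
      (Algebra.TensorProduct.congr AlgEquiv.refl
        (Algebra.TensorProduct.comm K (Matrix (Fin n) (Fin n) K) C))).trans
      (Algebra.TensorProduct.assoc K K K A C (Matrix (Fin n) (Fin n) K)).symm)

theorem Inv.matrix (K : Type) [Field K] (n : ℕ) (hn : n ≠ 0) : Inv K (Matrix (Fin n) (Fin n) K) := by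
  refine ⟨K, inferInstance, inferInstance, n, hn, ⟨?_⟩⟩
  exact Algebra.TensorProduct.rid K K (Matrix (Fin n) (Fin n) K)

theorem Inv.tensor (hA : Inv K A) (hB : Inv K B) : Inv K (A ⊗[K] B) := by
  obtain ⟨A', _, _, n, hn, ⟨e⟩⟩ := hA
  obtain ⟨B', _, _, m, hm, ⟨f⟩⟩ := hB
  refine ⟨A' ⊗[K] B', inferInstance, inferInstance, n * m, mul_ne_zero hn hm, ⟨?_⟩⟩
  exact ((Algebra.TensorProduct.tensorTensorTensorComm K K K K A B A' B').trans
    (Algebra.TensorProduct.congr e f)).trans (matTensor K n m)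

theorem Inv.of_brEq (h : BrEq K A B) (hA : Inv K A) : Inv K B := by
  obtain ⟨n, m, hn, hm, ⟨g⟩⟩ := h
  obtain ⟨C, _, _, r, hr, ⟨e⟩⟩ := hA
  refine ⟨C ⊗[K] Matrix (Fin m) (Fin m) K, inferInstance, inferInstance, r * n,
    mul_ne_zero hr hn, ⟨?_⟩⟩
  exact ((((Algebra.TensorProduct.assoc K K K B C (Matrix (Fin m) (Fin m) K)).symm.trans
    (matMove K B C m).symm).trans (Algebra.TensorProduct.congr g.symm AlgEquiv.refl)).trans
    ((matMove K A C n).trans (Algebra.TensorProduct.congr e AlgEquiv.refl))).trans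
    (matTensor K r n)

theorem Inv.self (K : Type) [Field K] : Inv K K :=
  Inv.of_brEq (brEq_matrix (A := K) 1 one_ne_zero) (Inv.matrix K 1 one_ne_zero)

/-- The complement of an invertible algebra is invertible, and the product is split. -/
theorem Inv.exists_inv (hA : Inv K A) : ∃ (B : Type) (_ : Ring B) (_ : Algebra K B),
    Inv K B ∧ BrEq K (A ⊗[K] B) K := by
  obtain ⟨B, _, _, n, hn, ⟨e⟩⟩ := hA
  refine ⟨B, inferInstance, inferInstance, ?_, ?_⟩
  · exact ⟨A, inferInstance, inferInstance, n, hn,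
      ⟨(Algebra.TensorProduct.comm K B A).trans e⟩⟩
  · exact (BrEq.of_equiv e).trans (brEq_matrix n hn)

end Pool.Agent.LibBrS
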