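import Pool.Agent.LibBrS.BrEq
import Pool.Agent.LibBrS.InvAlg

/-!
[BrS R12] Ring isomorphisms which are σ on the scalars. tensor: `TensorProduct.map` for semilinear maps (Mathlib),
or `TensorProduct.congr`; multiplicative by induction on tensors. exists: the ring A with the algebra structure
algebraMap ∘ σ⁻¹ (a type synonym or `letI`). brEq: `RingEquiv.mapMatrix`. inv: use exists for the complement.
-/

set_option autoImplicit false

open scoped TensorProduct
open Module Pool.Agent.LibK2Tower

namespace Pool.Agent.LibBrS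

variable {K A B A' B' : Type} [Field K] [Ring A] [Algebra K A] [Ring B] [Algebra K B]
  [Ring A'] [Algebra K A'] [Ring B'] [Algebra K B'] {σ : K ≃+* K}

theorem SemiEq.exists (σ : K ≃+* K) (A : Type) [Ring A] [Algebra K A] :
    ∃ (B : Type) (_ : Ring B) (_ : Algebra K B), SemiEq σ A B := by
  let i : K →+* A := (algebraMap K A).comp (σ.symm : K →+* K)
  refine ⟨A, inferInstance, RingHom.toAlgebra' i fun c x => Algebra.commutes _ _, RingEquiv.refl A,
    fun e => ?_⟩
  show algebraMap K A e = algebraMap K A (σ.symm (σ e))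
  rw [RingEquiv.symm_apply_apply]

theorem SemiEq.matrix (h : SemiEq σ A B) (n : ℕ) :
    SemiEq σ (Matrix (Fin n) (Fin n) A) (Matrix (Fin n) (Fin n) B) := by
  obtain ⟨f, hf⟩ := h
  refine ⟨f.mapMatrix, fun e => ?_⟩
  ext i j
  rw [RingEquiv.mapMatrix_apply, Matrix.map_apply, Matrix.algebraMap_matrix_apply,
    Matrix.algebraMap_matrix_apply]
  split_ifs
  · exact hf e
  · exact map_zero f

lemma r12_smul {f : A ≃+* B} (hf : ∀ e : K, f (algebraMap K A e) = algebraMap K B (σ e)) (e : K)
    (x : A) : f (e • x) = σ e • f x := by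
  rw [Algebra.smul_def, map_mul, hf, ← Algebra.smul_def]

/-- The tensor product of two semilinear ring isomorphisms, as an additive map. -/
noncomputable def r12_map (f : A ≃+* B) (hf : ∀ e : K, f (algebraMap K A e) = algebraMap K B (σ e))
    (g : A' ≃+* B') (hg : ∀ e : K, g (algebraMap K A' e) = algebraMap K B' (σ e)) :
    A ⊗[K] A' →+ B ⊗[K] B' :=
  TensorProduct.liftAddHom
    (((TensorProduct.mk K B B').toAddMonoidHom.comp f.toAddMonoidHom : A →+ (B' →ₗ[K] B ⊗[K] B')) |>
      fun φ => ({
        toFun := fun a => ((φ a).toAddMonoidHom.comp g.toAddMonoidHom : A' →+ B ⊗[K] B')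
        map_zero' := by ext x; simp
        map_add' := by intro x y; ext z; simp } : A →+ A' →+ B ⊗[K] B'))
    (by
      intro r m n
      show f (r • m) ⊗ₜ[K] g n = f m ⊗ₜ[K] g (r • n)
      rw [r12_smul hf, r12_smul hg, TensorProduct.smul_tmul])

lemma r12_map_tmul (f : A ≃+* B) (hf : ∀ e : K, f (algebraMap K A e) = algebraMap K B (σ e))
    (g : A' ≃+* B') (hg : ∀ e : K, g (algebraMap K A' e) = algebraMap K B' (σ e)) (x : A) (y : A') :
    r12_map f hf g hg (x ⊗ₜ[K] y) = f x ⊗ₜ[K] g y := rfl

lemma r12_symm {f : A ≃+* B} (hf : ∀ e : K, f (algebraMap K A e) = algebraMap K B (σ e)) (e : K) :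
    f.symm (algebraMap K B e) = algebraMap K A (σ.symm e) := by
  rw [RingEquiv.symm_apply_eq, hf, RingEquiv.apply_symm_apply]

theorem SemiEq.tensor (h : SemiEq σ A B) (h' : SemiEq σ A' B') :
    SemiEq σ (A ⊗[K] A') (B ⊗[K] B') := by
  obtain ⟨f, hf⟩ := h
  obtain ⟨g, hg⟩ := h'
  have hmul : ∀ x y : A ⊗[K] A', r12_map f hf g hg (x * y) =
      r12_map f hf g hg x * r12_map f hf g hg y := by
    intro x y
    induction x using TensorProduct.induction_on with
    | zero => rw [zero_mul, map_zero, zero_mul]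
    | add x x' hx hx' => rw [add_mul, map_add, map_add, add_mul, hx, hx']
    | tmul a a' =>
      induction y using TensorProduct.induction_on with
      | zero => rw [mul_zero, map_zero, mul_zero]
      | add y y' hy hy' => rw [mul_add, map_add, map_add, mul_add, hy, hy']
      | tmul b b' =>
        rw [Algebra.TensorProduct.tmul_mul_tmul, r12_map_tmul, r12_map_tmul, r12_map_tmul,
          Algebra.TensorProduct.tmul_mul_tmul, map_mul, map_mul]
  let e : A ⊗[K] A' ≃+* B ⊗[K] B' :=
    { toFun := r12_map f hf g hg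
      invFun := r12_map f.symm (r12_symm hf) g.symm (r12_symm hg)
      left_inv := by
        intro x
        induction x using TensorProduct.induction_on with
        | zero => rw [map_zero, map_zero]
        | add x y hx hy => rw [map_add, map_add, hx, hy]
        | tmul a a' =>
          rw [r12_map_tmul, r12_map_tmul, RingEquiv.symm_apply_apply, RingEquiv.symm_apply_apply]
      right_inv := by
        intro x
        induction x using TensorProduct.induction_on with
        | zero => rw [map_zero, map_zero]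
        | add x y hx hy => rw [map_add, map_add, hx, hy]
        | tmul a a' =>
          rw [r12_map_tmul, r12_map_tmul, RingEquiv.apply_symm_apply, RingEquiv.apply_symm_apply]
      map_mul' := hmul
      map_add' := map_add _ }
  refine ⟨e, fun r => ?_⟩
  rw [Algebra.TensorProduct.algebraMap_apply, Algebra.TensorProduct.algebraMap_apply]
  show r12_map f hf g hg (algebraMap K A r ⊗ₜ[K] 1) = _
  rw [r12_map_tmul, hf, map_one]

theorem SemiEq.self (σ : K ≃+* K) : SemiEq σ K K := ⟨σ, fun _ => rfl⟩

/-- Two algebras which are semi-isomorphic to the same algebra are isomorphic. -/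
theorem SemiEq.nonempty_algEquiv (h : SemiEq σ A B) (h' : SemiEq σ A B') :
    Nonempty (B ≃ₐ[K] B') := by
  obtain ⟨f, hf⟩ := h
  obtain ⟨g, hg⟩ := h'
  refine ⟨AlgEquiv.ofRingEquiv (f := f.symm.trans g) fun r => ?_⟩
  rw [RingEquiv.trans_apply, r12_symm hf, hg, RingEquiv.apply_symm_apply]

lemma r12_trans (e : A' ≃ₐ[K] A) (h : SemiEq σ A B) : SemiEq σ A' B := by
  obtain ⟨f, hf⟩ := h
  refine ⟨e.toRingEquiv.trans f, fun r => ?_⟩
  show f (e (algebraMap K A' r)) = _
  rw [AlgEquiv.commutes, hf]

theorem SemiEq.brEq (h : SemiEq σ A B) (h' : SemiEq σ A' B') (hA : BrEq K A A') :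
    BrEq K B B' := by
  obtain ⟨n, m, hn, hm, ⟨e⟩⟩ := hA
  exact ⟨n, m, hn, hm, (h.matrix n).nonempty_algEquiv (r12_trans e (h'.matrix m))⟩

theorem SemiEq.inv (h : SemiEq σ A B) (hA : Inv K A) : Inv K B := by
  obtain ⟨C, _, _, n, hn, ⟨e⟩⟩ := hA
  obtain ⟨C', _, _, hC⟩ := SemiEq.exists σ C
  exact ⟨C', inferInstance, inferInstance, n, hn,
    (h.tensor hC).nonempty_algEquiv (r12_trans e ((SemiEq.self σ).matrix n))⟩

end Pool.Agent.LibBrS
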