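import Pool.Agent.LibBrS.Grp
import Pool.Agent.LibBrS.Semi

/-!
[BrS R13] The action of an automorphism σ of K on the Brauer group: cls A ↦ cls B for any B with SemiEq σ A B.
-/

set_option autoImplicit false

open scoped TensorProduct
open Module Pool.Agent.LibK2Tower

namespace Pool.Agent.LibBrS

theorem exists_tw {K : Type} [Field K] (σ : K ≃+* K) : ∃ t : BrGrp K →* BrGrp K,
    ∀ (A B : Type) [Ring A] [Algebra K A] [Ring B] [Algebra K B] (hA : Inv K A) (hB : Inv K B),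
      SemiEq σ A B → t (cls A hA) = cls B hB := by
  classical
  have key : ∀ A : IAlg K, ∃ g : BrGrp K, ∀ (B : Type) [Ring B] [Algebra K B] (hB : Inv K B),
      SemiEq σ A.carrier B → g = cls B hB := by
    intro A
    obtain ⟨B, rB, aB, hs⟩ := SemiEq.exists σ A.carrier
    refine ⟨cls B (hs.inv A.inv), fun B' _ _ hB' hs' => ?_⟩
    rw [cls_eq_iff]
    exact hs.brEq hs' (BrEq.refl A.carrier)
  choose F hF using key
  have hres : ∀ A A' : IAlg K, BrEq K A.carrier A'.carrier → F A = F A' := by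
    intro A A' h
    obtain ⟨B, rB, aB, hs⟩ := SemiEq.exists σ A.carrier
    obtain ⟨B', rB', aB', hs'⟩ := SemiEq.exists σ A'.carrier
    rw [hF A B (hs.inv A.inv) hs, hF A' B' (hs'.inv A'.inv) hs', cls_eq_iff]
    exact hs.brEq hs' h
  obtain ⟨t, ht⟩ : ∃ t : BrGrp K → BrGrp K, ∀ (A : Type) [Ring A] [Algebra K A] (hA : Inv K A),
      t (cls A hA) = F ⟨A, hA⟩ :=
    ⟨Quotient.lift F hres, fun A _ _ hA => rfl⟩
  have hcls : ∀ (A B : Type) [Ring A] [Algebra K A] [Ring B] [Algebra K B] (hA : Inv K A)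
      (hB : Inv K B), SemiEq σ A B → t (cls A hA) = cls B hB := by
    intro A B _ _ _ _ hA hB hs
    rw [ht A hA]
    exact hF ⟨A, hA⟩ B hB hs
  have h1 : t 1 = 1 := by
    rw [cls_one]
    exact hcls K K (Inv.self K) (Inv.self K) (SemiEq.self σ)
  have h2 : ∀ g g' : BrGrp K, t (g * g') = t g * t g' := by
    intro g g'
    obtain ⟨A, rA, aA, hA, rfl⟩ := BrGrp.exists_cls g
    obtain ⟨A', rA', aA', hA', rfl⟩ := BrGrp.exists_cls g'
    obtain ⟨B, rB, aB, hs⟩ := SemiEq.exists σ A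
    obtain ⟨B', rB', aB', hs'⟩ := SemiEq.exists σ A'
    have hB := hs.inv hA
    have hB' := hs'.inv hA'
    rw [cls_mul hA hA', hcls A B hA hB hs, hcls A' B' hA' hB' hs', cls_mul hB hB']
    exact hcls _ _ (hA.tensor hA') (hB.tensor hB') (hs.tensor hs')
  exact ⟨⟨⟨t, h1⟩, h2⟩, hcls⟩

end Pool.Agent.LibBrS
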