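import Pool.Agent.LibBrS.Hom
import Pool.Agent.LibBrS.Tw
import Pool.Agent.LibBrS.Descent

/-!
[BrS R16] The assembly: if ∑_(i<d) M^i σ^i(x) ∈ l K_2(E) for all x, then every central simple algebra over F of degree
l^k whose class over E = F(ζ) is a sum of symbol algebras is split.
(0) S : K_2(E) →+ Additive (BrGrp E), S {a,b} = brSymb; l • S = 0. (1) a tensor product of symbol algebras has class
S x for some x (induction). (2) t = σ_* (exists_tw): t (S x) = M • S (σ x) on symbols: t [(a,b)_ζ] = [(σa,σb)_(ζ^N)] and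
N • [(a,b)_(ζ^N)] = [(a,b)_ζ], M N = 1 mod l. (3) g = [E ⊗ A] = S x, t g = g (`Algebra.TensorProduct.congr` σ id);
so g = M^i • S(σ^i x) for all i, d • g = S (∑ M^i σ^i x) = S (l y) = 0; l • g = 0; so g = 0; `descent`.
-/

set_option autoImplicit false

open scoped TensorProduct
open Module Pool.Agent.LibK2Tower

namespace Pool.Agent.LibBrS

theorem symbProd_inv {K : Type} [Field K] {l : ℕ} {ζ : K} (hζ : IsPrimitiveRoot ζ l)
    (hl : 1 < l) {B : Type} [Ring B] [Algebra K B] (hB : IsSymbProd K l ζ B) : Inv K B := by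
  induction hB with
  | one => exact Inv.self K
  | mul a b ha hb A B hA hB ih => exact (hA.inv hζ (by omega) ha hb).tensor ih

theorem symbProd_cls {K : Type} [Field K] {l : ℕ} {ζ : K} (hζ : IsPrimitiveRoot ζ l)
    (hl : 1 < l) {B : Type} [Ring B] [Algebra K B] (hB : IsSymbProd K l ζ B) :
    ∃ x : K2 K, k2lift _ (isSymbol_brSymb hζ hl) x =
      Additive.ofMul (cls B (symbProd_inv hζ hl hB)) := by
  induction hB with
  | one =>
    refine ⟨0, ?_⟩
    rw [map_zero, ← ofMul_one, cls_one]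
  | mul a b ha hb A B hA hB ih =>
    obtain ⟨x, hx⟩ := ih
    refine ⟨symb (Units.mk0 a ha) (Units.mk0 b hb) + x, ?_⟩
    rw [map_add, k2lift_symb, hx, brSymb_eq hζ (by omega) (Units.mk0 a ha) (Units.mk0 b hb) A hA,
      ← ofMul_mul, cls_mul]

theorem smul_k2lift_brSymb {K : Type} [Field K] {l : ℕ} {ζ : K} (hζ : IsPrimitiveRoot ζ l)
    (hl : 1 < l) (x : K2 K) : l • k2lift _ (isSymbol_brSymb hζ hl) x = 0 := by
  induction x using K2.induction with
  | h0 => rw [map_zero, smul_zero]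
  | hs u v => rw [k2lift_symb, smul_brSymb hζ hl]
  | hn x hx => rw [map_neg, smul_neg, hx, neg_zero]
  | ha x y hx hy => rw [map_add, smul_add, hx, hy, add_zero]

theorem coprime_of_inv {l N M : ℕ} (hMN : M * N ≡ 1 [MOD l]) : N.Coprime l := by
  have h1 : Nat.gcd (M * N) l = Nat.gcd 1 l := hMN.gcd_eq
  rw [Nat.gcd_one_left] at h1
  exact Nat.Coprime.coprime_mul_left (k := M) h1

theorem tw_brSymb_symb {K : Type} [Field K] {l : ℕ} {ζ : K} (hζ : IsPrimitiveRoot ζ l)
    (hl : 1 < l) (σ : K ≃+* K) {N M : ℕ} (hσ : σ ζ = ζ ^ N) (hMN : M * N ≡ 1 [MOD l])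
    {t : BrGrp K →* BrGrp K}
    (ht : ∀ (A B : Type) [Ring A] [Algebra K A] [Ring B] [Algebra K B] (hA : Inv K A)
      (hB : Inv K B), SemiEq σ A B → t (cls A hA) = cls B hB) (a b : Kˣ) :
    t.toAdditive (brSymb hζ (by omega) a b) =
      M • brSymb hζ (by omega) (Units.map (σ : K →* K) a) (Units.map (σ : K →* K) b) := by
  have hN : N.Coprime l := coprime_of_inv hMN
  have hζN : IsPrimitiveRoot (ζ ^ N) l := hζ.pow_of_coprime N hN
  obtain ⟨A, _, _, hA⟩ := exists_symb hζ (by omega : 0 < l) a.ne_zero b.ne_zero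
  obtain ⟨B, _, _, hAB⟩ := SemiEq.exists σ A
  have hB := hA.semi hAB
  rw [hσ] at hB
  have hB' : IsSymb K l (ζ ^ N) ((Units.map (σ : K →* K) a : Kˣ) : K)
      ((Units.map (σ : K →* K) b : Kˣ) : K) B := hB
  rw [← brSymb_pow hζ hl hN hζN (Units.map (σ : K →* K) a) (Units.map (σ : K →* K) b), smul_smul, brSymb_eq hζ (by omega) a b A hA]
  have h1 : t (cls A (hA.inv hζ (by omega) a.ne_zero b.ne_zero)) =
      cls B (hB'.inv hζN (by omega) (Units.ne_zero _) (Units.ne_zero _)) := ht A B _ _ hAB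
  have h2 : t.toAdditive (Additive.ofMul (cls A (hA.inv hζ (by omega) a.ne_zero b.ne_zero))) =
      Additive.ofMul (t (cls A (hA.inv hζ (by omega) a.ne_zero b.ne_zero))) := rfl
  rw [h2, h1, ← brSymb_eq hζN (by omega) _ _ B hB']
  have h3 : l • brSymb hζN (by omega) (Units.map (σ : K →* K) a) (Units.map (σ : K →* K) b) = 0 :=
    smul_brSymb hζN hl _ _
  have h4 : (M * N) % l = 1 := by
    have := hMN
    rw [Nat.ModEq, Nat.mod_eq_of_lt hl] at this
    exact this
  rw [← Nat.div_add_mod (M * N) l, h4, add_smul, one_smul, mul_comm, mul_smul, h3, smul_zero,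
    zero_add]

theorem tw_brSymb {K : Type} [Field K] {l : ℕ} {ζ : K} (hζ : IsPrimitiveRoot ζ l)
    (hl : 1 < l) (σ : K ≃+* K) {N M : ℕ} (hσ : σ ζ = ζ ^ N) (hMN : M * N ≡ 1 [MOD l])
    {t : BrGrp K →* BrGrp K}
    (ht : ∀ (A B : Type) [Ring A] [Algebra K A] [Ring B] [Algebra K B] (hA : Inv K A)
      (hB : Inv K B), SemiEq σ A B → t (cls A hA) = cls B hB) (x : K2 K) :
    t.toAdditive (k2lift _ (isSymbol_brSymb hζ hl) x) =
      M • k2lift _ (isSymbol_brSymb hζ hl) (k2map σ x) := by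
  induction x using K2.induction with
  | h0 => simp only [map_zero, smul_zero]
  | hs u v => rw [k2lift_symb, k2map_symb, k2lift_symb, tw_brSymb_symb hζ hl σ hσ hMN ht]
  | hn x hx => simp only [map_neg, smul_neg, hx]
  | ha x y hx hy => simp only [map_add, smul_add, hx, hy]

theorem semiEq_baseChange {F E : Type} [Field F] [Field E] [Algebra F E] (σ : E ≃ₐ[F] E)
    (A : Type) [Ring A] [Algebra F A] : SemiEq (σ : E ≃+* E) (E ⊗[F] A) (E ⊗[F] A) := by
  refine ⟨((Algebra.TensorProduct.congr σ (AlgEquiv.refl : A ≃ₐ[F] A)) :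
    E ⊗[F] A ≃+* E ⊗[F] A), fun e => ?_⟩
  rw [Algebra.TensorProduct.algebraMap_apply, Algebra.TensorProduct.algebraMap_apply]
  simp

theorem split_of_symbols {F E : Type} [Field F] [Field E] [Algebra F E] [FiniteDimensional F E]
    {l N M : ℕ} (hl : l.Prime) {ζ : E} (hζ : IsPrimitiveRoot ζ l) (σ : E ≃ₐ[F] E)
    (hσ : σ ζ = ζ ^ N) (hMN : M * N ≡ 1 [MOD l]) (hd : (finrank F E).Coprime l)
    (hS : ∀ x : K2 E, ∃ y : K2 E,
      ∑ i ∈ Finset.range (finrank F E), (M ^ i) • (k2map (σ : E ≃+* E))^[i] x = l • y)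
    {A : Type} [Ring A] [Algebra F A] [IsSimpleRing A] [FiniteDimensional F A] {k : ℕ}
    (hA : finrank F A = (l ^ k) ^ 2)
    (hsym : ∃ (B : Type) (_ : Ring B) (_ : Algebra E B), IsSymbProd E l ζ B ∧
      BrEq E (E ⊗[F] A) B) :
    Nonempty (A ≃ₐ[F] Matrix (Fin (l ^ k)) (Fin (l ^ k)) F) := by
  obtain ⟨B, _, _, hB, hAB⟩ := hsym
  have hl1 : 1 < l := hl.one_lt
  have hInvB : Inv E B := symbProd_inv hζ hl1 hB
  have hInvA : Inv E (E ⊗[F] A) := Inv.of_brEq hAB.symm hInvB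
  obtain ⟨x, hx⟩ := symbProd_cls hζ hl1 hB
  obtain ⟨t, ht⟩ := exists_tw (σ : E ≃+* E)
  set S := k2lift _ (isSymbol_brSymb hζ hl1) with hSdef
  set g : Additive (BrGrp E) := Additive.ofMul (cls (E ⊗[F] A) hInvA) with hg
  have hgx : g = S x := by
    rw [hx, hg]
    congr 1
    exact cls_eq_iff.2 hAB
  have htg : t.toAdditive g = g := by
    show Additive.ofMul (t (cls (E ⊗[F] A) hInvA)) = g
    rw [ht (E ⊗[F] A) (E ⊗[F] A) hInvA hInvA (semiEq_baseChange σ A)]
  have hi : ∀ i : ℕ, g = (M ^ i) • S ((k2map (σ : E ≃+* E))^[i] x) := by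
    intro i
    induction i with
    | zero => rw [pow_zero, one_smul, Function.iterate_zero_apply, hgx]
    | succ i ih =>
      rw [Function.iterate_succ_apply', pow_succ, mul_smul,
        ← tw_brSymb hζ hl1 (σ : E ≃+* E) hσ hMN ht, ← map_nsmul, ← ih, htg]
  have h1 : (finrank F E) • g = 0 := by
    obtain ⟨y, hy⟩ := hS x
    have h2 : (finrank F E) • g = S (∑ i ∈ Finset.range (finrank F E),
        (M ^ i) • (k2map (σ : E ≃+* E))^[i] x) := by
      rw [map_sum]
      simp only [map_nsmul, ← hi]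
      rw [Finset.sum_const, Finset.card_range]
    rw [h2, hy, map_nsmul, smul_k2lift_brSymb hζ hl1]
  have h2 : l • g = 0 := by
    rw [hgx]
    exact smul_k2lift_brSymb hζ hl1 x
  have h3 : g = 0 := by
    rw [← AddMonoid.addOrderOf_eq_one_iff, ← Nat.dvd_one, ← hd.gcd_eq_one]
    exact Nat.dvd_gcd (addOrderOf_dvd_iff_nsmul_eq_zero.2 h1)
      (addOrderOf_dvd_iff_nsmul_eq_zero.2 h2)
  have h4 : cls (E ⊗[F] A) hInvA = 1 := by
    have h5 : Additive.ofMul (cls (E ⊗[F] A) hInvA) = Additive.ofMul 1 := h3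
    exact Additive.ofMul.injective h5
  exact descent hl hd hA (cls_eq_one_iff.1 h4)

end Pool.Agent.LibBrS
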