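import Pool.Agent.LibBrS.Ratio
import Pool.Agent.LibBrS.BaseCh
import Pool.Agent.LibBrS.Cyclic
import Pool.Agent.LibBrS.Cyclo
import Pool.Agent.LibBrS.Corner

/-!
[BrS N5] Assembly for the rational theorem. hQ: K_2(E) modulo the symbols {f, e}, f ∈ F^*, is a torsion group.
(0) symbProdQ_cls: a product B of symbol algebras over E has an x ∈ K_2(E) such that for every K/E, [K ⊗ B] is S_K of the
image of x in K_2(K). (1) j x ∈ baseSymbols, j = p^e M, p ∤ M; n = m M, K with a primitive n-th root ξ (N4),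
ζ' = ξ^M, ζ = ζ'^i, i prime to m (in K). S_(ζ)(x) and S_(ζ')(x): i • S_(ζ'^i) = S_(ζ') (brSymb_pow). (2) p^e • S_(ζ')(x) =
p^e M • S_ξ(x) (N2) = S_ξ(j x) = 0, because S_ξ({f, e}) = 0: f is an n-th power in F and n • S_ξ = 0.
(3) m • S_(ζ')(x) = 0, so S_(ζ')(x) = 0, i • S_ζ(x) = 0, m • S_ζ(x) = 0, so S_ζ(x) = 0: K ⊗ A ~ K; Corner; cyclic_descent.
-/

set_option autoImplicit false

open scoped TensorProduct
open Module Pool.Agent.LibK2Tower

namespace Pool.Agent.LibBrS

private theorem k2_hom_ext {E G : Type*} [Field E] [AddCommGroup G] (f g : K2 E →+ G)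
    (h : ∀ u v : Eˣ, f (symb u v) = g (symb u v)) (x : K2 E) : f x = g x := by
  induction x using K2.induction with
  | h0 => rw [map_zero, map_zero]
  | hs u v => exact h u v
  | hn x hx => rw [map_neg, map_neg, hx]
  | ha x y hx hy => rw [map_add, map_add, hx, hy]

private theorem eq_zero_of_coprime {G : Type*} [AddCommGroup G] {a b : ℕ} (hab : a.Coprime b)
    {g : G} (ha : a • g = 0) (hb : b • g = 0) : g = 0 := by
  have h1 : addOrderOf g ∣ a := addOrderOf_dvd_iff_nsmul_eq_zero.2 ha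
  have h2 : addOrderOf g ∣ b := addOrderOf_dvd_iff_nsmul_eq_zero.2 hb
  have h3 : addOrderOf g = 1 := Nat.eq_one_of_dvd_coprimes hab h1 h2
  exact AddMonoid.addOrderOf_eq_one_iff.1 h3

private noncomputable def cancelEquiv (F E K A : Type) [Field F] [Field E] [Field K]
    [Algebra F E] [Algebra E K] [Algebra F K] [IsScalarTower F E K] [Ring A] [Algebra F A] :
    K ⊗[F] A ≃ₐ[K] K ⊗[E] (E ⊗[F] A) :=
  AlgEquiv.ofLinearEquiv (TensorProduct.AlgebraTensorModule.cancelBaseChange F E K K A).symm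
    (by simp [Algebra.TensorProduct.one_def])
    (LinearMap.map_mul_of_map_mul_tmul (fun _ _ _ _ => by simp))

theorem symbProdQ_cls {E : Type} [Field E] {l : ℕ} {ζ : E} (hζ : IsPrimitiveRoot ζ l)
    (hl : 1 < l) {B : Type} [Ring B] [Algebra E B] (hB : IsSymbProd E l ζ B) :
    ∃ x : K2 E, ∀ (K : Type) [Field K] [Algebra E K]
      (hζK : IsPrimitiveRoot (algebraMap E K ζ) l), ∃ hI : Inv K (K ⊗[E] B),
      k2lift _ (isSymbol_brSymb hζK hl) (k2res E K x) = Additive.ofMul (cls (K ⊗[E] B) hI) := by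
  induction hB with
  | one =>
    refine ⟨0, fun K _ _ hζK => ?_⟩
    have e : K ⊗[E] E ≃ₐ[K] K := Algebra.TensorProduct.rid E K K
    refine ⟨Inv.of_brEq (BrEq.of_equiv e.symm) (Inv.self K), ?_⟩
    rw [map_zero, map_zero]
    symm
    rw [ofMul_eq_zero]
    exact cls_eq_one_iff.2 (BrEq.of_equiv e)
  | mul a b ha hb A B hA hB ih =>
    obtain ⟨x, hx⟩ := ih
    refine ⟨symb (Units.mk0 a ha) (Units.mk0 b hb) + x, fun K _ _ hζK => ?_⟩
    obtain ⟨hI, hK⟩ := hx K hζK
    have hA' := hA.baseChange K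
    have hl0 : 0 < l := by omega
    have hu : ((Units.map (algebraMap E K).toMonoidHom (Units.mk0 a ha) : Kˣ) : K) =
        algebraMap E K a := rfl
    have hv : ((Units.map (algebraMap E K).toMonoidHom (Units.mk0 b hb) : Kˣ) : K) =
        algebraMap E K b := rfl
    have h1 := brSymb_eq hζK hl0 (Units.map (algebraMap E K).toMonoidHom (Units.mk0 a ha))
      (Units.map (algebraMap E K).toMonoidHom (Units.mk0 b hb)) (K ⊗[E] A) hA'
    have hIA : Inv K (K ⊗[E] A) := hA'.inv hζK hl0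
      (Units.ne_zero (Units.map (algebraMap E K).toMonoidHom (Units.mk0 a ha)))
      (Units.ne_zero (Units.map (algebraMap E K).toMonoidHom (Units.mk0 b hb)))
    obtain ⟨e⟩ := baseChange_tensor E K A B
    refine ⟨Inv.of_brEq (BrEq.of_equiv e.symm) (hIA.tensor hI), ?_⟩
    rw [map_add, map_add, hK, k2res_symb, k2lift_symb, h1, ← ofMul_mul, cls_mul]
    congr 1
    exact cls_eq_iff.2 (BrEq.of_equiv e.symm)

theorem split_of_symbolsQ {F E : Type} [Field F] [Field E] [Algebra F E] (p : ℕ)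
    [Fact p.Prime] [CharP F p] (hF : ∀ n : ℕ, n ≠ 0 → ∀ a : F, ∃ b : F, b ^ n = a)
    {N : ℕ} (hN : N.Coprime p) (hN0 : 0 < N) {z : E} (hz : z ^ N = 1)
    (hE : IntermediateField.adjoin F {z} = ⊤)
    {m : ℕ} (hm : 1 < m) (hmp : m.Coprime p) {ζ : E} (hζ : IsPrimitiveRoot ζ m)
    (hQ : ∀ x : K2 E, ∃ j : ℕ, j ≠ 0 ∧ j • x ∈ baseSymbols F E)
    {A : Type} [Ring A] [Algebra F A] [IsSimpleRing A] {r : ℕ} (hA : finrank F A = r ^ 2)
    (hr : r ≠ 0)
    (hsym : ∃ (B : Type) (_ : Ring B) (_ : Algebra E B), IsSymbProd E m ζ B ∧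
      BrEq E (E ⊗[F] A) B) :
    Nonempty (A ≃ₐ[F] Matrix (Fin r) (Fin r) F) := by
  obtain ⟨B, _, _, hB, hAB⟩ := hsym
  obtain ⟨x, hx⟩ := symbProdQ_cls hζ hm hB
  obtain ⟨j, hj0, hj⟩ := hQ x
  have hp : p.Prime := Fact.out
  obtain ⟨e, M, hpM, hjeM⟩ := Nat.exists_eq_pow_mul_and_not_dvd hj0 p hp.ne_one
  have hMp : M.Coprime p := ((Nat.Prime.coprime_iff_not_dvd hp).2 hpM).symm
  have hM0 : 0 < M := by
    rcases Nat.eq_zero_or_pos M with h | h
    · exact absurd (h ▸ dvd_zero p) hpM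
    · exact h
  have hnp : (m * M).Coprime p := Nat.Coprime.mul_left hmp hMp
  have hn0 : 0 < m * M := Nat.mul_pos (by omega) hM0
  have hn1 : 1 < m * M := lt_of_lt_of_le hm (Nat.le_mul_of_pos_right m hM0)
  obtain ⟨K, _, _, _, _, _, _, hcyc, ξ, hξ⟩ := exists_cyclo (F := F) (E := E) p hN hN0 hz hE hnp hn0
  have hζK : IsPrimitiveRoot (algebraMap E K ζ) m :=
    hζ.map_of_injective (algebraMap E K).injective
  have hζ' : IsPrimitiveRoot (ξ ^ M) m := hξ.pow hn0 (mul_comm m M)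
  have hm0 : NeZero m := ⟨by omega⟩
  obtain ⟨i, -, him, hi⟩ := hζ'.isPrimitiveRoot_iff.1 hζK
  obtain ⟨hI, hxK⟩ := hx K hζK
  set y := k2res E K x with hy
  -- the three homomorphisms
  have hζi : IsPrimitiveRoot ((ξ ^ M) ^ i) m := by rw [hi]; exact hζK
  have h1 : ∀ w : K2 K, i • k2lift _ (isSymbol_brSymb hζi hm) w =
      k2lift _ (isSymbol_brSymb hζ' hm) w := by
    intro w
    have := k2_hom_ext (i • k2lift _ (isSymbol_brSymb hζi hm))
      (k2lift _ (isSymbol_brSymb hζ' hm)) (fun u v => ?_) w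
    · exact this
    · show i • k2lift _ (isSymbol_brSymb hζi hm) (symb u v) = _
      rw [k2lift_symb, k2lift_symb]
      exact brSymb_pow hζ' hm him hζi u v
  have h2 : ∀ w : K2 K, M • k2lift _ (isSymbol_brSymb hξ hn1) w =
      k2lift _ (isSymbol_brSymb hζ' hm) w := by
    intro w
    have := k2_hom_ext (M • k2lift _ (isSymbol_brSymb hξ hn1))
      (k2lift _ (isSymbol_brSymb hζ' hm)) (fun u v => ?_) w
    · exact this
    · show M • k2lift _ (isSymbol_brSymb hξ hn1) (symb u v) = _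
      rw [k2lift_symb, k2lift_symb]
      exact brSymb_ratio hm hM0 hξ hζ' u v
  have h3 : ∀ {n : ℕ} {η : K} (hη : IsPrimitiveRoot η n) (hn : 1 < n) (w : K2 K),
      n • k2lift _ (isSymbol_brSymb hη hn) w = 0 := by
    intro n η hη hn w
    have := k2_hom_ext (n • k2lift _ (isSymbol_brSymb hη hn)) 0 (fun u v => ?_) w
    · exact this
    · show n • k2lift _ (isSymbol_brSymb hη hn) (symb u v) = 0
      rw [k2lift_symb]
      exact smul_brSymb hη hn u v
  have h4 : ∀ w ∈ baseSymbols F E, k2lift _ (isSymbol_brSymb hξ hn1) (k2res E K w) = 0 := by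
    intro w hw
    unfold baseSymbols at hw
    induction hw using AddSubgroup.closure_induction with
    | mem w hw =>
      obtain ⟨f, u, rfl⟩ := hw
      obtain ⟨g, hg⟩ := hF (m * M) hn0.ne' (f : F)
      have hg0 : g ≠ 0 := by
        rintro rfl
        rw [zero_pow hn0.ne'] at hg
        exact f.ne_zero hg.symm
      have hfg : f = (Units.mk0 g hg0) ^ (m * M) := by
        ext
        rw [Units.val_pow_eq_pow_val, Units.val_mk0, hg]
      rw [k2res_symb, k2lift_symb, hfg, map_pow, map_pow,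
        (isSymbol_brSymb hξ hn1).pow_left, smul_brSymb hξ hn1]
    | zero => rw [map_zero, map_zero]
    | add w w' _ _ h h' => rw [map_add, map_add, h, h', add_zero]
    | neg w _ h => rw [map_neg, map_neg, h, neg_zero]
  have h5 : j • k2lift _ (isSymbol_brSymb hξ hn1) y = 0 := by
    rw [← map_nsmul, hy, ← map_nsmul]
    exact h4 _ hj
  have h6 : p ^ e • k2lift _ (isSymbol_brSymb hζ' hm) y = 0 := by
    rw [← h2, smul_smul, ← hjeM]
    exact h5
  have h7 : k2lift _ (isSymbol_brSymb hζ' hm) y = 0 :=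
    eq_zero_of_coprime (Nat.Coprime.pow_left e hmp.symm) h6 (h3 hζ' hm y)
  have h8 : k2lift _ (isSymbol_brSymb hζi hm) y = 0 := by
    refine eq_zero_of_coprime him ?_ (h3 hζi hm y)
    rw [h1, h7]
  have h9 : k2lift _ (isSymbol_brSymb hζK hm) y = 0 := by
    have : ∀ (η : K) (hη : IsPrimitiveRoot η m), η = (ξ ^ M) ^ i →
        k2lift _ (isSymbol_brSymb hη hm) y = 0 := by
      rintro η hη rfl
      exact h8
    exact this _ hζK hi.symm
  rw [h9] at hxK
  have h10 : cls (K ⊗[E] B) hI = 1 := by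
    rw [eq_comm, ofMul_eq_zero] at hxK
    exact hxK
  have h11 : BrEq K (K ⊗[E] B) K := cls_eq_one_iff.1 h10
  have h12 : BrEq K (K ⊗[F] A) K := by
    refine BrEq.trans (BrEq.of_equiv (cancelEquiv F E K A)) ?_
    exact BrEq.trans (hAB.baseChange K) h11
  obtain ⟨n, k, hn, hk, ⟨φ⟩⟩ := h12
  obtain ⟨s, ⟨ψ⟩⟩ := corner hn φ
  have hs : s = r := by
    have h13 := ψ.toLinearEquiv.finrank_eq
    rw [Module.finrank_baseChange, hA, Module.finrank_matrix, Module.finrank_self,
      Fintype.card_fin, mul_one, ← sq] at h13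
    exact (Nat.pow_left_injective (n := 2) (by norm_num) h13).symm
  subst hs
  exact cyclic_descent hcyc (hF _ finrank_pos.ne') hr ψ

end Pool.Agent.LibBrS
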