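import Pool.Agent.LibBrS.InvAlg

/-!
[BrS R3] The group of Brauer classes of invertible algebras.
`commGroupOfIsUnit` (or `groupOfIsUnit`) from the commutative monoid; the quotient of the structure `IAlg` by `BrEq`.
-/

set_option autoImplicit false

open scoped TensorProduct
open Module Pool.Agent.LibK2Tower

namespace Pool.Agent.LibBrS

/-- Invertible algebras over `K`. -/
structure IAlg (K : Type) [Field K] where
  /-- the algebra -/
  carrier : Type
  [ring : Ring carrier]
  [algebra : Algebra K carrier]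
  inv : Inv K carrier

attribute [instance] IAlg.ring IAlg.algebra

/-- Brauer equivalence on invertible algebras. -/
def brSetoid (K : Type) [Field K] : Setoid (IAlg K) where
  r A B := BrEq K A.carrier B.carrier
  iseqv := ⟨fun A => BrEq.refl A.carrier, fun h => h.symm, fun h h' => h.trans h'⟩

/-- The Brauer classes of invertible algebras over `K`. -/
def BrGrp (K : Type) [Field K] : Type 1 := Quotient (brSetoid K)

/-- The class of an invertible algebra. -/
def cls {K : Type} [Field K] (A : Type) [Ring A] [Algebra K A] (h : Inv K A) : BrGrp K :=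
  Quotient.mk (brSetoid K) ⟨A, h⟩

theorem cls_eq_iff {K A B : Type} [Field K] [Ring A] [Algebra K A] [Ring B] [Algebra K B]
    {hA : Inv K A} {hB : Inv K B} : cls A hA = cls B hB ↔ BrEq K A B :=
  ⟨fun h => Quotient.exact h, fun h => Quotient.sound (s := brSetoid K) h⟩

theorem BrGrp.exists_cls {K : Type} [Field K] (g : BrGrp K) :
    ∃ (A : Type) (_ : Ring A) (_ : Algebra K A) (h : Inv K A), g = cls A h := by
  induction g using Quotient.inductionOn with
  | h A => exact ⟨A.carrier, A.ring, A.algebra, A.inv, rfl⟩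

/-- The product of Brauer classes. -/
def BrGrp.mul' {K : Type} [Field K] : BrGrp K → BrGrp K → BrGrp K :=
  Quotient.map₂ (fun A B => ⟨A.carrier ⊗[K] B.carrier, A.inv.tensor B.inv⟩)
    (fun _ _ h _ _ h' => BrEq.tensor h h')

theorem BrGrp.mul'_cls {K A B : Type} [Field K] [Ring A] [Algebra K A] [Ring B] [Algebra K B]
    (hA : Inv K A) (hB : Inv K B) :
    BrGrp.mul' (cls A hA) (cls B hB) = cls (A ⊗[K] B) (hA.tensor hB) := rfl

/-- The commutative monoid of Brauer classes. -/
@[reducible] def BrGrp.commMonoid (K : Type) [Field K] : CommMonoid (BrGrp K) where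
  mul := BrGrp.mul'
  one := cls K (Inv.self K)
  mul_assoc := by
    intro a b c
    obtain ⟨A, _, _, hA, rfl⟩ := a.exists_cls
    obtain ⟨B, _, _, hB, rfl⟩ := b.exists_cls
    obtain ⟨C, _, _, hC, rfl⟩ := c.exists_cls
    change BrGrp.mul' (BrGrp.mul' (cls A hA) (cls B hB)) (cls C hC) =
      BrGrp.mul' (cls A hA) (BrGrp.mul' (cls B hB) (cls C hC))
    rw [BrGrp.mul'_cls, BrGrp.mul'_cls, BrGrp.mul'_cls, BrGrp.mul'_cls, cls_eq_iff]
    exact BrEq.of_equiv (Algebra.TensorProduct.assoc K K K A B C)
  one_mul := by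
    intro a
    obtain ⟨A, _, _, hA, rfl⟩ := a.exists_cls
    change BrGrp.mul' (cls K (Inv.self K)) (cls A hA) = cls A hA
    rw [BrGrp.mul'_cls, cls_eq_iff]
    exact BrEq.of_equiv (Algebra.TensorProduct.lid K A)
  mul_one := by
    intro a
    obtain ⟨A, _, _, hA, rfl⟩ := a.exists_cls
    change BrGrp.mul' (cls A hA) (cls K (Inv.self K)) = cls A hA
    rw [BrGrp.mul'_cls, cls_eq_iff]
    exact BrEq.of_equiv (Algebra.TensorProduct.rid K K A)
  mul_comm := by
    intro a b
    obtain ⟨A, _, _, hA, rfl⟩ := a.exists_cls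
    obtain ⟨B, _, _, hB, rfl⟩ := b.exists_cls
    change BrGrp.mul' (cls A hA) (cls B hB) = BrGrp.mul' (cls B hB) (cls A hA)
    rw [BrGrp.mul'_cls, BrGrp.mul'_cls, cls_eq_iff]
    exact BrEq.of_equiv (Algebra.TensorProduct.comm K A B)

noncomputable instance BrGrp.commGroup (K : Type) [Field K] : CommGroup (BrGrp K) :=
  @commGroupOfIsUnit _ (BrGrp.commMonoid K) (by
    intro a
    obtain ⟨A, _, _, hA, rfl⟩ := a.exists_cls
    obtain ⟨B, _, _, hB, h⟩ := hA.exists_inv
    let _ := BrGrp.commMonoid K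
    refine (IsUnit.of_mul_eq_one (cls B hB) ?_ : IsUnit (cls A hA))
    change BrGrp.mul' (cls A hA) (cls B hB) = cls K (Inv.self K)
    rw [BrGrp.mul'_cls, cls_eq_iff]
    exact h)

theorem cls_mul {K A B : Type} [Field K] [Ring A] [Algebra K A] [Ring B] [Algebra K B]
    (hA : Inv K A) (hB : Inv K B) : cls A hA * cls B hB = cls (A ⊗[K] B) (hA.tensor hB) := rfl

theorem cls_one (K : Type) [Field K] : (1 : BrGrp K) = cls K (Inv.self K) := rfl

theorem cls_eq_one_iff {K A : Type} [Field K] [Ring A] [Algebra K A] {hA : Inv K A} :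
    cls A hA = 1 ↔ BrEq K A K := by
  rw [cls_one, cls_eq_iff]

end Pool.Agent.LibBrS
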