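import Pool.Agent.LibBrS.Mono

/-!
[BrS R5] Existence of symbol algebras: on the `K`-vector space of the functions `ZMod l → AlgebraicClosure K` take
`(u f) i = α ζ^i f i` and `(v f) i = β f (i - 1)` with `α^l = a`, `β^l = b`; `A = Algebra.adjoin K {u, v}`.
-/

set_option autoImplicit false

open scoped TensorProduct
open Module Pool.Agent.LibK2Tower

namespace Pool.Agent.LibBrS

variable {K : Type} [Field K] {l : ℕ} {ζ a b : K}

/-- Two elements with the relations in a nonzero algebra give a symbol algebra. -/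
theorem isSymb_adjoin {E : Type} [Ring E] [Algebra K E] [Nontrivial E] {u v : E}
    (hu : u ^ l = algebraMap K E a) (hv : v ^ l = algebraMap K E b)
    (huv : u * v = ζ • (v * u)) : IsSymb K l ζ a b (Algebra.adjoin K {u, v}) := by
  have hu' : u ∈ Algebra.adjoin K {u, v} := Algebra.subset_adjoin (by simp)
  have hv' : v ∈ Algebra.adjoin K {u, v} := Algebra.subset_adjoin (by simp)
  refine ⟨inferInstance, ⟨u, hu'⟩, ⟨v, hv'⟩, ?_, ?_, ?_, ?_⟩
  · apply Subtype.ext
    simpa using hu
  · apply Subtype.ext
    simpa using hv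
  · apply Subtype.ext
    simpa using huv
  · have h := Algebra.adjoin_adjoin_coe_preimage (R := K) (s := ({u, v} : Set E))
    rw [← h]
    congr 1
    ext ⟨x, hx⟩
    simp [Subtype.ext_iff]

/-- The diagonal operator. -/
noncomputable def mdU (K : Type) [Field K] (l : ℕ) (ζ : K) (α : AlgebraicClosure K) :
    Module.End K (ZMod l → AlgebraicClosure K) where
  toFun f := fun i => α * (ζ ^ i.val • f i)
  map_add' f g := by
    funext i
    simp [mul_add, smul_add]
  map_smul' c f := by
    funext i
    simp only [Pi.smul_apply, RingHom.id_apply]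
    rw [smul_comm, mul_smul_comm]

/-- The shift. -/
noncomputable def mdV (K : Type) [Field K] (l : ℕ) (β : AlgebraicClosure K) :
    Module.End K (ZMod l → AlgebraicClosure K) where
  toFun f := fun i => β * f (i - 1)
  map_add' f g := by
    funext i
    simp [mul_add]
  map_smul' c f := by
    funext i
    simp only [Pi.smul_apply, RingHom.id_apply]
    rw [mul_smul_comm]

theorem mdU_pow (α : AlgebraicClosure K) (n : ℕ) (f : ZMod l → AlgebraicClosure K) (i : ZMod l) :
    (mdU K l ζ α ^ n) f i = α ^ n * ((ζ ^ i.val) ^ n • f i) := by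
  induction n with
  | zero => simp
  | succ n ih =>
    rw [pow_succ', Module.End.mul_apply]
    show α * (ζ ^ i.val • ((mdU K l ζ α ^ n) f i)) = _
    rw [ih, ← mul_smul_comm, smul_smul, ← mul_assoc, ← pow_succ', ← pow_succ']

theorem mdV_pow (β : AlgebraicClosure K) (n : ℕ) (f : ZMod l → AlgebraicClosure K) (i : ZMod l) :
    (mdV K l β ^ n) f i = β ^ n * f (i - n) := by
  induction n generalizing i with
  | zero => simp
  | succ n ih =>
    rw [pow_succ', Module.End.mul_apply]
    show β * ((mdV K l β ^ n) f (i - 1)) = _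
    rw [ih, ← mul_assoc, ← pow_succ']
    congr 2
    push_cast
    ring

theorem exists_symb (hζ : IsPrimitiveRoot ζ l) (hl : 0 < l) (ha : a ≠ 0) (hb : b ≠ 0) :
    ∃ (A : Type) (_ : Ring A) (_ : Algebra K A), IsSymb K l ζ a b A := by
  have : NeZero l := ⟨hl.ne'⟩
  obtain ⟨α, hα⟩ := IsAlgClosed.exists_pow_nat_eq (algebraMap K (AlgebraicClosure K) a) hl
  obtain ⟨β, hβ⟩ := IsAlgClosed.exists_pow_nat_eq (algebraMap K (AlgebraicClosure K) b) hl
  have hz : ∀ n : ℕ, ζ ^ (n % l) = ζ ^ n := by
    intro n
    conv_rhs => rw [← Nat.mod_add_div n l, pow_add, pow_mul, hζ.pow_eq_one, one_pow, mul_one]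
  have hz1 : ∀ i : ZMod l, ζ ^ i.val = ζ * ζ ^ (i - 1).val := by
    intro i
    have e : i = (((i - 1).val + 1 : ℕ) : ZMod l) := by
      push_cast
      rw [ZMod.natCast_zmod_val]
      ring
    conv_lhs => rw [e, ZMod.val_natCast, hz, pow_succ']
  refine ⟨Algebra.adjoin K {mdU K l ζ α, mdV K l β}, inferInstance, inferInstance, ?_⟩
  have : Nontrivial (Module.End K (ZMod l → AlgebraicClosure K)) := inferInstance
  refine isSymb_adjoin ?_ ?_ ?_
  · refine LinearMap.ext fun f => ?_
    funext i
    have e : (ζ ^ i.val) ^ l = 1 := by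
      rw [← pow_mul, mul_comm, pow_mul, hζ.pow_eq_one, one_pow]
    rw [mdU_pow, hα, e, one_smul]
    simp [Algebra.smul_def]
  · refine LinearMap.ext fun f => ?_
    funext i
    rw [mdV_pow, hβ]
    simp [Algebra.smul_def]
  · refine LinearMap.ext fun f => ?_
    funext i
    show α * (ζ ^ i.val • (β * f (i - 1))) = ζ • (β * (α * (ζ ^ (i - 1).val • f (i - 1))))
    rw [hz1 i]
    simp only [Algebra.smul_def, map_mul]
    ring

end Pool.Agent.LibBrS
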