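import Pool.Agent.LibBrS.Mono

/-!
[BrS R8] Simple operations on symbol algebras (new generators; use `IsSymb.finrank`, `IsSymb.of_finrank`).
swap: u' = v⁻¹, v' = u. pow: u' = u^N. scale: u' = c⁻¹ u. semi: transport of the generators.
-/

set_option autoImplicit false

open scoped TensorProduct
open Module Pool.Agent.LibK2Tower

namespace Pool.Agent.LibBrS

variable {K : Type} [Field K] {l : ℕ} {ζ a b : K} {A B : Type} [Ring A] [Algebra K A]
  [Ring B] [Algebra K B]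

theorem IsSymb.swap (hζ : IsPrimitiveRoot ζ l) (hl : 0 < l) (ha : a ≠ 0) (hb : b ≠ 0)
    (hA : IsSymb K l ζ a b A) : IsSymb K l ζ b⁻¹ a A := by
  obtain ⟨hfd, hfr⟩ := IsSymb.finrank hζ hl ha hb hA
  obtain ⟨hA1, u, v, hu, hv, huv, hgen⟩ := hA
  obtain ⟨k, rfl⟩ : ∃ k, l = k + 1 := ⟨l - 1, by omega⟩
  have hbb : algebraMap K A b⁻¹ * algebraMap K A b = 1 := by
    rw [← map_mul, inv_mul_cancel₀ hb, map_one]
  obtain ⟨w, hw⟩ : ∃ w : A, w = b⁻¹ • v ^ k := ⟨_, rfl⟩
  have hwv : w * v = 1 := by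
    rw [hw, smul_mul_assoc, ← pow_succ, hv, Algebra.smul_def, hbb]
  have hvw : v * w = 1 := by
    rw [hw, mul_smul_comm, ← pow_succ', hv, Algebra.smul_def, hbb]
  have hcomm : Commute w v := by rw [Commute, SemiconjBy, hwv, hvw]
  have hwl : w ^ (k + 1) = algebraMap K A b⁻¹ := by
    have h1 : w ^ (k + 1) * v ^ (k + 1) = 1 := by
      rw [← hcomm.mul_pow, hwv, one_pow]
    rw [hv] at h1
    calc w ^ (k + 1) = w ^ (k + 1) * (algebraMap K A b * algebraMap K A b⁻¹) := by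
          rw [← map_mul, mul_inv_cancel₀ hb, map_one, mul_one]
      _ = _ := by rw [← mul_assoc, h1, one_mul]
  refine IsSymb.of_finrank (u := w) (v := u) hζ hl (inv_ne_zero hb) ha hfd hfr hwl hu ?_
  calc w * u = w * (u * v) * w := by rw [mul_assoc, mul_assoc, hvw, mul_one]
    _ = ζ • (w * (v * u) * w) := by rw [huv, mul_smul_comm, smul_mul_assoc]
    _ = ζ • (u * w) := by rw [← mul_assoc w v u, hwv, one_mul]

theorem IsSymb.pow (hζ : IsPrimitiveRoot ζ l) (hl : 0 < l) (ha : a ≠ 0) (hb : b ≠ 0)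
    (hA : IsSymb K l ζ a b A) {N : ℕ} (hN : N.Coprime l) : IsSymb K l (ζ ^ N) (a ^ N) b A := by
  obtain ⟨hfd, hfr⟩ := IsSymb.finrank hζ hl ha hb hA
  obtain ⟨hA1, u, v, hu, hv, huv, hgen⟩ := hA
  refine IsSymb.of_finrank (u := u ^ N) (v := v) (hζ.pow_of_coprime N hN) hl
    (pow_ne_zero _ ha) hb hfd hfr ?_ hv ?_
  · rw [← pow_mul, mul_comm, pow_mul, hu, map_pow]
  · have := comm_pow huv N 1
    simpa using this

theorem IsSymb.scale (hζ : IsPrimitiveRoot ζ l) (hl : 0 < l) (ha : a ≠ 0) (hb : b ≠ 0)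
    {c : K} (hc : c ≠ 0) (hA : IsSymb K l ζ (c ^ l * a) b A) : IsSymb K l ζ a b A := by
  obtain ⟨hfd, hfr⟩ := IsSymb.finrank hζ hl (mul_ne_zero (pow_ne_zero _ hc) ha) hb hA
  obtain ⟨hA1, u, v, hu, hv, huv, hgen⟩ := hA
  refine IsSymb.of_finrank (u := c⁻¹ • u) (v := v) hζ hl ha hb hfd hfr ?_ hv ?_
  · rw [smul_pow, hu, Algebra.smul_def, ← map_mul, ← mul_assoc, inv_pow,
      inv_mul_cancel₀ (pow_ne_zero _ hc), one_mul]
  · rw [smul_mul_assoc, mul_smul_comm, huv, smul_comm]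

theorem IsSymb.semi {σ : K ≃+* K} (h : SemiEq σ A B) (hA : IsSymb K l ζ a b A) :
    IsSymb K l (σ ζ) (σ a) (σ b) B := by
  obtain ⟨f, hf⟩ := h
  obtain ⟨hA1, u, v, hu, hv, huv, hgen⟩ := hA
  refine ⟨f.symm.toEquiv.nontrivial, f u, f v, ?_, ?_, ?_, ?_⟩
  · rw [← map_pow, hu, hf]
  · rw [← map_pow, hv, hf]
  · rw [← map_mul, huv, Algebra.smul_def, map_mul, hf, map_mul, Algebra.smul_def]
  · rw [eq_top_iff]
    rintro y -
    obtain ⟨x, rfl⟩ := f.surjective y
    have hx : x ∈ Algebra.adjoin K {u, v} := by rw [hgen]; trivial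
    induction hx using Algebra.adjoin_induction with
    | mem x hx =>
      rcases hx with rfl | rfl
      · exact Algebra.subset_adjoin (by simp)
      · exact Algebra.subset_adjoin (by simp)
    | algebraMap r =>
      rw [hf]
      exact Subalgebra.algebraMap_mem _ _
    | add x y _ _ hx hy =>
      rw [map_add]
      exact add_mem hx hy
    | mul x y _ _ hx hy =>
      rw [map_mul]
      exact mul_mem hx hy

end Pool.Agent.LibBrS
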