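import Pool.Agent.LibBrS.Mono

/-!
[BrS R7] (a, 1)_ζ is the matrix algebra: v = diag(ζ^i), u = cyclic shift with one entry a; u v = ζ v u
(choose the direction of the shift); then `IsSymb.of_finrank`.
-/

set_option autoImplicit false

open scoped TensorProduct
open Module Pool.Agent.LibK2Tower

namespace Pool.Agent.LibBrS

/-- The cyclic shift with weights `d`. -/
def shiftMat {K : Type} [Field K] {l : ℕ} [NeZero l] (d : Fin l → K) : Matrix (Fin l) (Fin l) K :=
  Matrix.of fun i j => if j = i + 1 then d i else 0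

theorem ofNat_succ' (l : ℕ) [NeZero l] (k : ℕ) :
    Fin.ofNat l (k + 1) = Fin.ofNat l k + 1 := by
  apply Fin.ext
  rw [Fin.val_add, Fin.val_ofNat, Fin.val_ofNat, Fin.val_one']
  simp [Nat.add_mod]

theorem shiftMat_pow {K : Type} [Field K] {l : ℕ} [NeZero l] (d : Fin l → K) (k : ℕ)
    (i j : Fin l) : (shiftMat d ^ k) i j =
      if j = i + Fin.ofNat l k then ∏ m ∈ Finset.range k, d (i + Fin.ofNat l m) else 0 := by
  induction k generalizing j with
  | zero =>
    have h0 : Fin.ofNat l 0 = 0 := by
      apply Fin.ext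
      simp
    rw [h0, add_zero, pow_zero, Matrix.one_apply, Finset.range_zero, Finset.prod_empty]
    by_cases h : i = j
    · rw [if_pos h, if_pos h.symm]
    · rw [if_neg h, if_neg (fun h' => h h'.symm)]
  | succ k ih =>
    have hs : ∀ x y : Fin l, shiftMat d x y = if y = x + 1 then d x else 0 := fun _ _ => rfl
    rw [pow_succ, Matrix.mul_apply]
    simp only [ih, hs]
    rw [Finset.sum_eq_single (i + Fin.ofNat l k)]
    · rw [if_pos rfl, Finset.prod_range_succ]
      by_cases h : j = i + Fin.ofNat l k + 1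
      · rw [if_pos h, if_pos (by rw [h, ofNat_succ', add_assoc])]
      · rw [if_neg h, if_neg (by rw [ofNat_succ', ← add_assoc]; exact h), mul_zero]
    · intro b _ hb
      rw [if_neg hb, zero_mul]
    · intro h
      exact absurd (Finset.mem_univ _) h

theorem symb_one_right {K : Type} [Field K] {l : ℕ} {ζ a : K} (hζ : IsPrimitiveRoot ζ l)
    (hl : 0 < l) (ha : a ≠ 0) : IsSymb K l ζ a 1 (Matrix (Fin l) (Fin l) K) := by
  have : NeZero l := ⟨hl.ne'⟩
  refine IsSymb.of_finrank (u := shiftMat (fun i : Fin l => if i = 0 then a else 1))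
    (v := Matrix.diagonal (fun i : Fin l => ζ ^ (i : ℕ))) hζ hl ha one_ne_zero inferInstance ?_ ?_ ?_ ?_
  · rw [Module.finrank_matrix, Fintype.card_fin, Module.finrank_self, mul_one, sq]
  · ext i j
    have h0 : Fin.ofNat l l = 0 := by
      apply Fin.ext
      simp
    have h1 : ∀ x : Fin l, Fin.ofNat l (x : ℕ) = x := fun x => by
      apply Fin.ext
      rw [Fin.val_ofNat, Nat.mod_eq_of_lt x.2]
    rw [shiftMat_pow, h0, add_zero, Matrix.algebraMap_matrix_apply]
    by_cases h : i = j
    · subst h
      rw [if_pos rfl, if_pos rfl, Finset.prod_range]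
      simp only [h1]
      have h2 := Equiv.prod_comp (Equiv.addLeft i) (fun x : Fin l => if x = 0 then a else 1)
      simp only [Equiv.coe_addLeft] at h2
      trans ∏ x : Fin l, (if x = 0 then a else 1)
      · exact h2
      · simp
    · rw [if_neg h, if_neg (fun h' => h h'.symm)]
  · rw [Matrix.diagonal_pow, map_one, ← Matrix.diagonal_one]
    congr 1
    ext i
    simp only [Pi.pow_apply]
    rw [← pow_mul, mul_comm, pow_mul, hζ.pow_eq_one, one_pow]
  · ext i j
    rw [Matrix.smul_apply, Matrix.mul_diagonal, Matrix.diagonal_mul, shiftMat, Matrix.of_apply]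
    by_cases h : j = i + 1
    · rw [if_pos h, smul_eq_mul]
      have h1 : ζ ^ (j : ℕ) = ζ * ζ ^ (i : ℕ) := by
        rw [h, Fin.val_add, ← pow_eq_pow_mod _ hζ.pow_eq_one, pow_add, mul_comm]
        congr 1
        rw [Fin.val_one', ← pow_eq_pow_mod _ hζ.pow_eq_one, pow_one]
      rw [h1]
      ring
    · rw [if_neg h, zero_mul, mul_zero, smul_zero]

end Pool.Agent.LibBrS
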