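import Pool.Agent.LibBrS.Mono

/-!
[BrS R10] Steinberg relation: if a + b = 1, then (a, b)_ζ = (c, 1)_ζ for some c ≠ 0. With the generators u, v:
t = v⁻¹ u, w = u + v = v (1 + t), t w = ζ w t; t^l = c ∈ K* and w^l = v^l ∏ (1 + ζ^i t) = b (1 - (-t)^l) = a + b = 1
(`IsPrimitiveRoot.pow_sub_pow_eq_prod_sub_mul` in the commutative ring K[t], or the general
(u + v)^l = u^l + v^l for u v = ζ v u by the q-binomial theorem; for l = 2 this is (u + v)^2 = u^2 + v^2).
Then `IsSymb.of_finrank`.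
-/

set_option autoImplicit false

open scoped TensorProduct
open Module Pool.Agent.LibK2Tower

namespace Pool.Agent.LibBrS

variable {K : Type} [Field K] {l : ℕ} {ζ a b : K} {A : Type} [Ring A] [Algebra K A]

/-- The q-binomial coefficients. -/
def r10_c (q : K) : ℕ → ℕ → K
  | 0, 0 => 1
  | 0, _ + 1 => 0
  | _ + 1, 0 => 1
  | n + 1, k + 1 => q ^ (k + 1) * r10_c q n (k + 1) + r10_c q n k

lemma r10_c_zero (q : K) (n : ℕ) : r10_c q n 0 = 1 := by
  cases n <;> rfl

lemma r10_c_lt (q : K) (n k : ℕ) (h : n < k) : r10_c q n k = 0 := by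
  induction n generalizing k with
  | zero =>
    obtain ⟨k, rfl⟩ := Nat.exists_eq_succ_of_ne_zero (by omega : k ≠ 0)
    rfl
  | succ n ih =>
    obtain ⟨k, rfl⟩ := Nat.exists_eq_succ_of_ne_zero (by omega : k ≠ 0)
    show q ^ (k + 1) * r10_c q n (k + 1) + r10_c q n k = 0
    rw [ih (k + 1) (by omega), ih k (by omega)]
    ring

/-- The q-factorial. -/
def r10_f (q : K) (n : ℕ) : K := ∏ i ∈ Finset.range n, (q ^ (i + 1) - 1)

lemma r10_f_succ (q : K) (n : ℕ) : r10_f q (n + 1) = r10_f q n * (q ^ (n + 1) - 1) :=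
  Finset.prod_range_succ _ _

lemma r10_c_self (q : K) (n : ℕ) : r10_c q n n = 1 := by
  induction n with
  | zero => rfl
  | succ n ih =>
    show q ^ (n + 1) * r10_c q n (n + 1) + r10_c q n n = 1
    rw [r10_c_lt q n (n + 1) (by omega), ih]
    ring

lemma r10_c_f (q : K) (n k j : ℕ) (h : k + j = n) : r10_c q n k * (r10_f q k * r10_f q j) = r10_f q n := by
  induction n generalizing k j with
  | zero =>
    obtain rfl : k = 0 := by omega
    obtain rfl : j = 0 := by omega
    show (1 : K) * (r10_f q 0 * r10_f q 0) = r10_f q 0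
    simp [r10_f]
  | succ n ih =>
    cases k with
    | zero =>
      obtain rfl : j = n + 1 := by omega
      rw [r10_c_zero]
      simp [r10_f]
    | succ k =>
      cases j with
      | zero =>
        obtain rfl : k = n := by omega
        rw [r10_c_self]
        simp [r10_f]
      | succ j =>
        have h1 := ih (k + 1) j (by omega)
        have h2 := ih k (j + 1) (by omega)
        show (q ^ (k + 1) * r10_c q n (k + 1) + r10_c q n k) * (r10_f q (k + 1) * r10_f q (j + 1)) = _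
        calc (q ^ (k + 1) * r10_c q n (k + 1) + r10_c q n k) * (r10_f q (k + 1) * r10_f q (j + 1))
            = q ^ (k + 1) * (q ^ (j + 1) - 1) * (r10_c q n (k + 1) * (r10_f q (k + 1) * r10_f q j)) +
              (q ^ (k + 1) - 1) * (r10_c q n k * (r10_f q k * r10_f q (j + 1))) := by
              rw [r10_f_succ q k, r10_f_succ q j]
              ring
          _ = r10_f q (n + 1) := by
              rw [h1, h2, r10_f_succ q n]
              have : n + 1 = (k + 1) + (j + 1) := by omega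
              rw [this, pow_add]
              ring

lemma r10_comm {u v : A} (huv : u * v = ζ • (v * u)) (k : ℕ) :
    u * v ^ k = ζ ^ k • (v ^ k * u) := by
  induction k with
  | zero => simp
  | succ k ih =>
    rw [pow_succ, ← mul_assoc, ih, smul_mul_assoc, mul_assoc, huv, mul_smul_comm, smul_smul,
      ← mul_assoc, ← pow_succ]

lemma r10_add_pow {u v : A} (huv : u * v = ζ • (v * u)) (n : ℕ) :
    (u + v) ^ n = ∑ k ∈ Finset.range (n + 1), r10_c ζ n k • (v ^ k * u ^ (n - k)) := by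
  induction n with
  | zero => simp [r10_c]
  | succ n ih =>
    rw [pow_succ', ih, Finset.sum_range_succ' _ (n + 1), add_mul, Finset.mul_sum, Finset.mul_sum,
      Finset.sum_range_succ' _ n]
    have e1 : ∑ k ∈ Finset.range (n + 1), r10_c ζ (n + 1) (k + 1) •
        (v ^ (k + 1) * u ^ (n + 1 - (k + 1))) =
        ∑ k ∈ Finset.range n, ζ ^ (k + 1) • (r10_c ζ n (k + 1) • (v ^ (k + 1) * u ^ (n - k))) +
        ∑ k ∈ Finset.range (n + 1), r10_c ζ n k • (v ^ (k + 1) * u ^ (n - k)) := by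
      have e2 : ∀ k, r10_c ζ (n + 1) (k + 1) • (v ^ (k + 1) * u ^ (n + 1 - (k + 1))) =
          ζ ^ (k + 1) • (r10_c ζ n (k + 1) • (v ^ (k + 1) * u ^ (n - k))) +
          r10_c ζ n k • (v ^ (k + 1) * u ^ (n - k)) := by
        intro k
        rw [Nat.add_sub_add_right]
        show (ζ ^ (k + 1) * r10_c ζ n (k + 1) + r10_c ζ n k) • (v ^ (k + 1) * u ^ (n - k)) = _
        rw [add_smul, mul_smul]
      rw [Finset.sum_congr rfl fun k _ => e2 k, Finset.sum_add_distrib, Finset.sum_range_succ _ n,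
        r10_c_lt ζ n (n + 1) (by omega), zero_smul, smul_zero, add_zero]
    rw [e1]
    have e3 : ∀ k, k < n → u * (r10_c ζ n (k + 1) • (v ^ (k + 1) * u ^ (n - (k + 1)))) =
        ζ ^ (k + 1) • (r10_c ζ n (k + 1) • (v ^ (k + 1) * u ^ (n - k))) := by
      intro k hk
      rw [mul_smul_comm, ← mul_assoc, r10_comm huv, smul_mul_assoc, mul_assoc, ← pow_succ',
        smul_comm]
      congr 5
      omega
    have e4 : ∀ k, v * (r10_c ζ n k • (v ^ k * u ^ (n - k))) =
        r10_c ζ n k • (v ^ (k + 1) * u ^ (n - k)) := by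
      intro k
      rw [mul_smul_comm, ← mul_assoc, ← pow_succ']
    rw [Finset.sum_congr rfl fun k hk => e3 k (Finset.mem_range.1 hk),
      Finset.sum_congr rfl fun k _ => e4 k]
    have e5 : u * (r10_c ζ n 0 • (v ^ 0 * u ^ (n - 0))) =
        r10_c ζ (n + 1) 0 • (v ^ 0 * u ^ (n + 1 - 0)) := by
      rw [r10_c_zero, r10_c_zero, one_smul, one_smul, pow_zero, one_mul, one_mul, Nat.sub_zero,
        Nat.sub_zero, ← pow_succ']
    rw [e5]
    abel

theorem add_pow_symb (hζ : IsPrimitiveRoot ζ l) (hl : 1 < l) {u v : A}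
    (huv : u * v = ζ • (v * u)) : (u + v) ^ l = u ^ l + v ^ l := by
  obtain ⟨m, rfl⟩ : ∃ m, l = m + 1 := ⟨l - 1, by omega⟩
  have hf : ∀ k, k < m + 1 → r10_f ζ k ≠ 0 := by
    intro k hk
    unfold r10_f
    rw [Finset.prod_ne_zero_iff]
    intro i hi
    rw [Finset.mem_range] at hi
    rw [sub_ne_zero]
    exact hζ.pow_ne_one_of_pos_of_lt (by omega) (by omega)
  have hf0 : r10_f ζ (m + 1) = 0 := by
    rw [r10_f_succ, hζ.pow_eq_one, sub_self, mul_zero]
  have hc : ∀ k, k < m → r10_c ζ (m + 1) (k + 1) = 0 := by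
    intro k hk
    have h := r10_c_f ζ (m + 1) (k + 1) (m - k) (by omega)
    rw [hf0] at h
    rcases mul_eq_zero.1 h with h | h
    · exact h
    · exact absurd h (mul_ne_zero (hf _ (by omega)) (hf _ (by omega)))
  rw [r10_add_pow huv, Finset.sum_range_succ, Finset.sum_range_succ', r10_c_self, r10_c_zero,
    Finset.sum_eq_zero (fun k hk => by rw [hc k (Finset.mem_range.1 hk), zero_smul])]
  simp

lemma r10_mul_pow {x y : A} (hxy : x * y = ζ • (y * x)) (n : ℕ) :
    ζ ^ (∑ i ∈ Finset.range n, i) • (x * y) ^ n = x ^ n * y ^ n := by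
  induction n with
  | zero => simp
  | succ n ih =>
    have h1 : x ^ (n + 1) * y ^ (n + 1) = ζ ^ n • (x ^ n * y ^ n * (x * y)) := by
      rw [pow_succ x, pow_succ y, mul_assoc, ← mul_assoc x, r10_comm hxy, smul_mul_assoc,
        mul_smul_comm]
      simp only [mul_assoc]
    rw [h1, ← ih, Finset.sum_range_succ, pow_succ (x * y), smul_mul_assoc, smul_smul, ← pow_add,
      add_comm]

theorem IsSymb.steinberg (hζ : IsPrimitiveRoot ζ l) (hl : 1 < l) (ha : a ≠ 0) (hb : b ≠ 0)
    (hab : a + b = 1) (hA : IsSymb K l ζ a b A) : ∃ c : K, c ≠ 0 ∧ IsSymb K l ζ c 1 A := by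
  obtain ⟨hfd, hfr⟩ := hA.finrank hζ (by omega) ha hb
  obtain ⟨hnt, u, v, hu, hv, huv, -⟩ := hA
  have hζ0 : ζ ≠ 0 := hζ.ne_zero (by omega)
  obtain ⟨m, rfl⟩ : ∃ m, l = m + 1 := ⟨l - 1, by omega⟩
  -- the element t
  have hx : v ^ m * u = ζ • (u * v ^ m) := by
    rw [r10_comm huv, smul_smul, ← pow_succ', hζ.pow_eq_one, one_smul]
  have htv : v ^ m * u * v = ζ • (v * (v ^ m * u)) := by
    rw [mul_assoc, huv, mul_smul_comm, ← mul_assoc, ← mul_assoc, ← pow_succ, ← pow_succ']
  have htu : v ^ m * u * u = ζ • (u * (v ^ m * u)) := by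
    rw [hx, smul_mul_assoc, mul_assoc, hx]
  set S := ∑ i ∈ Finset.range (m + 1), i with hS
  have hc : (ζ ^ S)⁻¹ * (b ^ m * a) ≠ 0 :=
    mul_ne_zero (inv_ne_zero (pow_ne_zero _ hζ0)) (mul_ne_zero (pow_ne_zero _ hb) ha)
  have ht : (v ^ m * u) ^ (m + 1) = algebraMap K A ((ζ ^ S)⁻¹ * (b ^ m * a)) := by
    have h1 := r10_mul_pow hx (m + 1)
    rw [← pow_mul, mul_comm m (m + 1), pow_mul, hv, hu, ← map_pow, ← map_mul, ← hS] at h1
    rw [map_mul, ← h1, ← Algebra.smul_def, smul_smul, inv_mul_cancel₀ (pow_ne_zero _ hζ0), one_smul]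
  have hw : (u + v) ^ (m + 1) = algebraMap K A 1 := by
    rw [add_pow_symb hζ hl huv, hu, hv, ← map_add, hab]
  have htw : v ^ m * u * (u + v) = ζ • ((u + v) * (v ^ m * u)) := by
    rw [mul_add, htu, htv, ← smul_add, ← add_mul]
  exact ⟨_, hc, IsSymb.of_finrank hζ (by omega) hc one_ne_zero hfd hfr ht hw htw⟩

end Pool.Agent.LibBrS
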