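import Pool.Agent.LibBrS.Grp
import Pool.Agent.LibBrS.Model
import Pool.Agent.LibBrS.Split
import Pool.Agent.LibBrS.Ops
import Pool.Agent.LibBrS.Bilin
import Pool.Agent.LibBrS.Stein

/-!
[BrS R11] The symbol map with values in the Brauer group.
IsSymb.inv: (a, b) ⊗ (a⁻¹, b) = (1, b) ⊗ (a⁻¹, 1), (1, b) = (b⁻¹, 1) = M_l(K) by `IsSymb.swap`, `symb_one_right` and
`IsSymb.unique`. brSymb a b = class of a chosen symbol algebra; additive in a by `symb_mul_left`, in b by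
`IsSymb.swap`; Steinberg by `IsSymb.steinberg`; l • = 0: `scale` ((a^l, b) = (1, b)); power: `IsSymb.pow`
((a, b)_ζ = (a^N, b)_(ζ^N)).
-/

set_option autoImplicit false

open scoped TensorProduct
open Module Pool.Agent.LibK2Tower

namespace Pool.Agent.LibBrS

variable {K : Type} [Field K] {l : ℕ} {ζ : K}

lemma r11_one_left (hζ : IsPrimitiveRoot ζ l) (hl : 0 < l) {b : K} (hb : b ≠ 0) :
    IsSymb K l ζ 1 b (Matrix (Fin l) (Fin l) K) := by
  have h := (symb_one_right hζ hl hb).swap hζ hl hb one_ne_zero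
  rwa [inv_one] at h

theorem IsSymb.inv (hζ : IsPrimitiveRoot ζ l) (hl : 0 < l) {a b : K} (ha : a ≠ 0) (hb : b ≠ 0)
    {A : Type} [Ring A] [Algebra K A] (hA : IsSymb K l ζ a b A) : Inv K A := by
  obtain ⟨A', _, _, hA'⟩ := exists_symb (K := K) hζ hl (inv_ne_zero ha) hb
  have hB : IsSymb K l ζ (a * a⁻¹) b (Matrix (Fin l) (Fin l) K) := by
    rw [mul_inv_cancel₀ ha]
    exact r11_one_left hζ hl hb
  obtain ⟨e⟩ := symb_mul_left hζ hl ha (inv_ne_zero ha) hb hA hA' hB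
    (symb_one_right hζ hl (inv_ne_zero ha))
  have hM := (Inv.matrix K l hl.ne').tensor (Inv.matrix K l hl.ne')
  obtain ⟨C, _, _, n, hn, ⟨f⟩⟩ := hM.of_brEq (BrEq.of_equiv e.symm)
  exact ⟨A' ⊗[K] C, inferInstance, inferInstance, n, hn,
    ⟨(Algebra.TensorProduct.assoc K K K A A' C).symm.trans f⟩⟩

theorem exists_brSymb (hζ : IsPrimitiveRoot ζ l) (hl : 0 < l) :
    ∃ c : Kˣ → Kˣ → Additive (BrGrp K), ∀ (a b : Kˣ) (A : Type) [Ring A] [Algebra K A]
      (hA : IsSymb K l ζ a b A), c a b =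
        Additive.ofMul (cls A (hA.inv hζ hl a.ne_zero b.ne_zero)) := by
  have key : ∀ a b : Kˣ, ∃ g : Additive (BrGrp K), ∀ (A : Type) [Ring A] [Algebra K A]
      (hA : IsSymb K l ζ a b A), g =
        Additive.ofMul (cls A (hA.inv hζ hl a.ne_zero b.ne_zero)) := by
    intro a b
    obtain ⟨A, _, _, hA⟩ := exists_symb (K := K) hζ hl a.ne_zero b.ne_zero
    refine ⟨Additive.ofMul (cls A (hA.inv hζ hl a.ne_zero b.ne_zero)), ?_⟩
    intro A' _ _ hA'
    obtain ⟨e⟩ := hA.unique hζ hl a.ne_zero b.ne_zero hA'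
    rw [cls_eq_iff.2 (BrEq.of_equiv e)]
  choose c hc using key
  exact ⟨c, fun a b A _ _ hA => hc a b A hA⟩

/-- The class of the symbol algebra `(a, b)_ζ` in the Brauer group. -/
noncomputable def brSymb (hζ : IsPrimitiveRoot ζ l) (hl : 0 < l) (a b : Kˣ) :
    Additive (BrGrp K) := (exists_brSymb hζ hl).choose a b

theorem brSymb_eq (hζ : IsPrimitiveRoot ζ l) (hl : 0 < l) (a b : Kˣ) (A : Type) [Ring A]
    [Algebra K A] (hA : IsSymb K l ζ a b A) : brSymb hζ hl a b =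
      Additive.ofMul (cls A (hA.inv hζ hl a.ne_zero b.ne_zero)) :=
  (exists_brSymb hζ hl).choose_spec a b A hA

lemma r11_cls_matrix (hl : 0 < l) (h : Inv K (Matrix (Fin l) (Fin l) K)) :
    cls (Matrix (Fin l) (Fin l) K) h = 1 := by
  rw [cls_eq_one_iff]
  exact brEq_matrix l hl.ne'

lemma r11_split (hζ : IsPrimitiveRoot ζ l) (hl : 0 < l) (a b : Kˣ) {c : K} (hc : c ≠ 0) (A : Type)
    [Ring A] [Algebra K A] (hA : IsSymb K l ζ a b A) (hA' : IsSymb K l ζ c 1 A) :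
    brSymb hζ hl a b = 0 := by
  obtain ⟨e⟩ := hA'.unique hζ hl hc one_ne_zero (symb_one_right hζ hl hc)
  have h1 : cls A (hA.inv hζ hl a.ne_zero b.ne_zero) = 1 :=
    cls_eq_one_iff.2 ((BrEq.of_equiv e).trans (brEq_matrix l hl.ne'))
  rw [brSymb_eq hζ hl a b A hA, h1, ofMul_one]

lemma r11_mul_left (hζ : IsPrimitiveRoot ζ l) (hl : 0 < l) (a a' b : Kˣ) :
    brSymb hζ hl (a * a') b = brSymb hζ hl a b + brSymb hζ hl a' b := by
  obtain ⟨A, _, _, hA⟩ := exists_symb (K := K) hζ hl a.ne_zero b.ne_zero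
  obtain ⟨A', _, _, hA'⟩ := exists_symb (K := K) hζ hl a'.ne_zero b.ne_zero
  obtain ⟨B, _, _, hB⟩ := exists_symb (K := K) hζ hl (a * a').ne_zero b.ne_zero
  have hB' : IsSymb K l ζ ((a : K) * (a' : K)) b B := by
    rw [← Units.val_mul]
    exact hB
  obtain ⟨e⟩ := symb_mul_left hζ hl a.ne_zero a'.ne_zero b.ne_zero hA hA' hB'
    (symb_one_right hζ hl a'.ne_zero)
  rw [brSymb_eq hζ hl a b A hA, brSymb_eq hζ hl a' b A' hA', brSymb_eq hζ hl (a * a') b B hB,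
    ← ofMul_mul]
  congr 1
  have hBi := hB.inv hζ hl (a * a').ne_zero b.ne_zero
  calc cls B hBi = cls B hBi * cls (Matrix (Fin l) (Fin l) K) (Inv.matrix K l hl.ne') := by
        rw [r11_cls_matrix hl, mul_one]
    _ = cls (B ⊗[K] Matrix (Fin l) (Fin l) K) (hBi.tensor (Inv.matrix K l hl.ne')) := cls_mul _ _
    _ = cls (A ⊗[K] A') ((hA.inv hζ hl a.ne_zero b.ne_zero).tensor
          (hA'.inv hζ hl a'.ne_zero b.ne_zero)) := cls_eq_iff.2 (BrEq.of_equiv e.symm)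
    _ = _ := (cls_mul _ _).symm

lemma r11_swap (hζ : IsPrimitiveRoot ζ l) (hl : 0 < l) (a b : Kˣ) :
    brSymb hζ hl a b = brSymb hζ hl b⁻¹ a := by
  obtain ⟨A, _, _, hA⟩ := exists_symb (K := K) hζ hl a.ne_zero b.ne_zero
  have hA' : IsSymb K l ζ ((b⁻¹ : Kˣ) : K) a A := by
    have := hA.swap hζ hl a.ne_zero b.ne_zero
    rwa [← Units.val_inv_eq_inv_val] at this
  rw [brSymb_eq hζ hl a b A hA, brSymb_eq hζ hl b⁻¹ a A hA']

theorem isSymbol_brSymb (hζ : IsPrimitiveRoot ζ l) (hl : 1 < l) :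
    IsSymbol (brSymb hζ (by omega)) := by
  have hl0 : 0 < l := by omega
  refine ⟨fun u v w => r11_mul_left hζ hl0 u v w, ?_, ?_⟩
  · intro u v w
    rw [r11_swap hζ hl0, r11_swap hζ hl0 u v, r11_swap hζ hl0 u w, mul_inv, r11_mul_left hζ hl0]
  · intro u v huv
    obtain ⟨A, _, _, hA⟩ := exists_symb (K := K) hζ hl0 u.ne_zero v.ne_zero
    obtain ⟨c, hc, hA'⟩ := hA.steinberg hζ hl u.ne_zero v.ne_zero huv
    exact r11_split hζ hl0 u v hc A hA hA'

theorem smul_brSymb (hζ : IsPrimitiveRoot ζ l) (hl : 1 < l) (a b : Kˣ) :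
    l • brSymb hζ (by omega) a b = 0 := by
  have hl0 : 0 < l := by omega
  have h := (isSymbol_brSymb hζ hl)
  rw [← h.pow_left]
  obtain ⟨A, _, _, hA⟩ := exists_symb (K := K) hζ hl0 (a ^ l).ne_zero b.ne_zero
  have hA1 : IsSymb K l ζ ((1 : Kˣ) : K) b A := by
    have h2 : IsSymb K l ζ ((a : K) ^ l * 1) b A := by
      rw [mul_one, ← Units.val_pow_eq_pow_val]
      exact hA
    have h3 := IsSymb.scale hζ hl0 one_ne_zero b.ne_zero a.ne_zero h2
    rw [Units.val_one]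
    exact h3
  rw [brSymb_eq hζ hl0 (a ^ l) b A hA, ← h.one_left b, brSymb_eq hζ hl0 1 b A hA1]

theorem brSymb_pow (hζ : IsPrimitiveRoot ζ l) (hl : 1 < l) {N : ℕ} (hN : N.Coprime l)
    (hζN : IsPrimitiveRoot (ζ ^ N) l) (a b : Kˣ) :
    N • brSymb hζN (by omega) a b = brSymb hζ (by omega) a b := by
  have hl0 : 0 < l := by omega
  rw [← (isSymbol_brSymb hζN hl).pow_left]
  obtain ⟨A, _, _, hA⟩ := exists_symb (K := K) hζ hl0 a.ne_zero b.ne_zero
  have hA' : IsSymb K l (ζ ^ N) ((a ^ N : Kˣ) : K) b A := by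
    rw [Units.val_pow_eq_pow_val]
    exact hA.pow hζ hl0 a.ne_zero b.ne_zero hN
  rw [brSymb_eq hζN hl0 (a ^ N) b A hA', brSymb_eq hζ hl0 a b A hA]

end Pool.Agent.LibBrS
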