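import Pool.Agent.LibG64.Defs
import Pool.Agent.LibBrS.Defs

/-!
From the vanishing of the rational symbols to `K_2(E)` modulo the symbols `{f, e}`.
-/

set_option autoImplicit false

open scoped TensorProduct
open Module Polynomial Pool.Agent.LibK2Tower Pool.Agent.LibG64

namespace Pool.Agent.LibBrS

/-- The value at `z` of a polynomial, as a unit (`1` if it vanishes). -/
noncomputable def evu {F E : Type} [Field F] [Field E] [Algebra F E] (z : E) (f : F[X]) : Eˣ :=
  open Classical in if h : aeval z f = 0 then 1 else Units.mk0 _ h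

theorem evu_val {F E : Type} [Field F] [Field E] [Algebra F E] (z : E) (f : F[X])
    (h : aeval z f ≠ 0) : (evu z f : E) = aeval z f := by
  unfold evu
  rw [dif_neg h, Units.val_mk0]

/-- The steps of the tensor product with `ℚ`: an element is zero if and only if it is torsion. -/
theorem exists_torsion {M : Type} [AddCommGroup M] (x : M)
    (h : (1 : ℚ) ⊗ₜ[ℤ] x = 0) : ∃ j : ℕ, j ≠ 0 ∧ j • x = 0 := by
  have : IsLocalizedModule (nonZeroDivisors ℤ) (TensorProduct.mk ℤ ℚ M 1) :=
    (isLocalizedModule_iff_isBaseChange (nonZeroDivisors ℤ) ℚ _).2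
      (TensorProduct.isBaseChange ℤ M ℚ)
  obtain ⟨c, hc⟩ := (IsLocalizedModule.eq_zero_iff (nonZeroDivisors ℤ)
    (TensorProduct.mk ℤ ℚ M 1)).1 h
  have hc0 : (c : ℤ) ≠ 0 := nonZeroDivisors.coe_ne_zero c
  refine ⟨(c : ℤ).natAbs, Int.natAbs_ne_zero.2 hc0, ?_⟩
  have hc' : (c : ℤ) • x = 0 := hc
  rcases Int.natAbs_eq (c : ℤ) with h1 | h1
  · rw [h1, natCast_zsmul] at hc'
    exact hc'
  · rw [h1, neg_smul, natCast_zsmul, neg_eq_zero] at hc'
    exact hc'

theorem k2_torsion {F E : Type} [Field F] [Field E] [Algebra F E] (p : ℕ) [Fact p.Prime]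
    [CharP F p] {N : ℕ} (hN : N.Coprime p) (hN0 : 0 < N) {z : E} (hz : z ^ N = 1)
    (hE : IntermediateField.adjoin F {z} = ⊤)
    (H : ∀ (A : Type) [AddCommGroup A] [Module ℚ A] (σ : F →+* F) (Q : ℕ) (P : F[X])
      (b : F[X] → F[X] → A), IsFrob σ Q → P.Monic → Irreducible P → QSym σ Q P b →
      ∀ f ∈ W F P.natDegree, ∀ g ∈ W F P.natDegree, b f g = 0) (x : K2 E) :
    ∃ j : ℕ, j ≠ 0 ∧ j • x ∈ baseSymbols F E := by
  have hp : p.Prime := Fact.out
  have : CharP E p := charP_of_injective_algebraMap (algebraMap F E).injective p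
  -- the Frobenius
  set Q : ℕ := p ^ N.totient with hQdef
  have htot : 0 < N.totient := Nat.totient_pos.2 hN0
  have hQ : z ^ Q = z := by
    have h1 : N ∣ Q - 1 :=
      (Nat.modEq_iff_dvd' (Nat.one_le_pow _ _ hp.pos)).1 (Nat.ModEq.pow_totient hN.symm).symm
    obtain ⟨k, hk⟩ := h1
    have h2 : Q = N * k + 1 := by
      have : 1 ≤ Q := Nat.one_le_pow _ _ hp.pos
      omega
    rw [h2, pow_succ, pow_mul, hz, one_pow, one_mul]
  have hQ2 : 2 ≤ Q := Nat.one_lt_pow htot.ne' hp.one_lt
  let σ : F →+* F := iterateFrobenius F p N.totient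
  have hσ : IsFrob σ Q := ⟨hQ2, fun x => iterateFrobenius_def p N.totient x⟩
  -- the minimal polynomial
  have hint : IsIntegral F z := by
    apply IsIntegral.of_pow hN0
    rw [hz]
    exact isIntegral_one
  set P := minpoly F z with hPdef
  have hPm : P.Monic := minpoly.monic hint
  have hPi : Irreducible P := minpoly.irreducible hint
  have hmod : ∀ f : F[X], aeval z (f %ₘ P) = aeval z f := by
    intro f
    conv_rhs => rw [← modByMonic_add_div f P]
    rw [map_add, map_mul, minpoly.aeval, zero_mul, add_zero]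
  have hne : ∀ f ∈ W F P.natDegree, aeval z f ≠ 0 := by
    rintro f ⟨hf0, hf⟩ h
    have h1 := minpoly.degree_le_of_ne_zero F z hf0 h
    rw [← hPdef, degree_eq_natDegree hPm.ne_zero] at h1
    exact absurd (lt_of_lt_of_le hf h1) (lt_irrefl _)
  have hev : ∀ f ∈ W F P.natDegree, (evu z f : E) = aeval z f := fun f hf =>
    evu_val z f (hne f hf)
  let M := K2 E ⧸ baseSymbols F E
  let q : K2 E →+ M := QuotientAddGroup.mk' (baseSymbols F E)
  let c : Eˣ → Eˣ → (ℚ ⊗[ℤ] M) := fun u v => (1 : ℚ) ⊗ₜ[ℤ] q (symb u v)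
  have hc : IsSymbol c := by
    refine ⟨fun u v w => ?_, fun u v w => ?_, fun u v huv => ?_⟩
    · show (1 : ℚ) ⊗ₜ[ℤ] q (symb (u * v) w) = _
      rw [isSymbol_symb.mul_left, map_add, TensorProduct.tmul_add]
    · show (1 : ℚ) ⊗ₜ[ℤ] q (symb u (v * w)) = _
      rw [isSymbol_symb.mul_right, map_add, TensorProduct.tmul_add]
    · show (1 : ℚ) ⊗ₜ[ℤ] q (symb u v) = 0
      rw [isSymbol_symb.steinberg u v huv, map_zero, TensorProduct.tmul_zero]
  have hcF : ∀ (a : Fˣ) (v : Eˣ), c (Units.map (algebraMap F E).toMonoidHom a) v = 0 := by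
    intro a v
    show (1 : ℚ) ⊗ₜ[ℤ] q (symb _ v) = 0
    have h1 : q (symb (Units.map (algebraMap F E).toMonoidHom a) v) = 0 :=
      (QuotientAddGroup.eq_zero_iff _).2 (AddSubgroup.subset_closure ⟨a, v, rfl⟩)
    rw [h1, TensorProduct.tmul_zero]
  have hcs : ∀ u : Eˣ, c u u = 0 := by
    intro u
    have h1 := hc.neg_self u
    have h2 : -u = Units.map (algebraMap F E).toMonoidHom (-1 : Fˣ) * u := by
      ext
      simp
    rw [h2, hc.mul_right, hc.anti u, hcF, neg_zero, zero_add] at h1
    exact h1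
  have hctri : ∀ u v s : Eˣ, (u : E) + v = s → c u v = c u s + c s v := by
    intro u v s hs
    have h1 : c (u * s⁻¹) (v * s⁻¹) = 0 := by
      apply hc.steinberg
      rw [Units.val_mul, Units.val_mul, ← add_mul, hs, Units.mul_inv]
    rw [hc.mul_left, hc.mul_right, hc.mul_right, hc.inv_right, hc.inv_left, hc.inv_left,
      hc.inv_right, hcs s, neg_zero, neg_zero, add_zero] at h1
    have h2 : c u v = c u s + c s v := by
      have h3 : c u v + -c u s + -c s v = 0 := h1
      rw [add_assoc, ← neg_add] at h3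
      exact eq_of_sub_eq_zero (by rw [sub_eq_add_neg]; exact h3)
    exact h2
  have hsym : QSym σ Q P (fun f g => c (evu z f) (evu z g)) := by
    refine ⟨?_, ?_, ?_, ?_, ?_⟩
    · intro f hf g hg h hh
      show c (evu z ((f * g) %ₘ P)) (evu z h) = _
      have h1 : evu z ((f * g) %ₘ P) = evu z f * evu z g := by
        ext
        have h2 : aeval z ((f * g) %ₘ P) = aeval z f * aeval z g := by rw [hmod, map_mul]
        rw [evu_val z _ (by rw [h2]; exact mul_ne_zero (hne f hf) (hne g hg)), h2, Units.val_mul,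
          hev f hf, hev g hg]
      rw [h1, hc.mul_left]
    · intro f _ g _
      exact hc.anti _ _
    · intro f hf g hg hfg
      apply hctri
      have h1 : f + g ∈ W F P.natDegree :=
        ⟨hfg, lt_of_le_of_lt (degree_add_le f g) (max_lt hf.2 hg.2)⟩
      rw [hev f hf, hev g hg, hev _ h1, map_add]
    · intro a ha g _
      have h1 : evu z (C a) = Units.map (algebraMap F E).toMonoidHom (Units.mk0 a ha) := by
        ext
        rw [evu_val z (C a) (by simpa using ha)]
        simp
      show c (evu z (C a)) (evu z g) = 0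
      rw [h1, hcF]
    · intro f hf g _
      have h1 : evu z (f.map σ) = evu z f ^ Q := by
        ext
        have h2 : aeval z (f.map σ) = (aeval z f) ^ Q := by
          rw [← iterateFrobenius_def (R := E) p N.totient, aeval_def, aeval_def, hom_eval₂,
            eval₂_map, iterateFrobenius_def (R := E) p N.totient z, ← hQdef, hQ]
          congr 1
          ext a
          simp [σ, iterateFrobenius_def]
        rw [evu_val z _ (by rw [h2]; exact pow_ne_zero _ (hne f hf)), h2, Units.val_pow_eq_pow_val,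
          hev f hf]
      show c (evu z (f.map σ)) (evu z g) = Q • c (evu z f) (evu z g)
      rw [h1, hc.pow_left]
  have hzero := H (ℚ ⊗[ℤ] M) σ Q P _ hσ hPm hPi hsym
  -- every unit is a value
  have hsurj : ∀ u : Eˣ, ∃ f ∈ W F P.natDegree, evu z f = u := by
    intro u
    have h1 : Algebra.adjoin F {z} = ⊤ := by
      rw [← IntermediateField.adjoin_simple_toSubalgebra_of_isAlgebraic hint.isAlgebraic, hE]
      rfl
    have h2 : (u : E) ∈ Algebra.adjoin F {z} := by rw [h1]; trivial
    rw [Algebra.adjoin_singleton_eq_range_aeval] at h2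
    obtain ⟨f, hf⟩ := h2
    have h3 : aeval z (f %ₘ P) = u := by rw [hmod]; exact hf
    have h4 : aeval z (f %ₘ P) ≠ 0 := by rw [h3]; exact u.ne_zero
    refine ⟨f %ₘ P, ⟨?_, ?_⟩, ?_⟩
    · rintro h5
      rw [h5, map_zero] at h4
      exact h4 rfl
    · rw [← degree_eq_natDegree hPm.ne_zero]
      exact degree_modByMonic_lt f hPm
    · ext
      rw [evu_val z _ h4, h3]
  have hcz : ∀ u v : Eˣ, c u v = 0 := by
    intro u v
    obtain ⟨f, hf, rfl⟩ := hsurj u
    obtain ⟨g, hg, rfl⟩ := hsurj v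
    exact hzero f hf g hg
  have hx : (1 : ℚ) ⊗ₜ[ℤ] q x = 0 := by
    induction x using K2.induction with
    | h0 => rw [map_zero, TensorProduct.tmul_zero]
    | hs u v => exact hcz u v
    | hn x hx => rw [map_neg, TensorProduct.tmul_neg, hx, neg_zero]
    | ha x y hx hy => rw [map_add, TensorProduct.tmul_add, hx, hy, add_zero]
  obtain ⟨j, hj, hjx⟩ := exists_torsion (q x) hx
  refine ⟨j, hj, ?_⟩
  rw [← map_nsmul] at hjx
  exact (QuotientAddGroup.eq_zero_iff _).1 hjx

end Pool.Agent.LibBrS
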