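import Pool.Agent.LibBrS.Hom

/-!
[BrS N2] m [(a, b)_(ζ, degree l m)] = [(a, b)_(ζ^m, degree l)].
m [(a,b)] = [(a, b^m)] by additivity in b. If A₀ is the symbol algebra (a,b)_(ζ^m) of degree l with generators u₀, v₀,
then M_m(A₀) is (a, b^m)_ζ of degree l m: u e_i = e_(i+1) (i < m-1), u e_(m-1) = u₀ e_0 (so u^m = u₀), v = diag(ζ^(-i) v₀)
(choose the exponents and the direction so that u v = ζ v u; the wrap-around gives u₀ v₀ = ζ^m v₀ u₀).
`IsSymb.of_finrank` over K (dimension m^2 l^2), `brEq_matrix`.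
-/

set_option autoImplicit false

open scoped TensorProduct
open Module Pool.Agent.LibK2Tower

namespace Pool.Agent.LibBrS

variable {K : Type} [Field K] {l m : ℕ} {ζ : K}

/-- The shift matrix with the entry `c` at the wrap-around. -/
def Ratio_sh {A : Type} [Ring A] (m : ℕ) (c : A) (k : ℕ) : Matrix (Fin m) (Fin m) A :=
  fun i j => if (i : ℕ) = j + k then 1 else if (i : ℕ) + m = j + k then c else 0

theorem Ratio_sh_mul {A : Type} [Ring A] (m : ℕ) (c : A) (k : ℕ) (hk : k < m) :
    Ratio_sh m c 1 * Ratio_sh m c k = Ratio_sh m c (k + 1) := by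
  ext i j
  rw [Matrix.mul_apply]
  have hj := j.2
  have hi := i.2
  rcases Nat.eq_zero_or_pos (i : ℕ) with h0 | h0
  · rw [Finset.sum_eq_single (⟨m - 1, by omega⟩ : Fin m)]
    · simp only [Ratio_sh]
      by_cases h1 : m - 1 = (j : ℕ) + k
      · rw [if_neg (by omega), if_pos (by omega), if_pos h1, if_neg (by omega),
          if_pos (by omega), mul_one]
      · rw [if_neg (by omega), if_pos (by omega), if_neg h1, if_neg (by omega),
          if_neg (by omega), if_neg (by omega), mul_zero]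
    · intro t _ ht
      have ht' : (t : ℕ) ≠ m - 1 := fun h => ht (Fin.ext h)
      have ht2 := t.2
      have : Ratio_sh m c 1 i t = 0 := by
        simp only [Ratio_sh]
        rw [if_neg (by omega), if_neg (by omega)]
      rw [this, zero_mul]
    · intro h
      exact absurd (Finset.mem_univ _) h
  · rw [Finset.sum_eq_single (⟨i - 1, by omega⟩ : Fin m)]
    · simp only [Ratio_sh]
      by_cases h1 : (i : ℕ) - 1 = (j : ℕ) + k
      · rw [if_pos (by omega), if_pos h1, if_pos (by omega), mul_one]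
      · by_cases h2 : (i : ℕ) - 1 + m = (j : ℕ) + k
        · rw [if_pos (by omega), if_neg h1, if_pos h2, if_neg (by omega), if_pos (by omega),
            one_mul]
        · rw [if_pos (by omega), if_neg h1, if_neg h2, if_neg (by omega), if_neg (by omega),
            mul_zero]
    · intro t _ ht
      have ht' : (t : ℕ) ≠ i - 1 := fun h => ht (Fin.ext h)
      have ht2 := t.2
      have : Ratio_sh m c 1 i t = 0 := by
        simp only [Ratio_sh]
        rw [if_neg (by omega), if_neg (by omega)]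
      rw [this, zero_mul]
    · intro h
      exact absurd (Finset.mem_univ _) h

theorem Ratio_sh_zero {A : Type} [Ring A] (m : ℕ) (c : A) : Ratio_sh m c 0 = 1 := by
  ext i j
  have hj := j.2
  have hi := i.2
  simp only [Ratio_sh, Matrix.one_apply]
  by_cases h : i = j
  · subst h
    simp
  · have h' : (i : ℕ) ≠ j := fun h2 => h (Fin.ext h2)
    rw [if_neg (by omega), if_neg (by omega), if_neg h]

theorem Ratio_sh_pow {A : Type} [Ring A] (m : ℕ) (c : A) (k : ℕ) (hk : k ≤ m) :
    Ratio_sh m c 1 ^ k = Ratio_sh m c k := by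
  induction k with
  | zero => rw [pow_zero, Ratio_sh_zero]
  | succ k ih =>
    rw [pow_succ', ih (by omega), Ratio_sh_mul m c k (by omega)]

theorem Ratio_sh_self {A : Type} [Ring A] (m : ℕ) (c : A) :
    Ratio_sh m c m = Matrix.diagonal (fun _ => c) := by
  ext i j
  have hj := j.2
  have hi := i.2
  simp only [Ratio_sh, Matrix.diagonal_apply]
  by_cases h : i = j
  · subst h
    simp
    intro h
    omega
  · have h' : (i : ℕ) ≠ j := fun h2 => h (Fin.ext h2)
    rw [if_neg (by omega), if_neg (by omega), if_neg h]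

theorem symb_ratio_matrix (hl : 0 < l) (hm : 0 < m) (hζ : IsPrimitiveRoot ζ (l * m))
    {a b : K} (ha : a ≠ 0) (hb : b ≠ 0) {A : Type} [Ring A] [Algebra K A]
    (hA : IsSymb K l (ζ ^ m) a b A) :
    IsSymb K (l * m) ζ a (b ^ m) (Matrix (Fin m) (Fin m) A) := by
  have hlm : 0 < l * m := Nat.mul_pos hl hm
  have hζ0 : ζ ≠ 0 := hζ.ne_zero hlm.ne'
  have hζm : IsPrimitiveRoot (ζ ^ m) l := hζ.pow hlm (mul_comm l m)
  obtain ⟨hfin, hrank⟩ := hA.finrank hζm hl ha hb
  obtain ⟨_, u₀, v₀, hu, hv, huv, -⟩ := hA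
  have hdim : Module.finrank K (Matrix (Fin m) (Fin m) A) = (l * m) ^ 2 := by
    rw [Module.finrank_matrix, hrank, Fintype.card_fin]
    ring
  refine IsSymb.of_finrank (u := Ratio_sh m u₀ 1)
    (v := Matrix.diagonal (fun i : Fin m => (ζ⁻¹ ^ (i : ℕ)) • v₀)) hζ hlm ha (pow_ne_zero _ hb)
    inferInstance hdim ?_ ?_ ?_
  · rw [mul_comm l m, pow_mul, Ratio_sh_pow m u₀ m le_rfl, Ratio_sh_self, Matrix.diagonal_pow]
    rw [Matrix.algebraMap_eq_diagonal]
    congr 1
    funext i
    simp [hu]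
  · rw [Matrix.diagonal_pow, Matrix.algebraMap_eq_diagonal]
    congr 1
    funext i
    simp only [Pi.pow_apply, smul_pow, Pi.algebraMap_apply]
    rw [← pow_mul, pow_mul v₀, hv, mul_comm (i : ℕ) (l * m), pow_mul, inv_pow, hζ.pow_eq_one]
    simp [map_pow]
  · ext i j
    have hj := j.2
    have hi := i.2
    rw [Matrix.mul_diagonal, Matrix.smul_apply, Matrix.diagonal_mul]
    simp only [Ratio_sh]
    by_cases h1 : (i : ℕ) = j + 1
    · rw [if_pos h1, one_mul, mul_one, smul_smul, h1, pow_succ']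
      rw [← mul_assoc, mul_inv_cancel₀ hζ0, one_mul]
    · rw [if_neg h1]
      by_cases h2 : (i : ℕ) + m = j + 1
      · rw [if_pos h2]
        have hi0 : (i : ℕ) = 0 := by omega
        have hj0 : (j : ℕ) = m - 1 := by omega
        rw [hi0, hj0, pow_zero, one_smul, mul_smul_comm, huv, smul_smul]
        congr 1
        obtain ⟨n, rfl⟩ : ∃ n, m = n + 1 := ⟨m - 1, by omega⟩
        rw [Nat.add_sub_cancel, pow_succ, ← mul_assoc, ← mul_pow, inv_mul_cancel₀ hζ0, one_pow,
          one_mul]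
      · rw [if_neg h2, zero_mul, mul_zero, smul_zero]

theorem Ratio_pow_right {E G : Type*} [Field E] [AddCommGroup G] {c : Eˣ → Eˣ → G}
    (h : IsSymbol c) (u v : Eˣ) (k : ℕ) : c u (v ^ k) = k • c u v := by
  induction k with
  | zero => rw [pow_zero, h.one_right, zero_smul]
  | succ k ih => rw [pow_succ, h.mul_right, ih, succ_nsmul]

theorem brSymb_ratio (hl : 1 < l) (hm : 0 < m) (hζ : IsPrimitiveRoot ζ (l * m))
    (hζ' : IsPrimitiveRoot (ζ ^ m) l) (a b : Kˣ) :
    m • brSymb hζ (Nat.mul_pos (by omega) hm) a b = brSymb hζ' (by omega) a b := by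
  have hlm : 1 < l * m := lt_of_lt_of_le hl (Nat.le_mul_of_pos_right l hm)
  have h1 : m • brSymb hζ (Nat.mul_pos (by omega) hm) a b =
      brSymb hζ (Nat.mul_pos (by omega) hm) a (b ^ m) :=
    (Ratio_pow_right (isSymbol_brSymb hζ hlm) a b m).symm
  rw [h1]
  obtain ⟨A, _, _, hA⟩ := exists_symb (K := K) (l := l) (ζ := ζ ^ m) hζ' (by omega)
    a.ne_zero b.ne_zero
  have hM := symb_ratio_matrix (by omega : 0 < l) hm hζ a.ne_zero b.ne_zero hA
  have hM' : IsSymb K (l * m) ζ (a : K) ((b ^ m : Kˣ) : K) (Matrix (Fin m) (Fin m) A) := by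
    rw [Units.val_pow_eq_pow_val]
    exact hM
  rw [brSymb_eq hζ' (by omega) a b A hA,
    brSymb_eq hζ (Nat.mul_pos (by omega) hm) a (b ^ m) (Matrix (Fin m) (Fin m) A) hM']
  congr 1
  rw [cls_eq_iff]
  exact brEq_matrix m hm.ne'

end Pool.Agent.LibBrS
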