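import Pool.Agent.LibBrS.Mono

/-!
[BrS R6] Universal property and uniqueness of symbol algebras: the linear map A → B, u^i v^j ↦ u'^i v'^j
(i, j < l) then has this formula for all i, j ∈ ℕ (reduce exponents mod l), is multiplicative on monomials
(`comm_pow`), and is an algebra homomorphism.
-/

set_option autoImplicit false

open scoped TensorProduct
open Module Pool.Agent.LibK2Tower

namespace Pool.Agent.LibBrS

variable {K : Type} [Field K] {l : ℕ} {ζ a b : K} {A B : Type} [Ring A] [Algebra K A]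
  [Ring B] [Algebra K B]

/-- Powers of an element with `x ^ l = a`. -/
private theorem r6_pow {x : A} (hx : x ^ l = algebraMap K A a) (i : ℕ) :
    x ^ i = a ^ (i / l) • x ^ (i % l) := by
  conv_lhs => rw [← Nat.mod_add_div i l, pow_add, pow_mul, hx, ← map_pow]
  rw [← Algebra.commutes, ← Algebra.smul_def]

/-- Reduction of the exponents of a monomial. -/
private theorem r6_red {u v : A} (hu : u ^ l = algebraMap K A a) (hv : v ^ l = algebraMap K A b)
    (i j : ℕ) : u ^ i * v ^ j = (a ^ (i / l) * b ^ (j / l)) • (u ^ (i % l) * v ^ (j % l)) := by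
  rw [r6_pow hu i, r6_pow hv j, smul_mul_smul_comm]

/-- Product of two monomials. -/
private theorem r6_mul {u v : A} (hζ : ζ ≠ 0) (huv : u * v = ζ • (v * u)) (i j i' j' : ℕ) :
    (u ^ i * v ^ j) * (u ^ i' * v ^ j') = (ζ ^ (i' * j))⁻¹ • (u ^ (i + i') * v ^ (j + j')) := by
  have h := comm_pow huv i' j
  have h0 : ζ ^ (i' * j) ≠ 0 := pow_ne_zero _ hζ
  have h1 : v ^ j * u ^ i' = (ζ ^ (i' * j))⁻¹ • (u ^ i' * v ^ j) := by
    rw [h, smul_smul, inv_mul_cancel₀ h0, one_smul]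
  calc (u ^ i * v ^ j) * (u ^ i' * v ^ j') = u ^ i * (v ^ j * u ^ i') * v ^ j' := by
        simp only [mul_assoc]
    _ = _ := by
        rw [h1, mul_smul_comm, smul_mul_assoc, pow_add, pow_add]
        simp only [mul_assoc]

theorem exists_hom (hζ : IsPrimitiveRoot ζ l) (hl : 0 < l) (ha : a ≠ 0) (hb : b ≠ 0)
    [Nontrivial A] {u v : A} (hu : u ^ l = algebraMap K A a) (hv : v ^ l = algebraMap K A b)
    (huv : u * v = ζ • (v * u)) (hgen : Algebra.adjoin K {u, v} = ⊤)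
    {u' v' : B} (hu' : u' ^ l = algebraMap K B a) (hv' : v' ^ l = algebraMap K B b)
    (huv' : u' * v' = ζ • (v' * u')) : ∃ f : A →ₐ[K] B, f u = u' ∧ f v = v' := by
  have hζ0 : ζ ≠ 0 := hζ.ne_zero hl.ne'
  have hli := mono_li hζ hl ha hb hu hv huv
  have hsp : ⊤ ≤ Submodule.span K
      (Set.range (fun ij : Fin l × Fin l => u ^ (ij.1 : ℕ) * v ^ (ij.2 : ℕ))) := by
    rw [mono_span hζ hl hu hv huv, hgen]
    exact le_of_eq Algebra.top_toSubmodule.symm
  let bas : Basis (Fin l × Fin l) K A := Basis.mk hli hsp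
  have hbas : ∀ ij : Fin l × Fin l, bas ij = u ^ (ij.1 : ℕ) * v ^ (ij.2 : ℕ) := fun ij => by
    simp [bas]
  let f : A →ₗ[K] B := bas.constr K (fun ij => u' ^ (ij.1 : ℕ) * v' ^ (ij.2 : ℕ))
  have hf0 : ∀ ij : Fin l × Fin l, f (u ^ (ij.1 : ℕ) * v ^ (ij.2 : ℕ)) =
      u' ^ (ij.1 : ℕ) * v' ^ (ij.2 : ℕ) := fun ij => by
    rw [← hbas ij]
    exact bas.constr_basis K _ ij
  have hf : ∀ i j : ℕ, f (u ^ i * v ^ j) = u' ^ i * v' ^ j := by
    intro i j
    rw [r6_red hu hv i j, r6_red hu' hv' i j, map_smul]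
    have := hf0 (⟨i % l, Nat.mod_lt _ hl⟩, ⟨j % l, Nat.mod_lt _ hl⟩)
    rw [← this]
  have hmul : ∀ x y, f (x * y) = f x * f y := by
    rw [LinearMap.map_mul_iff]
    apply bas.ext
    intro ij
    apply bas.ext
    intro kl
    change f (bas ij * bas kl) = f (bas ij) * f (bas kl)
    rw [hbas, hbas, hf, hf, r6_mul hζ0 huv, r6_mul hζ0 huv', map_smul, hf]
  have hone : f 1 = 1 := by
    have := hf 0 0
    simpa using this
  refine ⟨AlgHom.ofLinearMap f hone hmul, ?_, ?_⟩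
  · have := hf 1 0
    simpa using this
  · have := hf 0 1
    simpa using this

theorem IsSymb.unique (hζ : IsPrimitiveRoot ζ l) (hl : 0 < l) (ha : a ≠ 0) (hb : b ≠ 0)
    (hA : IsSymb K l ζ a b A) (hB : IsSymb K l ζ a b B) : Nonempty (A ≃ₐ[K] B) := by
  obtain ⟨hA1, u, v, hu, hv, huv, hgen⟩ := hA
  obtain ⟨hB1, u', v', hu', hv', huv', hgen'⟩ := hB
  obtain ⟨f, hfu, hfv⟩ := exists_hom hζ hl ha hb hu hv huv hgen hu' hv' huv'
  obtain ⟨g, hgu, hgv⟩ := exists_hom hζ hl ha hb hu' hv' huv' hgen' hu hv huv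
  refine ⟨AlgEquiv.ofAlgHom f g ?_ ?_⟩
  · apply AlgHom.ext_of_adjoin_eq_top hgen'
    rintro x (rfl | rfl)
    · simp [hgu, hfu]
    · simp [hgv, hfv]
  · apply AlgHom.ext_of_adjoin_eq_top hgen
    rintro x (rfl | rfl)
    · simp [hgu, hfu]
    · simp [hgv, hfv]

end Pool.Agent.LibBrS
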